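import Mathlib

/-!
# Central extensions with undistorted kernel are quasi-isometrically trivial
-/

set_option autoImplicit false

open scoped Pointwise

namespace Pool.Agent.H378Z.Central

section Words

variable {A : Type} [Group A]

lemma exists_pow {S : Finset A} (hS : Subgroup.closure (S : Set A) = ⊤) (h1 : (1 : A) ∈ S)
    (hi : ∀ x ∈ S, x⁻¹ ∈ S) (a : A) : ∃ n : ℕ, a ∈ (S : Set A) ^ n := by
  have ha : a ∈ Subgroup.closure (S : Set A) := by rw [hS]; trivial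
  refine Subgroup.closure_induction_right (p := fun a _ => ∃ n : ℕ, a ∈ (S : Set A) ^ n) ?_ ?_ ?_ ha
  · exact ⟨0, by simp⟩
  · rintro x - y hy ⟨n, hn⟩
    exact ⟨n + 1, by rw [pow_succ]; exact Set.mul_mem_mul hn hy⟩
  · rintro x - y hy ⟨n, hn⟩
    exact ⟨n + 1, by rw [pow_succ]; exact Set.mul_mem_mul hn (hi y hy)⟩

lemma pow_mono {S : Finset A} (h1 : (1 : A) ∈ S) {m n : ℕ} (h : m ≤ n) :
    (S : Set A) ^ m ⊆ (S : Set A) ^ n := Set.pow_subset_pow_right (by exact_mod_cast h1) h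

lemma finite_subset_pow {S : Finset A} (hS : Subgroup.closure (S : Set A) = ⊤) (h1 : (1 : A) ∈ S)
    (hi : ∀ x ∈ S, x⁻¹ ∈ S) {T : Set A} (hT : T.Finite) : ∃ n : ℕ, T ⊆ (S : Set A) ^ n := by
  choose N hN using exists_pow hS h1 hi
  obtain ⟨M, hM⟩ := (hT.image N).bddAbove
  exact ⟨M, fun t ht => pow_mono h1 (hM ⟨t, ht, rfl⟩) (hN t)⟩

lemma lipschitz {B : Type} [Group B] (SA : Finset A) {SB : Finset B}
    (hS : Subgroup.closure (SB : Set B) = ⊤) (h1 : (1 : B) ∈ SB) (hi : ∀ x ∈ SB, x⁻¹ ∈ SB)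
    (F : A → B) (hF : ∀ a ∈ SA, {b | ∃ x, b = (F x)⁻¹ * F (x * a)}.Finite) :
    ∃ C : ℕ, ∀ (n : ℕ) (x y : A), x⁻¹ * y ∈ (SA : Set A) ^ n →
      (F x)⁻¹ * F y ∈ (SB : Set B) ^ (C * n) := by
  obtain ⟨C, hC⟩ := finite_subset_pow hS h1 hi (SA.finite_toSet.biUnion hF)
  refine ⟨C, fun n => ?_⟩
  induction n with
  | zero =>
    intro x y h
    rw [pow_zero, Set.mem_one, inv_mul_eq_one] at h
    subst h
    simp
  | succ n ih =>
    intro x y h
    rw [pow_succ] at h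
    obtain ⟨u, hu, a, ha, hua⟩ := h
    have hy : y = x * u * a := by
      have : u * a = x⁻¹ * y := hua
      rw [mul_assoc, this]; simp
    have h2 := ih x (x * u) (by simpa using hu)
    have h3 : (F (x * u))⁻¹ * F (x * u * a) ∈ (SB : Set B) ^ C :=
      hC (Set.mem_biUnion ha ⟨x * u, rfl⟩)
    rw [Nat.mul_succ, pow_add, hy]
    refine ⟨_, h2, _, h3, ?_⟩
    simp [mul_assoc]

lemma hom_bound (S : Finset A) (χ : A → ℤ) (hχ : ∀ a b, χ (a * b) = χ a + χ b) :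
    ∃ M : ℕ, ∀ (n : ℕ) (a : A), a ∈ (S : Set A) ^ n → |χ a| ≤ M * n := by
  refine ⟨S.sup fun a => (χ a).natAbs, fun n => ?_⟩
  have h0 : χ 1 = 0 := by
    have := hχ 1 1
    rw [mul_one] at this
    omega
  induction n with
  | zero =>
    intro a h
    rw [pow_zero, Set.mem_one] at h
    simp [h, h0]
  | succ n ih =>
    intro a h
    rw [pow_succ] at h
    obtain ⟨u, hu, b, hb, rfl⟩ := h
    have h1 := ih u hu
    have h2 : (χ b).natAbs ≤ S.sup fun a => (χ a).natAbs :=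
      Finset.le_sup (f := fun a => (χ a).natAbs) hb
    have h3 : |χ b| ≤ ((S.sup fun a => (χ a).natAbs : ℕ) : ℤ) := by
      rw [Int.abs_eq_natAbs]; exact_mod_cast h2
    simp only [hχ]
    have := abs_add_le (χ u) (χ b)
    push_cast
    linarith

end Words

/-- an equivariant Lipschitz extension of a homomorphism on an undistorted central subgroup -/
lemma exists_extension {Z E : Type} [Group Z] [Group E] (ι : Z →* E)
    (hc : ι.range ≤ Subgroup.center E) (SZ : Finset Z) {SE : Finset E}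
    (hS : Subgroup.closure (SE : Set E) = ⊤) (h1 : (1 : E) ∈ SE) (hi : ∀ x ∈ SE, x⁻¹ ∈ SE)
    {C : ℕ} (hC : ∀ (z : Z) (n : ℕ), ι z ∈ (SE : Set E) ^ n → z ∈ (SZ : Set Z) ^ (C * n + C))
    (χ : Z → ℤ) (hχ : ∀ a b, χ (a * b) = χ a + χ b) :
    ∃ (φ : E → ℤ) (K : ℕ), (∀ e z, φ (e * ι z) = φ e + χ z) ∧
      ∀ e, ∀ a ∈ SE, |φ (e * a) - φ e| ≤ K := by
  classical
  obtain ⟨M, hM⟩ := hom_bound SZ χ hχ
  set K : ℕ := M * C with hK
  let P : E → ℤ → Prop := fun e v => ∃ (z : Z) (n : ℕ), e⁻¹ * ι z ∈ (SE : Set E) ^ n ∧ v = χ z + K * n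
  have hex : ∀ e, ∃ v, P e v ∧ ∀ w, P e w → v ≤ w := by
    intro e
    obtain ⟨m, hm⟩ := exists_pow hS h1 hi e
    refine Int.exists_least_of_bdd ⟨-(K * m) - K, ?_⟩ ?_
    · rintro _ ⟨z, n, hz, rfl⟩
      have h2 : ι z ∈ (SE : Set E) ^ (m + n) := by
        rw [pow_add]
        exact ⟨e, hm, _, hz, by simp⟩
      have h3 := (abs_le.1 (hM _ z (hC z _ h2))).1
      rw [hK]
      push_cast at h3 ⊢
      nlinarith
    · obtain ⟨n, hn⟩ := exists_pow hS h1 hi (e⁻¹ * ι 1)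
      exact ⟨_, 1, n, hn, rfl⟩
  choose φ hφ hmin using hex
  have hcomm : ∀ z e, e * ι z = ι z * e := fun z e =>
    Subgroup.mem_center_iff.1 (hc ⟨z, rfl⟩) e
  have h0 : χ 1 = 0 := by
    have := hχ 1 1
    rw [mul_one] at this
    omega
  have hle : ∀ e w, φ (e * ι w) ≤ φ e + χ w := by
    intro e w
    obtain ⟨z, n, hz, hv⟩ := hφ e
    refine hmin _ _ ⟨w * z, n, ?_, by rw [hv, hχ]; ring⟩
    have : (e * ι w)⁻¹ * ι (w * z) = e⁻¹ * ι z := by
      rw [hcomm w e, map_mul]; group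
    rwa [this]
  have hstep : ∀ e, ∀ a ∈ SE, φ (e * a) ≤ φ e + K := by
    intro e a ha
    obtain ⟨z, n, hz, hv⟩ := hφ e
    refine hmin _ _ ⟨z, n + 1, ?_, by rw [hv]; push_cast; ring⟩
    rw [pow_succ']
    exact ⟨a⁻¹, hi a ha, _, hz, by simp [mul_assoc]⟩
  refine ⟨φ, K, fun e z => le_antisymm (hle e z) ?_, fun e a ha => abs_le.2 ⟨?_, ?_⟩⟩
  · have h2 := hle (e * ι z) z⁻¹
    have h3 := hχ z z⁻¹
    rw [mul_inv_cancel, h0] at h3
    rw [mul_assoc, ← map_mul, mul_inv_cancel, map_one, mul_one] at h2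
    linarith
  · have := hstep (e * a) a⁻¹ (hi a ha)
    rw [mul_inv_cancel_right] at this
    linarith
  · have := hstep e a ha
    linarith

/-- a finitely generated abelian group maps onto some `ℤ^d` with finite fibres -/
lemma exists_coords {Z : Type} [CommGroup Z] [Group.FG Z] :
    ∃ (d : ℕ) (χ : Z → (Fin d → ℤ)), (∀ a b, χ (a * b) = χ a + χ b) ∧ Function.Surjective χ ∧
      ∀ v, (χ ⁻¹' {v}).Finite := by
  classical
  obtain ⟨n, I, _, p, hp, k, ⟨e⟩⟩ := AddCommGroup.equiv_free_prod_directSum_zmod (Additive Z)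
  have : ∀ i, NeZero (p i ^ k i) := fun i => ⟨pow_ne_zero _ (hp i).ne_zero⟩
  have hfin : Finite (DirectSum I fun i => ZMod (p i ^ k i)) :=
    Finite.of_equiv _ (DFinsupp.equivFunOnFintype (β := fun i => ZMod (p i ^ k i))).symm
  refine ⟨n, fun z => (e (Additive.ofMul z)).1, fun a b => ?_, fun v => ?_, fun v => ?_⟩
  · simp only [ofMul_mul, map_add]; rfl
  · refine ⟨Additive.toMul (e.symm (Finsupp.equivFunOnFinite.symm v, 0)), ?_⟩
    simp
  · refine (Set.finite_range (fun t : DirectSum I fun i => ZMod (p i ^ k i) =>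
      Additive.toMul (e.symm (Finsupp.equivFunOnFinite.symm v, t)))).subset ?_
    intro z hz
    refine ⟨(e (Additive.ofMul z)).2, ?_⟩
    have hz' : ((e (Additive.ofMul z)).1 : Fin n → ℤ) = v := hz
    have : Finsupp.equivFunOnFinite.symm v = (e (Additive.ofMul z)).1 := by
      rw [← hz']; simp
    simp only [this, Prod.mk.eta, AddEquiv.symm_apply_apply, toMul_ofMul]

theorem qi_trivial {Z E G : Type} [Group Z] [Group E] [Group G] (ι : Z →* E) (π : E →* G)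
    (hι : Function.Injective ι) (hπ : Function.Surjective π) (hker : ι.range = π.ker)
    (hc : ι.range ≤ Subgroup.center E) (SZ : Finset Z) (SE : Finset E) (SP : Finset (Z × G))
    (hZ : Subgroup.closure (SZ : Set Z) = ⊤)
    (hE : Subgroup.closure (SE : Set E) = ⊤) (h1E : (1 : E) ∈ SE) (hiE : ∀ x ∈ SE, x⁻¹ ∈ SE)
    (hP : Subgroup.closure (SP : Set (Z × G)) = ⊤) (h1P : (1 : Z × G) ∈ SP)
    (hiP : ∀ x ∈ SP, x⁻¹ ∈ SP)
    {C : ℕ} (hC : ∀ (z : Z) (n : ℕ), ι z ∈ (SE : Set E) ^ n → z ∈ (SZ : Set Z) ^ (C * n + C)) :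
    ∃ (f : Z × G → E) (C : ℕ), (∀ p : Z × G, π (f p) = p.2) ∧
      (∀ (p q : Z × G) (n : ℕ), p⁻¹ * q ∈ (SP : Set (Z × G)) ^ n →
          (f p)⁻¹ * f q ∈ (SE : Set E) ^ (C * n + C)) ∧
      (∀ (p q : Z × G) (n : ℕ), (f p)⁻¹ * f q ∈ (SE : Set E) ^ n →
          p⁻¹ * q ∈ (SP : Set (Z × G)) ^ (C * n + C)) ∧
      (∀ e : E, ∃ p : Z × G, (f p)⁻¹ * e ∈ (SE : Set E) ^ C) := by
  classical
  have hcomm : ∀ z e, e * ι z = ι z * e := fun z e =>
    Subgroup.mem_center_iff.1 (hc ⟨z, rfl⟩) e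
  let _ : CommGroup Z := { (inferInstance : Group Z) with
    mul_comm := fun a b => hι (by rw [map_mul, map_mul, hcomm]) }
  have : Group.FG Z := ⟨⟨SZ, hZ⟩⟩
  obtain ⟨d, χ, hχ, hsurj, hfib⟩ := exists_coords (Z := Z)
  have hex := fun j : Fin d => exists_extension ι hc SZ hE h1E hiE hC (fun z => χ z j)
    (fun a b => by rw [hχ]; rfl)
  choose φ K hφ hK using hex
  let Φ : E → Fin d → ℤ := fun e j => φ j e
  have hΦ : ∀ e z, Φ (e * ι z) = Φ e + χ z := fun e z => funext fun j => hφ j e z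
  have hπι : ∀ z, π (ι z) = 1 := fun z => by
    have : ι z ∈ π.ker := hker ▸ ⟨z, rfl⟩
    exact this
  -- the section
  have hs : ∀ g : G, ∃ e : E, π e = g ∧ Φ e = 0 := by
    intro g
    obtain ⟨e, he⟩ := hπ g
    obtain ⟨z, hz⟩ := hsurj (-Φ e)
    exact ⟨e * ι z, by rw [map_mul, hπι, he, mul_one], by rw [hΦ, hz, add_neg_cancel]⟩
  choose s hs1 hs2 using hs
  have hζ : ∀ e : E, ∃ z : Z, e = s (π e) * ι z := by
    intro e
    have : (s (π e))⁻¹ * e ∈ ι.range := by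
      rw [hker, MonoidHom.mem_ker, map_mul, map_inv, hs1, inv_mul_cancel]
    obtain ⟨z, hz⟩ := this
    exact ⟨z, by rw [hz]; simp⟩
  choose ζ hζ using hζ
  have hχζ : ∀ e, χ (ζ e) = Φ e := by
    intro e
    conv_rhs => rw [hζ e, hΦ, hs2, zero_add]
  let f : Z × G → E := fun p => s p.2 * ι p.1
  let F : E → Z × G := fun e => (ζ e, π e)
  have hπf : ∀ p, π (f p) = p.2 := fun p => by
    simp only [f, map_mul, hπι, hs1, mul_one]
  have hfF : ∀ e, f (F e) = e := fun e => (hζ e).symm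
  have hFf : ∀ p, F (f p) = p := by
    intro p
    refine Prod.ext ?_ (hπf p)
    have := hζ (f p)
    rw [hπf] at this
    exact (hι (mul_left_cancel this)).symm
  have hbox : ∀ B : Fin d → ℕ, {z : Z | ∀ j, |χ z j| ≤ B j}.Finite := by
    intro B
    have h1 : (Set.pi Set.univ fun j : Fin d => Set.Icc (-(B j : ℤ)) (B j)).Finite :=
      Set.Finite.pi fun j => Set.finite_Icc _ _
    refine (h1.biUnion fun v _ => hfib v).subset fun z hz => ?_
    exact Set.mem_biUnion (x := χ z) (fun j _ => abs_le.1 (hz j)) rfl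
  have hχ1 : χ 1 = 0 := by
    have := hχ 1 1
    rw [mul_one] at this
    exact left_eq_add.1 this
  have hχinv : ∀ a b, χ (a⁻¹ * b) = χ b - χ a := by
    intro a b
    have := hχ a (a⁻¹ * b)
    rw [mul_inv_cancel_left] at this
    rw [this]; abel
  obtain ⟨C2, hC2⟩ := lipschitz SE hP h1P hiP F (by
    intro a ha
    refine ((hbox K).prod (Set.finite_singleton (π a))).subset ?_
    rintro _ ⟨x, rfl⟩
    refine ⟨fun j => ?_, by simp [F]⟩
    show |χ ((ζ x)⁻¹ * ζ (x * a)) j| ≤ K j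
    rw [hχinv, hχζ, hχζ]
    exact hK j x a ha)
  have hlipΦ : ∀ (n : ℕ) (a : E), a ∈ (SE : Set E) ^ n → ∀ e j, |Φ (e * a) j - Φ e j| ≤ K j * n := by
    intro n
    induction n with
    | zero =>
      intro a h e j
      rw [pow_zero, Set.mem_one] at h
      simp [h]
    | succ n ih =>
      intro a h e j
      rw [pow_succ] at h
      obtain ⟨u, hu, b, hb, rfl⟩ := h
      have h1 := ih u hu e j
      have h2 := hK j (e * u) b hb
      have h3 := abs_sub_le (Φ (e * (u * b)) j) (Φ (e * u) j) (Φ e j)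
      simp only [← mul_assoc, Φ] at h1 h2 h3 ⊢
      push_cast
      linarith
  obtain ⟨C1, hC1⟩ := lipschitz SP hE h1E hiE f (by
    intro r _
    obtain ⟨m, hm⟩ := exists_pow hE h1E hiE (s r.2)
    refine ((hbox fun j => K j * m).image (fun z => s r.2 * ι (z⁻¹ * r.1))).subset ?_
    rintro _ ⟨p, rfl⟩
    refine ⟨ζ (s p.2 * s r.2), fun j => ?_, ?_⟩
    · have := hlipΦ m _ hm (s p.2) j
      rw [hs2] at this
      rw [hχζ]
      simpa using this
    · have h1 := hζ (s p.2 * s r.2)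
      rw [map_mul, hs1, hs1] at h1
      have h2 : s (p.2 * r.2) = s p.2 * s r.2 * (ι (ζ (s p.2 * s r.2)))⁻¹ := by
        rw [eq_mul_inv_iff_mul_eq]; exact h1.symm
      simp only [f, Prod.fst_mul, Prod.snd_mul, h2, map_mul, map_inv]
      have h3 : s p.2 * s r.2 * (ι (ζ (s p.2 * s r.2)))⁻¹ * (ι p.1 * ι r.1) =
          (s p.2 * ι p.1) * (s r.2 * (ι (ζ (s p.2 * s r.2)))⁻¹ * ι r.1) := by
        have h4 := hcomm p.1 (s r.2 * (ι (ζ (s p.2 * s r.2)))⁻¹)
        calc _ = s p.2 * ((s r.2 * (ι (ζ (s p.2 * s r.2)))⁻¹) * ι p.1) * ι r.1 := by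
              simp only [mul_assoc]
          _ = _ := by rw [h4]; simp only [mul_assoc]
      rw [h3, inv_mul_cancel_left, mul_assoc])
  refine ⟨f, C1 + C2, hπf, fun p q n h => ?_, fun p q n h => ?_, fun e => ⟨F e, ?_⟩⟩
  · exact pow_mono h1E (by nlinarith) (hC1 n p q h)
  · have := hC2 n (f p) (f q) h
    rw [hFf, hFf] at this
    exact pow_mono h1P (by nlinarith) this
  · rw [hfF, inv_mul_cancel]
    exact pow_mono h1E (Nat.zero_le _) (by simp)

end Pool.Agent.H378Z.Central
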