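import Mathlib

set_option autoImplicit false

namespace Pool.Agent.H378Z.Digits

open Finset Pointwise

/-- `n` is a sum of distinct powers `b ^ j` with `j < R` (the empty sum allowed). -/
def D0 (b R n : ℕ) : Prop := ∃ J : Finset ℕ, J ⊆ range R ∧ n = ∑ j ∈ J, b ^ j

lemma D0_zero (b R : ℕ) : D0 b R 0 := ⟨∅, empty_subset _, by simp⟩

lemma D0_one (b : ℕ) : D0 b 1 1 := ⟨{0}, by simp, by simp⟩

lemma D0_mono {b R R' n : ℕ} (hR : R ≤ R') (h : D0 b R n) : D0 b R' n := by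
  obtain ⟨J, hJ, rfl⟩ := h
  exact ⟨J, hJ.trans (range_subset_range.2 hR), rfl⟩

lemma D0_add {b R R' n n' : ℕ} (h : D0 b R n) (h' : D0 b R' n') :
    D0 b (R + R') (n + b ^ R * n') := by
  obtain ⟨J, hJ, rfl⟩ := h
  obtain ⟨J', hJ', rfl⟩ := h'
  refine ⟨J ∪ J'.map (addLeftEmbedding R), ?_, ?_⟩
  · intro x hx
    rcases mem_union.1 hx with hx | hx
    · have := mem_range.1 (hJ hx)
      exact mem_range.2 (by omega)
    · obtain ⟨y, hy, rfl⟩ := mem_map.1 hx
      have := mem_range.1 (hJ' hy)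
      simp only [addLeftEmbedding_apply, mem_range]
      omega
  · rw [sum_union, sum_map, mul_sum]
    · simp [pow_add]
    · rw [disjoint_left]
      intro x hx hx'
      obtain ⟨y, _, rfl⟩ := mem_map.1 hx'
      have := mem_range.1 (hJ hx)
      simp only [addLeftEmbedding_apply] at this
      omega

lemma D0_lt {b R n : ℕ} (hb : 2 ≤ b) (h : D0 b R n) : n < b ^ R := by
  obtain ⟨J, hJ, rfl⟩ := h
  exact Nat.geomSum_lt hb fun k hk => mem_range.1 (hJ hk)

lemma D0_shift {b R n : ℕ} (s : ℕ) (h : D0 b R n) : D0 b (s + R) (b ^ s * n) := by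
  simpa using D0_add (D0_zero b s) h

/-- every `m < b ^ R` is a sum of `b - 1` numbers with digits `0, 1`. -/
lemma decomp {b : ℕ} (hb : 2 ≤ b) (R : ℕ) : ∀ m < b ^ R, ∃ n : ℕ → ℕ, (∀ i, D0 b R (n i)) ∧
    m = ∑ i ∈ range (b - 1), n i := by
  induction R with
  | zero =>
    intro m hm
    refine ⟨fun _ => 0, fun _ => D0_zero _ _, ?_⟩
    simp at hm
    simp [hm]
  | succ R ih =>
    intro m hm
    have hb0 : 0 < b := by omega
    have h1 : m / b < b ^ R := by
      rw [Nat.div_lt_iff_lt_mul hb0]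
      simpa [pow_succ] using hm
    obtain ⟨n, hn, hs⟩ := ih _ h1
    refine ⟨fun i => (if i < m % b then 1 else 0) + b ^ 1 * n i, fun i => ?_, ?_⟩
    · rw [add_comm R 1]
      refine D0_add ?_ (hn i)
      split_ifs
      · exact D0_one b
      · exact D0_zero b 1
    · rw [sum_add_distrib, ← mul_sum, ← hs, pow_one]
      have h2 : m % b < b := Nat.mod_lt _ hb0
      have h3 : ∑ i ∈ range (b - 1), (if i < m % b then 1 else 0) = m % b := by
        rw [← card_filter]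
        have : (range (b - 1)).filter (fun i => i < m % b) = range (m % b) := by
          ext i
          simp only [mem_filter, mem_range]
          omega
        rw [this, card_range]
      rw [h3]
      exact (Nat.mod_add_div m b).symm

lemma sum_mem_nsmul {G : Type} [AddCommGroup G] [DecidableEq G] (S : Finset G) (s : ℕ → G) :
    ∀ h : ℕ, (∀ i < h, s i ∈ S) → ∑ i ∈ range h, s i ∈ h • S := by
  intro h
  induction h with
  | zero => intro _; simp
  | succ h ih =>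
    intro hs
    rw [sum_range_succ, succ_nsmul]
    exact add_mem_add (ih fun i hi => hs i (by omega)) (hs h (by omega))

/-- Pluennecke growth step. -/
lemma growth {G : Type} [AddCommGroup G] [Fintype G] [DecidableEq G] {A S : Finset G} {h : ℕ}
    (hh : 1 ≤ h) (hA : A.Nonempty) (hS : h • S = univ) :
    Real.log (Fintype.card G) - Real.log #(A + S) ≤
      (1 - 1 / (h : ℝ)) * (Real.log (Fintype.card G) - Real.log #A) := by
  have h1 := pluennecke_ruzsa_inequality_nsmul_add hA S h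
  rw [hS, card_univ] at h1
  have h2 : (Fintype.card G : ℝ) ≤ ((#(A + S) : ℝ) / #A) ^ h * #A := by
    have := NNRat.cast_le (K := ℝ) |>.2 h1
    simpa using this
  have hSne : S.Nonempty := by
    rcases S.eq_empty_or_nonempty with rfl | h'
    · exfalso
      obtain ⟨h', rfl⟩ : ∃ h', h = h' + 1 := ⟨h - 1, by omega⟩
      rw [succ_nsmul, add_empty] at hS
      exact univ_nonempty.ne_empty hS.symm
    · exact h'
  have ha : (0 : ℝ) < #A := by exact_mod_cast hA.card_pos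
  have ha' : (0 : ℝ) < #(A + S) := by exact_mod_cast (hA.add hSne).card_pos
  have hG : (0 : ℝ) < Fintype.card G := by exact_mod_cast Fintype.card_pos
  have h3 := Real.log_le_log hG h2
  rw [Real.log_mul (by positivity) ha.ne', Real.log_pow, Real.log_div ha'.ne' ha.ne'] at h3
  have hh' : (0 : ℝ) < h := by exact_mod_cast hh
  have h4 : (1 - 1 / (h : ℝ)) * (Real.log (Fintype.card G) - Real.log #A) =
      ((h - 1) * (Real.log (Fintype.card G) - Real.log #A)) / h := by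
    field_simp
  rw [h4, le_div_iff₀ hh']
  nlinarith

lemma add_eq_univ_of_card {G : Type} [AddCommGroup G] [Fintype G] [DecidableEq G]
    {A B : Finset G} (h : Fintype.card G < #A + #B) (z : G) : z ∈ A + B := by
  have h1 : #(B.image fun x => z - x) = #B :=
    card_image_of_injective _ (sub_right_injective)
  have h2 := card_union_add_card_inter A (B.image fun x => z - x)
  have h3 : #(A ∪ B.image fun x => z - x) ≤ Fintype.card G := card_le_univ _
  have h4 : 0 < #(A ∩ B.image fun x => z - x) := by omega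
  obtain ⟨a, ha⟩ := card_pos.1 h4
  obtain ⟨ha, ha'⟩ := mem_inter.1 ha
  obtain ⟨x, hx, rfl⟩ := mem_image.1 ha'
  exact mem_add.2 ⟨_, ha, x, hx, by abel⟩

open Classical in
/-- residues mod `M` within `E` of `M γ n` for some `n` with digits `0, 1` below `b ^ R`. -/
noncomputable def S (b M : ℕ) [NeZero M] (γ : ℝ) (R : ℕ) (E : ℝ) : Finset (ZMod M) :=
  univ.filter fun z => ∃ n : ℕ, D0 b R n ∧ ∃ u : ℤ, (u : ZMod M) = z ∧ |(u : ℝ) - M * γ * n| ≤ E

lemma mem_S {b M : ℕ} [NeZero M] {γ : ℝ} {R : ℕ} {E : ℝ} {z : ZMod M} :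
    z ∈ S b M γ R E ↔
      ∃ n : ℕ, D0 b R n ∧ ∃ u : ℤ, (u : ZMod M) = z ∧ |(u : ℝ) - M * γ * n| ≤ E := by
  simp [S]

lemma S_add {b M : ℕ} [NeZero M] (γ : ℝ) (R R' : ℕ) (E E' : ℝ) :
    S b M γ R E + S b M (γ * (b : ℝ) ^ R) R' E' ⊆ S b M γ (R + R') (E + E') := by
  intro z hz
  obtain ⟨x, hx, y, hy, rfl⟩ := mem_add.1 hz
  obtain ⟨n, hn, u, rfl, hu⟩ := mem_S.1 hx
  obtain ⟨n', hn', u', rfl, hu'⟩ := mem_S.1 hy
  refine mem_S.2 ⟨_, D0_add hn hn', u + u', by push_cast; rfl, ?_⟩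
  have : ((u + u' : ℤ) : ℝ) - M * γ * ((n + b ^ R * n' : ℕ) : ℝ) =
      ((u : ℝ) - M * γ * n) + ((u' : ℝ) - M * (γ * (b : ℝ) ^ R) * n') := by
    push_cast; ring
  rw [this]
  exact (abs_add_le _ _).trans (add_le_add hu hu')

lemma S_cover {b M : ℕ} [NeZero M] (hb : 2 ≤ b) {γ r : ℝ} {R : ℕ} (hr : 0 ≤ r)
    (H1 : ∀ n : ℕ, ∃ u : ℤ, |(u : ℝ) - M * γ * n| ≤ r)
    (H2 : ∀ u : ℤ, ∃ m < b ^ R, ∃ v : ℤ, |(u : ℝ) + M * v - M * γ * m| ≤ r) :
    (b - 1) • S b M γ R (((b - 1 : ℕ) : ℝ) * r) = univ := by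
  rw [eq_univ_iff_forall]
  intro z
  obtain ⟨u, rfl⟩ := ZMod.intCast_surjective z
  obtain ⟨m, hm, v, hv⟩ := H2 u
  obtain ⟨n, hn, hs⟩ := decomp hb R m hm
  choose U hU using H1
  obtain ⟨h, hh⟩ : ∃ h, b - 1 = h + 1 := ⟨b - 2, by omega⟩
  rw [hh] at hs ⊢
  set w : ℤ := u + M * v - ∑ i ∈ range h, U (n i) with hw
  have key : (u : ZMod M) =
      ∑ i ∈ range (h + 1), (((if i < h then U (n i) else w : ℤ)) : ZMod M) := by
    rw [sum_range_succ, if_neg (lt_irrefl h),
      sum_congr rfl (g := fun i => ((U (n i) : ℤ) : ZMod M))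
        (fun i hi => by rw [if_pos (mem_range.1 hi)]), hw]
    push_cast
    simp
  rw [key]
  refine sum_mem_nsmul _ _ _ fun i hi => mem_S.2 ⟨n i, hn i, _, rfl, ?_⟩
  by_cases hi' : i < h
  · rw [if_pos hi']
    refine (hU _).trans ?_
    push_cast
    have : (0 : ℝ) ≤ h := by positivity
    nlinarith
  · rw [if_neg hi']
    obtain rfl : i = h := by omega
    have e : (w : ℝ) - M * γ * n i = ((u : ℝ) + M * v - M * γ * m) -
        ∑ j ∈ range i, ((U (n j) : ℝ) - M * γ * n j) := by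
      rw [hw, hs, sum_range_succ, sum_sub_distrib, ← mul_sum]
      push_cast
      ring
    rw [e]
    refine (abs_sub _ _).trans ?_
    have h1 : |∑ j ∈ range i, ((U (n j) : ℝ) - M * γ * n j)| ≤ i * r := by
      refine (abs_sum_le_sum_abs _ _).trans ?_
      refine (sum_le_sum fun j _ => hU (n j)).trans ?_
      simp
    push_cast
    linarith

lemma S_iter {b M : ℕ} [NeZero M] (hb : 2 ≤ b) {γ E : ℝ} {R : ℕ} (hE : 0 ≤ E) (k : ℕ)
    (H : ∀ w < k, (b - 1) • S b M (γ * (b : ℝ) ^ (w * R)) R E = univ) :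
    Real.log M - Real.log #(S b M γ (k * R) (k * E)) ≤
      (1 - 1 / ((b - 1 : ℕ) : ℝ)) ^ k * Real.log M := by
  induction k with
  | zero =>
    have : (1 : ℝ) ≤ #(S b M γ (0 * R) (((0 : ℕ) : ℝ) * E)) := by
      have : (S b M γ (0 * R) (((0 : ℕ) : ℝ) * E)).Nonempty :=
        ⟨0, mem_S.2 ⟨0, D0_zero _ _, 0, by simp, by simp⟩⟩
      exact_mod_cast this.card_pos
    have := Real.log_nonneg this
    simp only [pow_zero, one_mul]
    linarith
  | succ k ih =>
    have ih := ih fun w hw => H w (by omega)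
    have hne : (S b M γ (k * R) (k * E)).Nonempty :=
      ⟨0, mem_S.2 ⟨0, D0_zero _ _, 0, by simp, by simp; positivity⟩⟩
    have hg := growth (h := b - 1) (by omega) hne (H k (by omega))
    rw [ZMod.card] at hg
    have hsub := S_add (b := b) (M := M) γ (k * R) R (k * E) E
    have hne' : (S b M γ (k * R) (k * E) + S b M (γ * (b : ℝ) ^ (k * R)) R E).Nonempty :=
      hne.add ⟨0, mem_S.2 ⟨0, D0_zero _ _, 0, by simp, by simpa using hE⟩⟩
    have h1 : Real.log #(S b M γ (k * R) (k * E) + S b M (γ * (b : ℝ) ^ (k * R)) R E) ≤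
        Real.log #(S b M γ ((k + 1) * R) (((k + 1 : ℕ) : ℝ) * E)) := by
      refine Real.log_le_log (by exact_mod_cast hne'.card_pos) ?_
      have e1 : (k + 1) * R = k * R + R := by ring
      have e2 : ((k + 1 : ℕ) : ℝ) * E = k * E + E := by push_cast; ring
      rw [e1, e2]
      exact_mod_cast card_le_card hsub
    have hρ : (0 : ℝ) ≤ 1 - 1 / ((b - 1 : ℕ) : ℝ) := by
      have : (1 : ℝ) ≤ ((b - 1 : ℕ) : ℝ) := by exact_mod_cast (by omega : 1 ≤ b - 1)
      rw [sub_nonneg, div_le_one (by linarith)]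
      exact this
    have h2 := mul_le_mul_of_nonneg_left ih hρ
    rw [pow_succ]
    nlinarith

/-- core lemma -/
lemma core {b M : ℕ} [NeZero M] (hb : 2 ≤ b) {γ r : ℝ} {R k : ℕ} (hr : 0 ≤ r)
    (hk : (1 - 1 / ((b - 1 : ℕ) : ℝ)) ^ k * Real.log M < Real.log 2)
    (H1 : ∀ n : ℕ, ∃ u : ℤ, |(u : ℝ) - M * γ * n| ≤ r)
    (H2 : ∀ w < 2 * k, ∀ u : ℤ, ∃ m < b ^ R, ∃ v : ℤ,
      |(u : ℝ) + M * v - M * (γ * (b : ℝ) ^ (w * R)) * m| ≤ r) :
    ∃ n : ℕ, 0 < n ∧ D0 b (2 * k * R + 1) n ∧ ∃ v : ℤ,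
      |M * γ * n - M * v| ≤ (2 * k * ((b - 1 : ℕ) : ℝ) + 1) * r := by
  have H1' : ∀ s n : ℕ, ∃ u : ℤ, |(u : ℝ) - M * (γ * (b : ℝ) ^ s) * n| ≤ r := by
    intro s n
    obtain ⟨u, hu⟩ := H1 (b ^ s * n)
    refine ⟨u, ?_⟩
    have : (M : ℝ) * (γ * (b : ℝ) ^ s) * n = M * γ * ((b ^ s * n : ℕ) : ℝ) := by
      push_cast; ring
    rwa [this]
  set E : ℝ := ((b - 1 : ℕ) : ℝ) * r with hEdef
  have hE : 0 ≤ E := by positivity
  have hM : (0 : ℝ) < M := by exact_mod_cast Nat.pos_of_ne_zero (NeZero.ne M)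
  have big : ∀ δ : ℝ, (∀ w < k, (b - 1) • S b M (δ * (b : ℝ) ^ (w * R)) R E = univ) →
      M < 2 * #(S b M δ (k * R) (k * E)) := by
    intro δ H
    have h1 := S_iter hb hE k H
    have hne : (S b M δ (k * R) (k * E)).Nonempty :=
      ⟨0, mem_S.2 ⟨0, D0_zero _ _, 0, by simp, by simp; positivity⟩⟩
    have hpos : (0 : ℝ) < #(S b M δ (k * R) (k * E)) := by exact_mod_cast hne.card_pos
    have h2 : Real.log M < Real.log (2 * #(S b M δ (k * R) (k * E))) := by
      rw [Real.log_mul (by norm_num) hpos.ne']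
      linarith
    have h3 := (Real.log_lt_log_iff hM (by positivity)).1 h2
    exact_mod_cast h3
  have hA := big γ fun w hw => S_cover hb hr (H1' _) (H2 w (by omega))
  have hB := big (γ * (b : ℝ) ^ (k * R)) fun w hw => by
    have e : γ * (b : ℝ) ^ (k * R) * (b : ℝ) ^ (w * R) = γ * (b : ℝ) ^ ((k + w) * R) := by
      rw [mul_assoc, ← pow_add]; congr 2; ring
    rw [e]
    exact S_cover hb hr (H1' _) (H2 (k + w) (by omega))
  obtain ⟨u₀, hu₀⟩ := H1 (b ^ (k * R + k * R))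
  have hz := S_add γ (k * R) (k * R) (k * E) (k * E)
    (add_eq_univ_of_card (A := S b M γ (k * R) (k * E))
      (B := S b M (γ * (b : ℝ) ^ (k * R)) (k * R) (k * E)) (by rw [ZMod.card]; omega)
      (-(u₀ : ZMod M)))
  obtain ⟨n, hn, u, hu, hu'⟩ := mem_S.1 hz
  have hdvd : (M : ℤ) ∣ u + u₀ := by
    rw [← ZMod.intCast_zmod_eq_zero_iff_dvd]
    push_cast
    rw [hu]; ring
  obtain ⟨v, hv⟩ := hdvd
  refine ⟨n + b ^ (k * R + k * R) * 1, by positivity, ?_, v, ?_⟩
  · have e : 2 * k * R + 1 = k * R + k * R + 1 := by ring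
    rw [e]
    exact D0_add hn (D0_one b)
  · have hv' : (M : ℝ) * v = u + u₀ := by exact_mod_cast hv.symm
    have e : (M : ℝ) * γ * ((n + b ^ (k * R + k * R) * 1 : ℕ) : ℝ) - M * v =
        -(((u : ℝ) - M * γ * n) + ((u₀ : ℝ) - M * γ * ((b ^ (k * R + k * R) : ℕ) : ℝ))) := by
      rw [hv']; push_cast; ring
    rw [e, abs_neg]
    refine (abs_add_le _ _).trans ?_
    have e2 : (2 * k * ((b - 1 : ℕ) : ℝ) + 1) * r = (k * E + k * E) + r := by
      rw [hEdef]; ring
    rw [e2]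
    exact add_le_add hu' hu₀

end Pool.Agent.H378Z.Digits
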