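import Pool.Agent.H378Z.Digits

set_option autoImplicit false

namespace Pool.Agent.H378Z.Digits

open Finset Pointwise

/-- multiples with digits `0, 1` of a modulus coprime to the base -/
lemma rat_coprime {b q L k : ℕ} (hb : 2 ≤ b) (hq : 0 < q) (hqL : q ≤ b ^ L) (hc : Nat.Coprime b q)
    (hk : (1 - 1 / ((b - 1 : ℕ) : ℝ)) ^ k * Real.log q < Real.log 2) :
    ∃ n : ℕ, 0 < n ∧ D0 b (2 * k * L + 1) n ∧ q ∣ n := by
  haveI : NeZero q := ⟨hq.ne'⟩
  have hq' : (q : ℝ) ≠ 0 := by exact_mod_cast hq.ne'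
  obtain ⟨n, hn, hD, v, hv⟩ := core (M := q) (γ := 1 / (q : ℝ)) (r := 0) (R := L) (k := k) hb le_rfl
    hk (fun n => ⟨n, by
      have : (q : ℝ) * (1 / (q : ℝ)) * n = n := by field_simp
      rw [this]; simp⟩) (fun w _ u => by
      have hcu : Nat.Coprime (b ^ (w * L)) q := Nat.Coprime.pow_left _ hc
      set x : ZMod q := (u : ZMod q) * ((b ^ (w * L) : ℕ) : ZMod q)⁻¹ with hx
      refine ⟨x.val, (ZMod.val_lt x).trans_le hqL, ?_⟩
      have h1 : (q : ℤ) ∣ ((b ^ (w * L) * x.val : ℕ) : ℤ) - u := by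
        rw [← ZMod.intCast_zmod_eq_zero_iff_dvd, Int.cast_sub, Int.cast_natCast, Nat.cast_mul,
          ZMod.natCast_zmod_val, hx, mul_left_comm, ZMod.coe_mul_inv_eq_one _ hcu]
        simp
      obtain ⟨v, hv⟩ := h1
      refine ⟨v, ?_⟩
      have hv' : (b : ℝ) ^ (w * L) * x.val - u = q * v := by exact_mod_cast hv
      have : (q : ℝ) * (1 / (q : ℝ) * (b : ℝ) ^ (w * L)) * x.val = (b : ℝ) ^ (w * L) * x.val := by
        field_simp
      rw [this, ← hv']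
      simp)
  refine ⟨n, hn, hD, ?_⟩
  have : (q : ℝ) * (1 / (q : ℝ)) * n = n := by field_simp
  rw [this, mul_zero, abs_nonpos_iff, sub_eq_zero] at hv
  have hv' : (n : ℤ) = q * v := by exact_mod_cast hv
  exact Int.natCast_dvd_natCast.1 ⟨v, hv'⟩

lemma rat_general {b T l : ℕ} (hb : 2 ≤ b)
    (H : ∀ q, 0 < q → q ≤ T → Nat.Coprime b q → ∃ n : ℕ, 0 < n ∧ D0 b l n ∧ q ∣ n) (s : ℕ) :
    ∀ q, 0 < q → q ≤ T → q ≤ 2 ^ s → ∃ n : ℕ, 0 < n ∧ D0 b (s + l) n ∧ q ∣ n := by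
  induction s with
  | zero =>
    intro q hq hT h2
    obtain rfl : q = 1 := by simp at h2; omega
    simpa using H 1 hq hT (by simp)
  | succ s ih =>
    intro q hq hT h2
    by_cases hc : Nat.Coprime b q
    · obtain ⟨n, hn, hD, hd⟩ := H q hq hT hc
      exact ⟨n, hn, D0_mono (by omega) hD, hd⟩
    · obtain ⟨q', hq'⟩ := Nat.gcd_dvd_right b q
      have hg0 : 0 < Nat.gcd b q := Nat.gcd_pos_of_pos_right _ hq
      have hg : 2 ≤ Nat.gcd b q := by
        have : Nat.gcd b q ≠ 1 := hc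
        omega
      have hq'0 : 0 < q' := by
        rcases Nat.eq_zero_or_pos q' with h | h
        · rw [h] at hq'; omega
        · exact h
      have h3 : 2 * q' ≤ q := by
        calc 2 * q' ≤ Nat.gcd b q * q' := Nat.mul_le_mul_right _ hg
          _ = q := hq'.symm
      obtain ⟨n, hn, hD, hd⟩ := ih q' hq'0 (by omega) (by rw [pow_succ] at h2; omega)
      refine ⟨b ^ 1 * n, by positivity, ?_, ?_⟩
      · have := D0_shift 1 hD
        rwa [show 1 + (s + l) = s + 1 + l by ring] at this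
      · rw [pow_one, hq']
        exact Nat.mul_dvd_mul (Nat.gcd_dvd_left _ _) hd

lemma steps {β : ℝ} {Y : ℕ} (hY : 0 < Y) (hβ : 1 / (Y : ℝ) < β) (y : ℝ) :
    ∃ m : ℕ, m ≤ Y ∧ ∃ v : ℤ, |y + v - m * β| ≤ β := by
  have hY' : (0 : ℝ) < Y := by exact_mod_cast hY
  have hβ0 : 0 < β := lt_trans (by positivity) hβ
  have ht0 := Int.fract_nonneg y
  have ht1 := Int.fract_lt_one y
  have hq0 : 0 ≤ Int.fract y / β := by positivity
  refine ⟨⌊Int.fract y / β⌋₊, ?_, -⌊y⌋, ?_⟩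
  · apply Nat.floor_le_of_le
    rw [div_le_iff₀ hβ0]
    rw [div_lt_iff₀ hY'] at hβ
    nlinarith
  · have h1 := Nat.floor_le hq0
    have h2 := Nat.lt_floor_add_one (Int.fract y / β)
    rw [le_div_iff₀ hβ0] at h1
    rw [div_lt_iff₀ hβ0] at h2
    have e : y + ((-⌊y⌋ : ℤ) : ℝ) = Int.fract y := by
      push_cast; rw [Int.fract]; ring
    rw [e, abs_le]
    constructor <;> nlinarith

lemma dichotomy (θ : ℝ) {T Y : ℕ} (hT : 0 < T) (hY : 0 < Y) :
    (∃ q : ℕ, 0 < q ∧ q ≤ T ∧ ∃ v : ℤ, |q * θ - v| ≤ 1 / (Y : ℝ)) ∨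
      ∀ y : ℝ, ∃ m : ℕ, m ≤ T * Y ∧ ∃ v : ℤ, |y + v - θ * m| ≤ 1 / (T : ℝ) := by
  obtain ⟨q, hq0, hqT, hq⟩ := Real.exists_nat_abs_mul_sub_round_le θ hT
  by_cases h : |q * θ - round (q * θ)| ≤ 1 / (Y : ℝ)
  · exact Or.inl ⟨q, hq0, hqT, _, h⟩
  right
  intro y
  push Not at h
  have hT' : (0 : ℝ) < T := by exact_mod_cast hT
  have hq' : |q * θ - round (q * θ)| ≤ 1 / (T : ℝ) :=
    hq.trans (one_div_le_one_div_of_le hT' (by linarith))
  set a : ℤ := round (q * θ)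
  rcases le_total 0 (q * θ - a) with hs | hs
  · rw [abs_of_nonneg hs] at h hq'
    obtain ⟨m, hm, v, hv⟩ := steps hY h y
    refine ⟨q * m, Nat.mul_le_mul hqT hm, v + m * a, ?_⟩
    have e : y + ((v + m * a : ℤ) : ℝ) - θ * ((q * m : ℕ) : ℝ) = y + v - m * (q * θ - a) := by
      push_cast; ring
    rw [e]
    exact hv.trans hq'
  · rw [abs_of_nonpos hs] at h hq'
    obtain ⟨m, hm, v, hv⟩ := steps hY h (-y)
    refine ⟨q * m, Nat.mul_le_mul hqT hm, -v + m * a, ?_⟩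
    have e : y + ((-v + m * a : ℤ) : ℝ) - θ * ((q * m : ℕ) : ℝ) =
        -(-y + v - m * (-(q * θ - a))) := by
      push_cast; ring
    rw [e, abs_neg]
    exact hv.trans hq'

/-- finite form of the main estimate -/
lemma finite_form {b L k : ℕ} (hb : 2 ≤ b) (hk1 : 1 ≤ k)
    (hk : (1 - 1 / ((b - 1 : ℕ) : ℝ)) ^ k * Real.log ((b ^ L : ℕ) : ℝ) < Real.log 2) (γ : ℝ) :
    ∃ n : ℕ, 0 < n ∧ D0 b (2 * k * ((2 * k + b + 2) * L + 2) + 1) n ∧ ∃ v : ℤ,
      |γ * n - v| ≤ (2 * k * ((b - 1 : ℕ) : ℝ) + 1) / (b : ℝ) ^ L := by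
  have hb0 : 0 < b := by omega
  have hbR : (0 : ℝ) < b := by exact_mod_cast hb0
  set T : ℕ := b ^ L with hTdef
  have hT : 0 < T := by positivity
  have hTR : (T : ℝ) = (b : ℝ) ^ L := by rw [hTdef]; push_cast; rfl
  have hT' : (0 : ℝ) < T := by exact_mod_cast hT
  set l : ℕ := b * L + (2 * k * L + 1) with hl
  set R : ℕ := (2 * k + b + 2) * L + 2 with hR
  set Y : ℕ := b ^ l * T with hYdef
  have hY : 0 < Y := by positivity
  have hρ : (0 : ℝ) ≤ 1 - 1 / ((b - 1 : ℕ) : ℝ) := by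
    have : (1 : ℝ) ≤ ((b - 1 : ℕ) : ℝ) := by exact_mod_cast (by omega : 1 ≤ b - 1)
    rw [sub_nonneg, div_le_one (by linarith)]
    exact this
  have hrat : ∀ q, 0 < q → q ≤ T → ∃ n : ℕ, 0 < n ∧ D0 b l n ∧ q ∣ n := by
    intro q hq hqT
    refine rat_general (T := T) hb (fun q hq hqT hc => rat_coprime hb hq hqT hc ?_) (b * L) q hq hqT ?_
    · refine lt_of_le_of_lt ?_ hk
      refine mul_le_mul_of_nonneg_left ?_ (pow_nonneg hρ _)
      exact Real.log_le_log (by exact_mod_cast hq) (by exact_mod_cast hqT)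
    · refine hqT.trans ?_
      rw [hTdef, pow_mul]
      exact Nat.pow_le_pow_left (Nat.lt_two_pow_self).le _
  have hone : (1 : ℝ) ≤ 2 * k * ((b - 1 : ℕ) : ℝ) + 1 := by
    have : (0 : ℝ) ≤ 2 * k * ((b - 1 : ℕ) : ℝ) := by positivity
    linarith
  by_cases hcase : ∃ w < 2 * k, ∃ q : ℕ, 0 < q ∧ q ≤ T ∧ ∃ v : ℤ,
      |q * (γ * (b : ℝ) ^ (w * R)) - v| ≤ 1 / (Y : ℝ)
  · obtain ⟨w, hw, q, hq0, hqT, v, hv⟩ := hcase
    obtain ⟨n, hn, hD, c, rfl⟩ := hrat q hq0 hqT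
    refine ⟨b ^ (w * R) * (q * c), by positivity, D0_mono ?_ (D0_shift _ hD), c * v, ?_⟩
    · have h1 : l ≤ R := by rw [hl, hR]; nlinarith
      have h2 : (w + 1) * R ≤ 2 * k * R := Nat.mul_le_mul_right _ hw
      nlinarith
    · have e : γ * ((b ^ (w * R) * (q * c) : ℕ) : ℝ) - ((c * v : ℤ) : ℝ) =
          c * (q * (γ * (b : ℝ) ^ (w * R)) - v) := by
        push_cast; ring
      have hc : c ≤ b ^ l := by
        have := D0_lt hb hD
        nlinarith
      have hc' : (c : ℝ) ≤ (b : ℝ) ^ l := by exact_mod_cast hc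
      rw [e, abs_mul, Nat.abs_cast, ← hTR]
      calc (c : ℝ) * |q * (γ * (b : ℝ) ^ (w * R)) - v| ≤ (b : ℝ) ^ l * (1 / (Y : ℝ)) := by gcongr
        _ = 1 / (T : ℝ) := by
          rw [hYdef]; push_cast; field_simp
        _ ≤ _ := by gcongr
  · haveI : NeZero T := ⟨hT.ne'⟩
    obtain ⟨n, hn, hD, v, hv⟩ := core (M := T) (γ := γ) (r := 1) (R := R) (k := k) hb zero_le_one hk
      (fun n => ⟨round ((T : ℝ) * γ * n), by
        rw [abs_sub_comm]
        exact (abs_sub_round _).trans (by norm_num)⟩) (fun w hw u => by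
        rcases dichotomy (γ * (b : ℝ) ^ (w * R)) hT hY with h | h
        · exact absurd ⟨w, hw, h⟩ hcase
        · obtain ⟨m, hm, v, hv⟩ := h (u / T)
          refine ⟨m, lt_of_le_of_lt hm ?_, v, ?_⟩
          · rw [hYdef, hTdef, ← pow_add, ← pow_add]
            refine Nat.pow_lt_pow_right (by omega) ?_
            rw [hl, hR]; nlinarith
          · have e : (u : ℝ) + T * v - T * (γ * (b : ℝ) ^ (w * R)) * m =
                T * (u / T + v - γ * (b : ℝ) ^ (w * R) * m) := by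
              field_simp
            rw [e, abs_mul, abs_of_pos hT']
            calc (T : ℝ) * |u / T + v - γ * (b : ℝ) ^ (w * R) * m| ≤ T * (1 / (T : ℝ)) := by gcongr
              _ = 1 := by field_simp)
    refine ⟨n, hn, hD, v, ?_⟩
    have e : (T : ℝ) * γ * n - T * v = T * (γ * n - v) := by ring
    rw [e, abs_mul, abs_of_pos hT', mul_one] at hv
    rw [← hTR, le_div_iff₀ hT']
    linarith

end Pool.Agent.H378Z.Digits
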