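import Pool.Agent.H378Z.Digits2

set_option autoImplicit false

namespace Pool.Agent.H378Z.Digits

open Finset

lemma large {b : ℕ} (hb : 2 ≤ b) {N : ℕ} (hN : 16 ≤ N) (γ : ℝ) :
    ∃ n : ℕ, 0 < n ∧ n ≤ N ∧ (∃ R, D0 b R n) ∧ ∃ v : ℤ, |γ * n - v| ≤ (4620 * (b : ℝ) ^ 5) *
      Real.exp (-(1 / (110 * (b : ℝ) ^ 2)) * Real.log N / (Real.log (Real.log N)) ^ 2) := by
  have hb2 : (2 : ℝ) ≤ b := by exact_mod_cast hb
  have hN' : (16 : ℝ) ≤ N := by exact_mod_cast hN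
  have hl2 := Real.log_two_gt_d9
  have hlogN : Real.exp 1 ≤ Real.log N := by
    have h1 : Real.log 16 ≤ Real.log N := Real.log_le_log (by norm_num) hN'
    have h2 : Real.log 16 = 4 * Real.log 2 := by
      rw [show (16 : ℝ) = 2 ^ 4 by norm_num, Real.log_pow]; norm_num
    have h3 := Real.exp_one_lt_d9
    linarith
  have hlogN0 : 0 < Real.log N := lt_of_lt_of_le (Real.exp_pos 1) hlogN
  set Λ : ℝ := Real.log (Real.log N) with hΛ
  have hΛ1 : 1 ≤ Λ := by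
    rw [hΛ, Real.le_log_iff_exp_le hlogN0]; exact hlogN
  have hexpΛ : Real.exp Λ = Real.log N := Real.exp_log hlogN0
  have hlogb : Real.log 2 ≤ Real.log b := Real.log_le_log (by norm_num) hb2
  have hlogb0 : 0 < Real.log b := by linarith
  set k : ℕ := ⌈(b : ℝ) * (Λ + 1)⌉₊ with hk
  have hk1 : (b : ℝ) * (Λ + 1) ≤ k := Nat.le_ceil _
  have hk2 : (k : ℝ) ≤ 3 * b * Λ := by
    have := (Nat.ceil_lt_add_one (a := (b : ℝ) * (Λ + 1)) (by positivity)).le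
    nlinarith
  have hk0 : 1 ≤ k := by
    have : (1 : ℝ) ≤ k := by nlinarith
    exact_mod_cast this
  set Z : ℝ := Real.log N / Λ ^ 2 with hZ
  have hZ0 : 0 < Z := by positivity
  set X : ℝ := Z / (55 * (b : ℝ) ^ 2 * Real.log b) with hX
  have hX0 : 0 < X := by positivity
  set L : ℕ := ⌊X⌋₊ with hL
  have hL1 : (L : ℝ) ≤ X := Nat.floor_le hX0.le
  have hL2 : X < L + 1 := Nat.lt_floor_add_one X
  have hXb : X * Real.log b * (55 * (b : ℝ) ^ 2 * Λ ^ 2) = Real.log N := by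
    rw [hX, hZ]; field_simp
  have hh : ((b - 1 : ℕ) : ℝ) = b - 1 := by
    rw [Nat.cast_sub (by omega)]; simp
  -- the bound
  have hbound : (2 * k * ((b - 1 : ℕ) : ℝ) + 1) / (b : ℝ) ^ L ≤ (4620 * (b : ℝ) ^ 5) *
      Real.exp (-(1 / (110 * (b : ℝ) ^ 2)) * Real.log N / Λ ^ 2) := by
    set c : ℝ := 1 / (110 * (b : ℝ) ^ 2) with hc
    have hc0 : 0 < c := by positivity
    have e1 : -c * Real.log N / Λ ^ 2 = -(c * Z) := by rw [hZ]; ring
    rw [e1]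
    have h1 : 2 * k * ((b - 1 : ℕ) : ℝ) + 1 ≤ 7 * (b : ℝ) ^ 2 * Λ := by
      rw [hh]
      have : (0 : ℝ) ≤ k := by positivity
      nlinarith
    have h2 : Real.exp (2 * (c * Z)) ≤ (b : ℝ) ^ L * b := by
      have e2 : 2 * (c * Z) = X * Real.log b := by
        rw [hX, hc]; field_simp; norm_num
      have e3 : (b : ℝ) ^ L * b = Real.exp ((L + 1) * Real.log b) := by
        rw [← pow_succ, ← Real.exp_log (x := (b : ℝ) ^ (L + 1)) (by positivity), Real.log_pow]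
        push_cast; rfl
      rw [e2, e3]
      exact Real.exp_le_exp.2 (by nlinarith)
    have h3 : Λ ≤ 6 * Z := by
      have h4 : Λ ^ 3 / 6 ≤ Real.exp Λ := by
        have := Real.pow_div_factorial_le_exp Λ (by linarith) 3
        simpa [Nat.factorial] using this
      rw [hZ, ← hexpΛ, mul_div_assoc', le_div_iff₀ (by positivity)]
      nlinarith
    have h5 : c * Z ≤ Real.exp (c * Z) := by
      have := Real.add_one_le_exp (c * Z); linarith
    have h6 : Z ≤ 110 * (b : ℝ) ^ 2 * Real.exp (c * Z) := by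
      have : Z = 110 * (b : ℝ) ^ 2 * (c * Z) := by rw [hc]; field_simp
      calc Z = 110 * (b : ℝ) ^ 2 * (c * Z) := this
        _ ≤ _ := by gcongr
    have hE := Real.exp_pos (c * Z)
    rw [div_le_iff₀ (by positivity), Real.exp_neg]
    have h7 : Real.exp (2 * (c * Z)) = Real.exp (c * Z) * Real.exp (c * Z) := by
      rw [← Real.exp_add]; ring_nf
    calc 2 * k * ((b - 1 : ℕ) : ℝ) + 1 ≤ 7 * (b : ℝ) ^ 2 * Λ := h1
      _ ≤ 7 * (b : ℝ) ^ 2 * (6 * (110 * (b : ℝ) ^ 2 * Real.exp (c * Z))) := by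
        gcongr; linarith
      _ = 4620 * (b : ℝ) ^ 4 * (Real.exp (c * Z))⁻¹ * Real.exp (2 * (c * Z)) := by
        rw [h7]; field_simp; norm_num
      _ ≤ 4620 * (b : ℝ) ^ 4 * (Real.exp (c * Z))⁻¹ * ((b : ℝ) ^ L * b) := by gcongr
      _ = _ := by ring
  rcases Nat.eq_zero_or_pos L with hL0 | hL0
  · refine ⟨1, one_pos, by omega, ⟨1, D0_one b⟩, round γ, le_trans ?_ hbound⟩
    rw [hL0, pow_zero, div_one, Nat.cast_one, mul_one]
    have : (0 : ℝ) ≤ 2 * k * ((b - 1 : ℕ) : ℝ) := by positivity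
    have := abs_sub_round γ
    linarith
  have hL0' : (1 : ℝ) ≤ L := by exact_mod_cast hL0
  have hK : ((2 * k * ((2 * k + b + 2) * L + 2) + 1 : ℕ) : ℝ) ≤ 55 * (b : ℝ) ^ 2 * Λ ^ 2 * L := by
    push_cast
    have hk0' : (0 : ℝ) ≤ k := by positivity
    have h1 : (2 * (k : ℝ) + b + 2) * L + 2 ≤ 9 * b * Λ * L := by
      have : 2 * (k : ℝ) + b + 4 ≤ 9 * b * Λ := by nlinarith
      nlinarith
    have h2 : 2 * (k : ℝ) * ((2 * (k : ℝ) + b + 2) * L + 2) ≤ 2 * (3 * b * Λ) * (9 * b * Λ * L) := by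
      gcongr
    have h3 : (1 : ℝ) ≤ (b : ℝ) ^ 2 * Λ ^ 2 * L := by
      have h4 : (1 : ℝ) ≤ (b : ℝ) ^ 2 := by nlinarith
      have h5 : (1 : ℝ) ≤ Λ ^ 2 := by nlinarith
      exact one_le_mul_of_one_le_of_one_le (one_le_mul_of_one_le_of_one_le h4 h5) hL0'
    nlinarith
  have hKlog : ((2 * k * ((2 * k + b + 2) * L + 2) + 1 : ℕ) : ℝ) * Real.log b ≤ Real.log N := by
    calc _ ≤ 55 * (b : ℝ) ^ 2 * Λ ^ 2 * X * Real.log b := by
          refine mul_le_mul_of_nonneg_right (hK.trans ?_) hlogb0.le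
          gcongr
      _ = _ := by rw [← hXb]; ring
  have hkk : (1 - 1 / ((b - 1 : ℕ) : ℝ)) ^ k * Real.log ((b ^ L : ℕ) : ℝ) < Real.log 2 := by
    have h0 : (1 : ℝ) ≤ ((b - 1 : ℕ) : ℝ) := by rw [hh]; linarith
    have hρ : (0 : ℝ) ≤ 1 - 1 / ((b - 1 : ℕ) : ℝ) := by
      rw [sub_nonneg, div_le_one (by linarith)]
      exact h0
    have h1 : 1 - 1 / ((b - 1 : ℕ) : ℝ) ≤ Real.exp (-(1 / (b : ℝ))) := by
      have h2 := Real.add_one_le_exp (-(1 / (b : ℝ)))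
      have h3 : 1 / (b : ℝ) ≤ 1 / ((b - 1 : ℕ) : ℝ) :=
        one_div_le_one_div_of_le (by linarith) (by rw [hh]; linarith)
      linarith
    have h2 : (1 - 1 / ((b - 1 : ℕ) : ℝ)) ^ k ≤ Real.exp (-(Λ + 1)) := by
      refine (pow_le_pow_left₀ hρ h1 k).trans ?_
      rw [← Real.exp_nat_mul]
      refine Real.exp_le_exp.2 ?_
      have : Λ + 1 ≤ k * (1 / (b : ℝ)) := by
        rw [mul_one_div, le_div_iff₀ (by linarith)]; linarith
      linarith
    have h3 : Real.log ((b ^ L : ℕ) : ℝ) ≤ Real.exp Λ := by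
      rw [hexpΛ]
      refine le_trans ?_ hKlog
      rw [Nat.cast_pow, Real.log_pow]
      refine mul_le_mul_of_nonneg_right ?_ hlogb0.le
      have a1 : L ≤ (2 * k + b + 2) * L + 2 :=
        (Nat.le_mul_of_pos_left L (by omega)).trans (Nat.le_add_right _ _)
      have a2 : L ≤ 2 * k * ((2 * k + b + 2) * L + 2) + 1 :=
        (a1.trans (Nat.le_mul_of_pos_left _ (by omega))).trans (Nat.le_add_right _ _)
      exact_mod_cast a2
    have h4 : 0 ≤ Real.log ((b ^ L : ℕ) : ℝ) := Real.log_natCast_nonneg _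
    have h5 : Real.exp (-(Λ + 1)) * Real.exp Λ ≤ 1 / 2 := by
      rw [← Real.exp_add, show -(Λ + 1) + Λ = -1 by ring, Real.exp_neg, ← one_div]
      refine one_div_le_one_div_of_le (by norm_num) ?_
      have := Real.add_one_le_exp 1
      linarith
    calc _ ≤ Real.exp (-(Λ + 1)) * Real.exp Λ := by gcongr
      _ < _ := by linarith
  obtain ⟨n, hn, hD, v, hv⟩ := finite_form hb hk0 hkk γ
  refine ⟨n, hn, (D0_lt hb hD).le.trans ?_, ⟨_, hD⟩, v, hv.trans hbound⟩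
  have : ((b ^ (2 * k * ((2 * k + b + 2) * L + 2) + 1) : ℕ) : ℝ) ≤ N := by
    rw [← Real.log_le_log_iff (by positivity) (by positivity), Nat.cast_pow, Real.log_pow]
    exact hKlog
  exact_mod_cast this

theorem main (b : ℕ) (hb : 2 ≤ b) : ∃ c C : ℝ, 0 < c ∧ 0 < C ∧ ∀ N : ℕ, 3 ≤ N → ∀ γ : ℝ,
    ∃ J : Finset ℕ, J.Nonempty ∧ ∑ j ∈ J, b ^ j ≤ N ∧
      |γ * (∑ j ∈ J, b ^ j : ℕ) - round (γ * (∑ j ∈ J, b ^ j : ℕ))| ≤
        C * Real.exp (-c * Real.log N / (Real.log (Real.log N)) ^ 2) := by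
  have hb0 : (0 : ℝ) < b := by exact_mod_cast (by omega : 0 < b)
  set c : ℝ := 1 / (110 * (b : ℝ) ^ 2) with hc
  set f : ℕ → ℝ := fun N => Real.exp (-c * Real.log N / (Real.log (Real.log N)) ^ 2) with hf
  have hf0 : ∀ N, 0 < f N := fun N => Real.exp_pos _
  have hs : 0 ≤ ∑ i ∈ range 16, (f i)⁻¹ := sum_nonneg fun i _ => (inv_pos.2 (hf0 i)).le
  refine ⟨c, 4620 * (b : ℝ) ^ 5 + ∑ i ∈ range 16, (f i)⁻¹, by positivity, by positivity,
    fun N hN γ => ?_⟩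
  change ∃ J : Finset ℕ, J.Nonempty ∧ _ ∧ _ ≤ _ * f N
  rcases le_or_gt 16 N with h | h
  · obtain ⟨n, hn, hnN, ⟨R, J, -, rfl⟩, v, hv⟩ := large hb h γ
    refine ⟨J, ?_, hnN, (round_le _ v).trans (hv.trans ?_)⟩
    · rcases J.eq_empty_or_nonempty with rfl | h'
      · simp at hn
      · exact h'
    · exact mul_le_mul_of_nonneg_right (by linarith) (hf0 N).le
  · refine ⟨{0}, singleton_nonempty _, by simp; omega, (abs_sub_round _).trans ?_⟩
    have h1 : (f N)⁻¹ ≤ ∑ i ∈ range 16, (f i)⁻¹ :=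
      single_le_sum (f := fun i => (f i)⁻¹) (fun i _ => (inv_pos.2 (hf0 i)).le) (mem_range.2 h)
    have h2 : (0 : ℝ) ≤ 4620 * (b : ℝ) ^ 5 := by positivity
    calc (1 / 2 : ℝ) ≤ (f N)⁻¹ * f N := by rw [inv_mul_cancel₀ (hf0 N).ne']; norm_num
      _ ≤ _ := mul_le_mul_of_nonneg_right (by linarith) (hf0 N).le

end Pool.Agent.H378Z.Digits
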