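import Pool.Agent.H378Z.GcnfDefs

set_option autoImplicit false

namespace Pool.Agent.H378Z.Gcnf

open Finset

lemma Valid.snoc {α : Type} {step : List α → α → Prop} {P : List α} (hP : Valid step P) {x : α}
    (hx : step P x) : Valid step (P ++ [x]) := by
  intro i h
  rw [List.length_append, List.length_singleton] at h
  by_cases hi : i < P.length
  · rw [List.getElem_append_left hi, List.take_append_of_le_length hi.le]
    exact hP i hi
  · have : i = P.length := by omega
    subst this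
    simpa using hx

lemma gcnfSize_snoc (P : List Cedent) (Γ : Cedent) :
    gcnfSize (P ++ [Γ]) = gcnfSize P + cedSize Γ := by
  simp [gcnfSize]

/-- derived, or containing the empty clause -/
def Der (P : List Cedent) (Γ : Cedent) : Prop := ∅ ∈ Γ ∨ Γ ∈ P

lemma Der.mono {P Q : List Cedent} (h : P ⊆ Q) {Γ : Cedent} (hΓ : Der P Γ) : Der Q Γ :=
  hΓ.imp id fun h1 => h h1

lemma cedSize_insert_le (Γ : Cedent) (l : Lit) : cedSize (insert {l} Γ) ≤ cedSize Γ + 2 := by
  by_cases h : ({l} : Clause) ∈ Γ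
  · rw [insert_eq_of_mem h]; omega
  · simp only [cedSize, sum_insert h, card_singleton]; omega

lemma half_step {P : List Cedent} (hP : Valid GStep P) {Γ Γa : Cedent} {l : Lit}
    (ha : Der P Γa) (hsub : ∀ D ∈ Γa, D ∈ Γ ∨ insert l D ∈ Γ) (hl : Der P (insert {l} Γ)) :
    ∃ Q, Valid GStep Q ∧ P ⊆ Q ∧ gcnfSize Q ≤ gcnfSize P + cedSize Γ ∧ Der Q Γ := by
  by_cases h0 : ∅ ∈ Γ
  · exact ⟨P, hP, List.Subset.refl _, by omega, Or.inl h0⟩
  have hl' : insert {l} Γ ∈ P := by
    rcases hl with h | h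
    · rcases mem_insert.1 h with h | h
      · exact absurd h.symm (singleton_ne_empty l)
      · exact absurd h h0
    · exact h
  rcases ha with ha | ha
  · rcases hsub _ ha with h | h
    · exact absurd h h0
    · have h' : ({l} : Clause) ∈ Γ := by simpa using h
      rw [insert_eq_of_mem h'] at hl'
      exact ⟨P, hP, List.Subset.refl _, by omega, Or.inr hl'⟩
  · refine ⟨P ++ [Γ], hP.snoc ?_, List.subset_append_left _ _, (gcnfSize_snoc _ _).le,
      Or.inr (by simp)⟩
    refine Or.inr (Or.inr ⟨Γa ∩ Γ, Γa \ Γ, Γ, l, ?_, hl', ?_⟩)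
    · rw [union_comm, sdiff_union_inter]; exact ha
    · symm
      rw [union_eq_right.2 inter_subset_right, union_eq_left]
      intro D hD
      obtain ⟨E, hE, rfl⟩ := mem_image.1 hD
      exact (hsub E (mem_sdiff.1 hE).1).resolve_left (mem_sdiff.1 hE).2

lemma w_step {P : List Cedent} (hP : Valid GStep P) {Γ Γa Γb : Cedent} {p : ℕ}
    (ha : Der P Γa) (hsa : ∀ D ∈ Γa, D ∈ Γ ∨ insert (p, true) D ∈ Γ)
    (hb : Der P Γb) (hsb : ∀ D ∈ Γb, D ∈ Γ ∨ insert (p, false) D ∈ Γ) :
    ∃ Q, Valid GStep Q ∧ P ⊆ Q ∧ gcnfSize Q ≤ gcnfSize P + (3 * cedSize Γ + 11) ∧ Der Q Γ := by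
  set I : Cedent := {{(p, true)}, {(p, false)}} with hI
  set Γ1 : Cedent := insert {(p, true)} Γ with hΓ1
  set Γ2 : Cedent := insert {(p, false)} Γ1 with hΓ2
  have h1 : Valid GStep (P ++ [I]) := hP.snoc (Or.inl ⟨p, rfl⟩)
  have h2 : Valid GStep (P ++ [I] ++ [Γ2]) := by
    refine h1.snoc (Or.inr (Or.inl ⟨I, by simp, Γ, ?_⟩))
    ext D
    simp only [hΓ2, hΓ1, hI, mem_insert, mem_union, mem_singleton]
    tauto
  have hsub : P ⊆ P ++ [I] ++ [Γ2] := fun x hx => by simp [hx]
  obtain ⟨Q1, hQ1, hPQ1, hs1, hd1⟩ := half_step h2 (Γ := Γ1) (l := (p, false)) (hb.mono hsub)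
    (fun D hD => (hsb D hD).imp mem_insert_of_mem mem_insert_of_mem) (Or.inr (by simp [hΓ2]))
  have hsub1 : P ⊆ Q1 := List.Subset.trans hsub hPQ1
  obtain ⟨Q2, hQ2, hPQ2, hs2, hd2⟩ := half_step hQ1 (Γ := Γ) (l := (p, true)) (ha.mono hsub1) hsa hd1
  refine ⟨Q2, hQ2, List.Subset.trans hsub1 hPQ2, ?_, hd2⟩
  rw [gcnfSize_snoc, gcnfSize_snoc] at hs1
  have e1 : cedSize Γ1 ≤ cedSize Γ + 2 := cedSize_insert_le _ _
  have e2 : cedSize Γ2 ≤ cedSize Γ1 + 2 := cedSize_insert_le _ _
  have e3 : cedSize I ≤ 5 := by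
    have := cedSize_insert_le ({{(p, false)}} : Cedent) (p, true)
    have h4 : cedSize ({{(p, false)}} : Cedent) = 3 := by simp [cedSize]
    rw [h4] at this
    exact this
  omega

/-- the clauses of `S` with a member of `T` removed -/
def ced (S : Cedent) (T : Finset Clause) : Cedent := (S ×ˢ T).image fun x => x.1 \ x.2

lemma cedSize_ced (S : Cedent) (T : Finset Clause) : cedSize (ced S T) ≤ 1 + T.card * cedSize S := by
  unfold cedSize ced
  have h1 : ∑ C ∈ (S ×ˢ T).image (fun x => x.1 \ x.2), (1 + C.card) ≤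
      ∑ x ∈ S ×ˢ T, (1 + (x.1 \ x.2).card) := sum_image_le_of_nonneg (fun _ _ => Nat.zero_le _)
  have h2 : ∑ x ∈ S ×ˢ T, (1 + (x.1 \ x.2).card) ≤ ∑ x ∈ S ×ˢ T, (1 + x.1.card) :=
    sum_le_sum fun x _ => Nat.add_le_add_left (card_le_card sdiff_subset) _
  have h3 : ∑ x ∈ S ×ˢ T, (1 + x.1.card) = T.card * ∑ C ∈ S, (1 + C.card) := by
    rw [sum_product, mul_sum]
    refine sum_congr rfl fun C _ => ?_
    simp
  nlinarith

/-- traces of a family on a set of literals -/
def fam (U : Finset Clause) (K : Clause) : Finset Clause := U.image fun t => t ∩ K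

/-- the growth factor -/
def gr : ℕ → ℕ
  | 0 => 1
  | k + 1 => (1 + 2 ^ k) * gr k

lemma gr_pos (k : ℕ) : 0 < gr k := by
  induction k with
  | zero => simp [gr]
  | succ k ih => simp only [gr]; positivity

lemma gr_sq (k : ℕ) : gr k * gr k ≤ 2 ^ (k * (k + 1)) := by
  induction k with
  | zero => simp [gr]
  | succ k ih =>
    have h1 : 1 + 2 ^ k ≤ 2 ^ (k + 1) := by
      have : 1 ≤ 2 ^ k := Nat.one_le_two_pow
      rw [pow_succ]; omega
    calc gr (k + 1) * gr (k + 1) = (1 + 2 ^ k) * (1 + 2 ^ k) * (gr k * gr k) := by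
          simp only [gr]; ring
      _ ≤ 2 ^ (k + 1) * 2 ^ (k + 1) * 2 ^ (k * (k + 1)) := by gcongr
      _ = 2 ^ ((k + 1) * (k + 1 + 1)) := by
          rw [← pow_add, ← pow_add]; congr 1; ring

lemma shorten {S : Cedent} {U T : Finset Clause} {K : Clause} {l : Lit} (hT : T ⊆ U)
    (hK : ∀ t ∈ T, t ⊆ insert l K) :
    ∀ D ∈ ced S T, D ∈ ced S (fam U K) ∨ insert l D ∈ ced S (fam U K) := by
  intro D hD
  obtain ⟨⟨C, t⟩, hx, rfl⟩ := mem_image.1 hD
  obtain ⟨hC, ht⟩ := mem_product.1 hx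
  have hmem : C \ (t ∩ K) ∈ ced S (fam U K) :=
    mem_image.2 ⟨(C, t ∩ K), mem_product.2 ⟨hC, mem_image.2 ⟨t, hT ht, rfl⟩⟩, rfl⟩
  have ht' := hK t ht
  by_cases h : l ∈ C ∧ l ∈ t ∧ l ∉ K
  · right
    have : insert l (C \ t) = C \ (t ∩ K) := by
      ext x
      simp only [mem_insert, mem_sdiff, mem_inter]
      constructor
      · rintro (rfl | ⟨h1, h2⟩)
        · exact ⟨h.1, fun h3 => h.2.2 h3.2⟩
        · exact ⟨h1, fun h3 => h2 h3.1⟩
      · rintro ⟨h1, h2⟩
        by_cases hx : x ∈ t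
        · rcases mem_insert.1 (ht' hx) with h3 | h3
          · exact Or.inl h3
          · exact absurd ⟨hx, h3⟩ h2
        · exact Or.inr ⟨h1, hx⟩
    rw [this]; exact hmem
  · left
    have : C \ t = C \ (t ∩ K) := by
      ext x
      simp only [mem_sdiff, mem_inter]
      constructor
      · rintro ⟨h1, h2⟩
        exact ⟨h1, fun h3 => h2 h3.1⟩
      · rintro ⟨h1, h2⟩
        refine ⟨h1, fun hx => ?_⟩
        rcases mem_insert.1 (ht' hx) with h3 | h3
        · subst h3
          exact h ⟨h1, hx, fun h4 => h2 ⟨hx, h4⟩⟩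
        · exact h2 ⟨hx, h3⟩
    show C \ t ∈ _
    rw [this]; exact hmem

theorem main_rec (S : Cedent) (R : ℕ → Clause) (N : ℕ)
    (hR : ∀ v < N, R v ∈ S ∨ ∃ a < v, ∃ b < v, ∃ p : ℕ,
      R a ⊆ insert (p, true) (R v) ∧ R b ⊆ insert (p, false) (R v)) (m : ℕ) (k : ℕ) :
    ∀ (lo : ℕ) (B : Clause) (U : Finset Clause) (P : List Cedent), Valid GStep P →
      (∀ v < N, R v ∈ U) → U.card * gr k ≤ m →
      (∀ u < lo, u < N → ∃ T ⊆ U, (∀ t ∈ T, t ⊆ B ∪ R u) ∧ Der P (ced S T)) →
      ∀ s < N, lo ≤ s → s < lo + 2 ^ k →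
      ∃ Q, Valid GStep Q ∧ P ⊆ Q ∧
        gcnfSize Q ≤ gcnfSize P + gr k * (3 * (1 + m * cedSize S) + 11) ∧
        Der Q (ced S (fam U (B ∪ R s))) := by
  induction k with
  | zero =>
    intro lo B U P hP hU hm hex s hs h1 h2
    have : s = lo := by simp at h2; omega
    subst this
    rcases hR s hs with h | ⟨a, ha, b, hb, p, hpa, hpb⟩
    · refine ⟨P, hP, List.Subset.refl _, by omega, Or.inl ?_⟩
      refine mem_image.2 ⟨(R s, R s ∩ (B ∪ R s)),
        mem_product.2 ⟨h, mem_image.2 ⟨R s, hU s hs, rfl⟩⟩, ?_⟩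
      simp
    · obtain ⟨Ta, hTa, hKa, hda⟩ := hex a ha (ha.trans hs)
      obtain ⟨Tb, hTb, hKb, hdb⟩ := hex b hb (hb.trans hs)
      have key : ∀ (l : Lit) (c : ℕ), R c ⊆ insert l (R s) → B ∪ R c ⊆ insert l (B ∪ R s) := by
        intro l c hc x hx
        rcases mem_union.1 hx with h | h
        · exact mem_insert_of_mem (mem_union_left _ h)
        · rcases mem_insert.1 (hc h) with h | h
          · exact mem_insert.2 (Or.inl h)
          · exact mem_insert_of_mem (mem_union_right _ h)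
      obtain ⟨Q, hQ, hPQ, hsz, hd⟩ := w_step hP (Γ := ced S (fam U (B ∪ R s))) (p := p) hda
        (shorten hTa fun t ht => (hKa t ht).trans (key _ _ hpa)) hdb
        (shorten hTb fun t ht => (hKb t ht).trans (key _ _ hpb))
      refine ⟨Q, hQ, hPQ, hsz.trans ?_, hd⟩
      have h3 := cedSize_ced S (fam U (B ∪ R s))
      have h4 : (fam U (B ∪ R s)).card ≤ m := by
        have : (fam U (B ∪ R s)).card ≤ U.card := card_image_le
        simp only [gr, mul_one] at hm
        omega
      have h5 := Nat.mul_le_mul_right (cedSize S) h4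
      simp only [gr, one_mul]
      omega
  | succ k ih =>
    intro lo B U P hP hU hm hex s hs h1 h2
    set W := 3 * (1 + m * cedSize S) + 11 with hW
    set B1 := B ∪ R s with hB1
    have hm' : U.card * gr k ≤ m := by
      refine le_trans ?_ hm
      simp only [gr]
      exact Nat.mul_le_mul_left _ (Nat.le_mul_of_pos_left _ (by positivity))
    have hex1 : ∀ Q : List Cedent, P ⊆ Q → ∀ u < lo, u < N →
        ∃ T ⊆ U, (∀ t ∈ T, t ⊆ B1 ∪ R u) ∧ Der Q (ced S T) := by
      intro Q hQ u hu huN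
      obtain ⟨T, hT, hK, hd⟩ := hex u hu huN
      exact ⟨T, hT, fun t ht => (hK t ht).trans
        (union_subset_union_left subset_union_left), hd.mono hQ⟩
    have loop : ∀ j ≤ 2 ^ k, ∃ Q, Valid GStep Q ∧ P ⊆ Q ∧
        gcnfSize Q ≤ gcnfSize P + j * (gr k * W) ∧
        ∀ i < j, lo + i < N → Der Q (ced S (fam U (B1 ∪ R (lo + i)))) := by
      intro j
      induction j with
      | zero => intro _; exact ⟨P, hP, List.Subset.refl _, by simp, by simp⟩
      | succ j ihj =>
        intro hj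
        obtain ⟨Q, hQ, hPQ, hsz, hd⟩ := ihj (by omega)
        by_cases hjN : lo + j < N
        · obtain ⟨Q', hQ', hQQ', hsz', hd'⟩ := ih lo B1 U Q hQ hU hm' (hex1 Q hPQ) (lo + j) hjN
            (by omega) (by omega)
          refine ⟨Q', hQ', List.Subset.trans hPQ hQQ', ?_, fun i hi hiN => ?_⟩
          · rw [Nat.succ_mul]; omega
          · rcases Nat.lt_succ_iff_lt_or_eq.1 hi with h | h
            · exact (hd i h hiN).mono hQQ'
            · subst h; exact hd'
        · refine ⟨Q, hQ, hPQ, ?_, fun i hi hiN => hd i ?_ hiN⟩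
          · rw [Nat.succ_mul]; omega
          · omega
    obtain ⟨Q, hQ, hPQ, hsz, hd⟩ := loop (2 ^ k) le_rfl
    have hBB : B1 ∪ R s = B1 := by rw [hB1, union_assoc, union_idempotent]
    have hgr : gr (k + 1) * W = gr k * W + 2 ^ k * (gr k * W) := by simp only [gr]; ring
    by_cases hlo : s < lo + 2 ^ k
    · refine ⟨Q, hQ, hPQ, by rw [hgr]; omega, ?_⟩
      have := hd (s - lo) (by omega) (by rw [Nat.add_sub_cancel' h1]; exact hs)
      rwa [Nat.add_sub_cancel' h1, hBB] at this
    · set U' := U ∪ (range (2 ^ k)).biUnion fun i => fam U (B1 ∪ R (lo + i)) with hU'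
      have hcard : U'.card ≤ U.card * (1 + 2 ^ k) := by
        have e1 : ((range (2 ^ k)).biUnion fun i => fam U (B1 ∪ R (lo + i))).card ≤
            (range (2 ^ k)).card * U.card := card_biUnion_le_card_mul _ _ _ fun _ _ => card_image_le
        have e2 := card_union_le U ((range (2 ^ k)).biUnion fun i => fam U (B1 ∪ R (lo + i)))
        rw [card_range] at e1
        nlinarith
      obtain ⟨Q', hQ', hQQ', hsz', hd'⟩ := ih (lo + 2 ^ k) B1 U' Q hQ
        (fun v hv => mem_union_left _ (hU v hv))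
        (by
          refine le_trans (Nat.mul_le_mul_right _ hcard) (le_trans (le_of_eq ?_) hm)
          simp only [gr]; ring)
        (by
          intro u hu huN
          by_cases hul : u < lo
          · obtain ⟨T, hT, hK, hdT⟩ := hex1 Q hPQ u hul huN
            exact ⟨T, hT.trans subset_union_left, hK, hdT⟩
          · obtain ⟨i, rfl⟩ : ∃ i, u = lo + i := ⟨u - lo, by omega⟩
            refine ⟨fam U (B1 ∪ R (lo + i)), ?_, ?_, hd i (by omega) huN⟩
            · exact (subset_biUnion_of_mem (fun i => fam U (B1 ∪ R (lo + i)))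
                (mem_range.2 (by omega))).trans subset_union_right
            · intro t ht
              obtain ⟨t', -, rfl⟩ := mem_image.1 ht
              exact inter_subset_right)
        s hs (by omega) (by rw [pow_succ] at h2; omega)
      refine ⟨Q', hQ', List.Subset.trans hPQ hQQ', by rw [hgr]; omega, ?_⟩
      have hfam : fam U' B1 = fam U B1 := by
        refine Subset.antisymm ?_ (image_subset_image subset_union_left)
        intro t ht
        obtain ⟨t', ht', rfl⟩ := mem_image.1 ht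
        rcases mem_union.1 ht' with h | h
        · exact mem_image.2 ⟨t', h, rfl⟩
        · obtain ⟨i, -, hi⟩ := mem_biUnion.1 h
          obtain ⟨t'', ht'', rfl⟩ := mem_image.1 hi
          refine mem_image.2 ⟨t'', ht'', ?_⟩
          rw [inter_assoc, inter_eq_right.2 subset_union_left]
      rwa [hBB, hfam] at hd'

theorem quasi_poly (S : Cedent) (hS : ∅ ∉ S) (L : List Clause) (hL : IsResRefutation S L) :
    ∃ P, IsGcnfRefutation S P ∧
      gcnfSize P ≤ 18 * cedSize S * L.length *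
        2 ^ (Nat.clog 2 L.length * (Nat.clog 2 L.length + 1)) := by
  obtain ⟨hv, hlast⟩ := hL
  set N := L.length with hN
  set k := Nat.clog 2 N with hk
  have hne : L ≠ [] := by rintro rfl; simp at hlast
  have hN0 : 0 < N := List.length_pos_iff.2 hne
  let R : ℕ → Clause := fun i => L.getD i ∅
  have hRi : ∀ (i : ℕ) (h : i < L.length), R i = L[i] := fun i h => List.getD_eq_getElem _ _ h
  have htake : ∀ v < N, ∀ C ∈ L.take v, ∃ a < v, R a = C := by
    intro v hvN C hC
    obtain ⟨a, ha, rfl⟩ := List.mem_iff_getElem.1 hC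
    rw [List.length_take] at ha
    refine ⟨a, by omega, ?_⟩
    rw [hRi a (by omega), List.getElem_take]
  have hR : ∀ v < N, R v ∈ S ∨ ∃ a < v, ∃ b < v, ∃ p : ℕ,
      R a ⊆ insert (p, true) (R v) ∧ R b ⊆ insert (p, false) (R v) := by
    intro v hvN
    rcases hv v hvN with h | ⟨p, A, B, hA, hB, hC⟩
    · left; rwa [hRi v hvN]
    · obtain ⟨a, ha, hA'⟩ := htake v hvN _ hA
      obtain ⟨b, hb, hB'⟩ := htake v hvN _ hB
      refine Or.inr ⟨a, ha, b, hb, p, ?_, ?_⟩
      · rw [hA', hRi v hvN, hC]; exact insert_subset_insert _ subset_union_left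
      · rw [hB', hRi v hvN, hC]; exact insert_subset_insert _ subset_union_right
  have hlast' : R (N - 1) = ∅ := by
    rw [List.getLast?_eq_getElem?, List.getElem?_eq_getElem (by omega)] at hlast
    rw [hRi _ (by omega)]
    exact Option.some.inj hlast
  obtain ⟨Q, hQ, -, hsz, hd⟩ := main_rec S R N hR (N * gr k) k 0 ∅ ((range N).image R) []
    (fun i h => absurd h (by simp)) (fun v hv => mem_image_of_mem _ (mem_range.2 hv))
    (Nat.mul_le_mul_right _ (card_image_le.trans (by simp))) (fun u hu => absurd hu (by simp))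
    (N - 1) (by omega) (Nat.zero_le _)
    (by have := Nat.le_pow_clog (b := 2) (by norm_num) N; rw [← hk] at this; omega)
  have hced : ced S (fam ((range N).image R) (∅ ∪ R (N - 1))) = S := by
    rw [hlast', union_empty]
    ext C
    simp only [ced, fam, mem_image, mem_product, inter_empty, Prod.exists]
    constructor
    · rintro ⟨a, b, ⟨ha, -, -, rfl⟩, rfl⟩
      simpa using ha
    · intro hC
      exact ⟨C, ∅, ⟨hC, R 0, ⟨0, mem_range.2 hN0, rfl⟩, rfl⟩, by simp⟩
  rw [hced] at hd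
  have hSQ : S ∈ Q := hd.resolve_left hS
  refine ⟨Q ++ [S], ⟨hQ.snoc (Or.inr (Or.inl ⟨S, hSQ, ∅, by simp⟩)), by simp⟩, ?_⟩
  rw [gcnfSize_snoc]
  have h1 := gr_sq k
  have h2 := gr_pos k
  have h3 : 1 ≤ cedSize S := by unfold cedSize; omega
  have h4 : gcnfSize ([] : List Cedent) = 0 := rfl
  set g := gr k
  set c := cedSize S
  have h5 : 1 ≤ N * g * c := by
    have := Nat.mul_pos (Nat.mul_pos hN0 h2) h3
    omega
  have h6 : c ≤ g * (N * g * c) := by
    calc c = 1 * (1 * 1 * c) := by ring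
      _ ≤ g * (N * g * c) := by gcongr <;> omega
  calc gcnfSize Q + c ≤ g * (3 * (1 + N * g * c) + 11) + c := by omega
    _ ≤ g * (17 * (N * g * c)) + g * (N * g * c) := by
        gcongr
        omega
    _ = 18 * c * N * (g * g) := by ring
    _ ≤ _ := by gcongr

end Pool.Agent.H378Z.Gcnf
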