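import Mathlib

/-!
# GCNF and resolution refutations (DAG form)
-/

set_option autoImplicit false

namespace Pool.Agent.H378Z.Gcnf

/-- a literal: a variable with a sign -/
abbrev Lit := ℕ × Bool

/-- a clause: a finite set of literals -/
abbrev Clause := Finset Lit

/-- a cedent: a finite set of clauses -/
abbrev Cedent := Finset Clause

/-- every entry of the sequence `P` follows, by `step`, from the entries before it -/
def Valid {α : Type} (step : List α → α → Prop) (P : List α) : Prop :=
  ∀ (i : ℕ) (h : i < P.length), step (P.take i) P[i]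

/-- one GCNF inference: an initial cedent, the structural rule, or the logical rule -/
def GStep (earlier : List Cedent) (Γ : Cedent) : Prop :=
  (∃ p : ℕ, Γ = {{(p, true)}, {(p, false)}}) ∨
  (∃ Γ₀ ∈ earlier, ∃ Δ : Cedent, Γ = Γ₀ ∪ Δ) ∨
  (∃ (Γ₀ Cs Pi : Cedent) (l : Lit), Γ₀ ∪ Cs ∈ earlier ∧ insert {l} Pi ∈ earlier ∧
    Γ = Γ₀ ∪ Pi ∪ Cs.image (insert l))

/-- one resolution inference from the clauses `S`: an axiom or a resolvent -/
def RStep (S : Cedent) (earlier : List Clause) (C : Clause) : Prop :=
  C ∈ S ∨ ∃ (p : ℕ) (A B : Clause), insert (p, true) A ∈ earlier ∧ insert (p, false) B ∈ earlier ∧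
    C = A ∪ B

/-- `P` is a GCNF refutation of `S` -/
def IsGcnfRefutation (S : Cedent) (P : List Cedent) : Prop :=
  Valid GStep P ∧ P.getLast? = some S

/-- `L` is a resolution refutation of `S` -/
def IsResRefutation (S : Cedent) (L : List Clause) : Prop :=
  Valid (RStep S) L ∧ L.getLast? = some ∅

/-- symbols in a cedent: one per literal occurrence, one per clause, and one more -/
def cedSize (Γ : Cedent) : ℕ := 1 + ∑ C ∈ Γ, (1 + C.card)

/-- symbols in a sequence of cedents -/
def gcnfSize (P : List Cedent) : ℕ := (P.map cedSize).sum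

end Pool.Agent.H378Z.Gcnf
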