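import Pool.Agent.H581R2.QE

/-!
# Semialgebraic tools: one-dimensional dichotomy, measurability and the covering lemma
-/

set_option autoImplicit false

open Set Filter Topology Cardinal

namespace Pool.Agent.H378Z.Gen

open Pool.Agent.H581R2

variable {ι κ μ : Type}

/-- polynomial maps -/
def PV (φ : (μ → ℝ) → ι → ℝ) : Prop := ∀ i, PF (fun u => φ u i)

lemma PV.co (g : ι → μ) : PV (fun (u : μ → ℝ) (i : ι) => u (g i)) := fun i => PF.coord (g i)

lemma PV.id : PV (fun (u : μ → ℝ) => u) := fun i => PF.coord i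

lemma PV.ext {φ : (μ → ℝ) → ι → ℝ} {h : (μ → ℝ) → ℝ} (hh : PF h) (hφ : PV φ) :
    PV (fun u => ext (h u) (φ u)) := ext_PF hφ hh

lemma PV.elim {φ : (μ → ℝ) → ι → ℝ} {ψ : (μ → ℝ) → κ → ℝ} (hφ : PV φ) (hψ : PV ψ) :
    PV (fun u => Sum.elim (φ u) (ψ u)) := by
  rintro (i | k)
  · exact hφ i
  · exact hψ k

/-- semialgebraic relation between a tuple and a real number -/
def SA1 (C : (ι → ℝ) → ℝ → Prop) : Prop :=
  SAP (fun w : Option ι → ℝ => C (fun i => w (some i)) (w none))

/-- semialgebraic relation between two tuples -/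
def SA2 (p : (ι → ℝ) → (κ → ℝ) → Prop) : Prop :=
  SAP (fun v : ι ⊕ κ → ℝ => p (fun i => v (Sum.inl i)) (fun k => v (Sum.inr k)))

/-- semialgebraic relation between three tuples -/
def SA3 (θ : (ι → ℝ) → (κ → ℝ) → (κ → ℝ) → Prop) : Prop :=
  SAP (fun v : ι ⊕ κ ⊕ κ → ℝ => θ (fun i => v (Sum.inl i)) (fun k => v (Sum.inr (Sum.inl k)))
    (fun k => v (Sum.inr (Sum.inr k))))

lemma SA1.subst {C : (ι → ℝ) → ℝ → Prop} (hC : SA1 C) {φ : (μ → ℝ) → ι → ℝ} {h : (μ → ℝ) → ℝ}
    (hφ : PV φ) (hh : PF h) : SAP (fun u => C (φ u) (h u)) :=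
  SAP.preimage hC (PV.ext hh hφ)

lemma SA2.subst {p : (ι → ℝ) → (κ → ℝ) → Prop} (hp : SA2 p) {φ : (μ → ℝ) → ι → ℝ}
    {ψ : (μ → ℝ) → κ → ℝ} (hφ : PV φ) (hψ : PV ψ) : SAP (fun u => p (φ u) (ψ u)) :=
  SAP.preimage hp (PV.elim hφ hψ)

lemma SA3.subst {θ : (ι → ℝ) → (κ → ℝ) → (κ → ℝ) → Prop} (hθ : SA3 θ) {φ : (μ → ℝ) → ι → ℝ}
    {ψ χ : (μ → ℝ) → κ → ℝ} (hφ : PV φ) (hψ : PV ψ) (hχ : PV χ) :
    SAP (fun u => θ (φ u) (ψ u) (χ u)) :=
  SAP.preimage hθ (PV.elim hφ (PV.elim hψ hχ))

lemma sap_ex {q : (ι → ℝ) → ℝ → Prop} (h : SA1 q) : SAP (fun v => ∃ t, q v t) :=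
  SAP.exists_real h

lemma sap_all {q : (ι → ℝ) → ℝ → Prop} (h : SA1 q) : SAP (fun v => ∀ t, q v t) := by
  have := (sap_ex (q := fun v t => ¬ q v t) (SAP.not h)).not
  exact SAP.congr this (fun v => by simp)

lemma sap_exFin [Finite κ] : ∀ {ι : Type} {q : (ι → ℝ) → (κ → ℝ) → Prop}, SA2 q →
    SAP (fun v => ∃ z, q v z) := by
  induction κ using Finite.induction_empty_option with
  | of_equiv e ih =>
    intro ι q h
    have := ih (q := fun v z => q v (fun k => z (e.symm k))) (h.subst (PV.co _) (PV.co _))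
    refine SAP.congr this (fun v => ⟨?_, ?_⟩)
    · rintro ⟨z, hz⟩
      exact ⟨fun k => z (e k), by simpa using hz⟩
    · rintro ⟨z, hz⟩
      exact ⟨_, hz⟩
  | h_empty =>
    intro ι q h
    have := h.subst (PV.id) (ψ := fun _ => PEmpty.elim) (fun k => k.elim)
    refine SAP.congr this (fun v => ⟨?_, ?_⟩)
    · rintro ⟨z, hz⟩
      convert hz
      funext k
      exact k.elim
    · intro hz
      exact ⟨_, hz⟩
  | h_option ih =>
    intro ι q h
    have h1 := ih (ι := Option ι) (q := fun v z => q (fun i => v (some i)) (ext (v none) z))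
      (h.subst (PV.co _) (PV.ext (PF.coord _) (PV.co _)))
    have := sap_ex (q := fun v t => ∃ z, q v (ext t z)) h1
    refine SAP.congr this (fun v => ⟨?_, ?_⟩)
    · rintro ⟨z, hz⟩
      refine ⟨z none, fun k => z (some k), ?_⟩
      convert hz
      funext o
      cases o <;> rfl
    · rintro ⟨t, z, hz⟩
      exact ⟨_, hz⟩

lemma sap_allFin [Finite κ] {q : (ι → ℝ) → (κ → ℝ) → Prop} (h : SA2 q) :
    SAP (fun v => ∀ z, q v z) := by
  have := (sap_exFin (q := fun v t => ¬ q v t) (SAP.not h)).not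
  exact SAP.congr this (fun v => by simp)

lemma sap_forall_fin {α : Type} [Finite α] {p : α → (ι → ℝ) → Prop}
    (h : ∀ a, SAP (p a)) : SAP (fun v => ∀ a, p a v) := by
  have := (SAP.exists_fin (p := fun a v => ¬ p a v) (fun a => (h a).not)).not
  exact SAP.congr this (fun v => by simp)

/-- the fibre contains an interval -/
def HasInt (C : (ι → ℝ) → ℝ → Prop) (x : ι → ℝ) : Prop :=
  ∃ a b : ℝ, a < b ∧ ∀ s, a < s → s < b → C x s

lemma SA1.hasInt {C : (ι → ℝ) → ℝ → Prop} (hC : SA1 C) : SAP (HasInt C) := by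
  refine sap_ex (sap_ex (SAP.and (SAP.lt (PF.coord _) (PF.coord _)) (sap_all ?_)))
  exact SAP.imp (SAP.lt (PF.coord _) (PF.coord _)) (SAP.imp (SAP.lt (PF.coord _) (PF.coord _))
    (hC.subst (PV.co _) (PF.coord _)))

/-- uniform one-dimensional dichotomy -/
theorem SA1.dichotomy {C : (ι → ℝ) → ℝ → Prop} (hC : SA1 C) :
    ∃ N : ℕ, ∀ x, (∃ Z : Finset ℝ, Z.card ≤ N ∧ ∀ t, C x t → t ∈ Z) ∨ HasInt C x := by
  classical
  obtain ⟨Q, hQ⟩ := hC
  choose Fq hFq using exists_univ (ι := ι)
  set G : Finset (UP ι) := Q.image Fq with hG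
  refine ⟨∑ g ∈ G, g.natDegree, fun x => ?_⟩
  by_cases hsub : ∀ t, C x t → t ∈ zset G x
  · left
    refine ⟨zset G x, ?_, hsub⟩
    unfold zset
    refine (Finset.card_biUnion_le).trans (Finset.sum_le_sum fun g _ => ?_)
    refine (Multiset.toFinset_card_le _).trans ((Polynomial.card_roots' _).trans ?_)
    exact Polynomial.natDegree_map_le
  · right
    push Not at hsub
    obtain ⟨t0, ht0, hz⟩ := hsub
    have hev : ∀ᶠ t in 𝓝 t0, ∀ q ∈ Q, SignType.sign (MvPolynomial.aeval (ext t0 x) q) =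
        SignType.sign (MvPolynomial.aeval (ext t x) q) := by
      rw [Filter.eventually_all_finset]
      intro q hq
      simp only [hFq]
      by_cases h0 : spec x (Fq q) = 0
      · simp [h0]
      · have hne : (spec x (Fq q)).eval t0 ≠ 0 := fun h =>
          hz ((mem_zset G x t0).2 ⟨Fq q, Finset.mem_image_of_mem _ hq, h0, h⟩)
        have hc : ContinuousAt (fun t => (spec x (Fq q)).eval t) t0 :=
          (Polynomial.continuous _).continuousAt
        rcases lt_or_gt_of_ne hne with hl | hl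
        · filter_upwards [hc.eventually (gt_mem_nhds hl)] with t ht
          rw [sign_neg hl, sign_neg ht]
        · filter_upwards [hc.eventually (lt_mem_nhds hl)] with t ht
          rw [sign_pos hl, sign_pos ht]
    obtain ⟨a, b, hab, hs⟩ := mem_nhds_iff_exists_Ioo_subset.1 hev
    refine ⟨a, b, hab.1.trans hab.2, fun s h1 h2 => ?_⟩
    exact hQ (ext t0 x) (ext s x) (hs ⟨h1, h2⟩) ht0

lemma SA1.finite_of_not_hasInt {C : (ι → ℝ) → ℝ → Prop} (hC : SA1 C) {x : ι → ℝ}
    (h : ¬ HasInt C x) : {t | C x t}.Finite := by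
  obtain ⟨N, hN⟩ := hC.dichotomy
  rcases hN x with ⟨Z, -, hZ⟩ | h'
  · exact Z.finite_toSet.subset hZ
  · exact absurd h' h

/-- sets of cardinality less than the continuum -/
def Small (F : Set ℝ) : Prop := #F < 𝔠

lemma Small.mono {F G : Set ℝ} (h : Small G) (hs : F ⊆ G) : Small F :=
  lt_of_le_of_lt (mk_le_mk_of_subset hs) h

lemma small_of_countable {F : Set ℝ} (h : F.Countable) : Small F :=
  lt_of_le_of_lt (le_aleph0_iff_set_countable.2 h) aleph0_lt_continuum

lemma Small.union {F G : Set ℝ} (hF : Small F) (hG : Small G) : Small (F ∪ G) :=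
  lt_of_le_of_lt (mk_union_le _ _) (add_lt_of_lt aleph0_le_continuum hF hG)

lemma small_iUnion {α : Type} (hα : #α < 𝔠) {T : α → Set ℝ} (hT : ∀ a, (T a).Finite) :
    Small (⋃ a, T a) := by
  refine lt_of_le_of_lt (mk_iUnion_le T) ?_
  refine mul_lt_of_lt aleph0_le_continuum hα (lt_of_le_of_lt ?_ aleph0_lt_continuum)
  exact ciSup_le' fun a => (hT a).lt_aleph0.le

lemma HasInt.exists_notMem {C : (ι → ℝ) → ℝ → Prop} {x : ι → ℝ} (h : HasInt C x) {F : Set ℝ}
    (hF : Small F) : ∃ t, C x t ∧ t ∉ F := by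
  obtain ⟨a, b, hab, hs⟩ := h
  by_contra hcon
  push Not at hcon
  have : Ioo a b ⊆ F := fun s hs' => hcon s (hs s hs'.1 hs'.2)
  have h2 := hF.mono this
  unfold Small at h2
  rw [mk_Ioo_real hab] at h2
  exact lt_irrefl _ h2

lemma SA1.finite_of_small {C : (ι → ℝ) → ℝ → Prop} (hC : SA1 C) {x : ι → ℝ}
    (h : Small {t | C x t}) : {t | C x t}.Finite := by
  refine hC.finite_of_not_hasInt fun hI => ?_
  obtain ⟨t, h1, h2⟩ := hI.exists_notMem h
  exact h2 h1

/-- The covering lemma. -/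
theorem cover [Finite κ] [DecidableEq κ] (n : ℕ) : ∀ (S : Finset κ), S.card = n →
    ∀ (ι : Type) (A : (ι → ℝ) → (κ → ℝ) → Prop), SA2 A →
    ∃ C : (ι → ℝ) → ℝ → Prop, SA1 C ∧ (∀ x, {t | C x t}.Finite) ∧
      ∀ x, (∀ z, A x z → ∃ i ∈ S, C x (z i)) ∨
        (∀ F, Small F → ∃ z, A x z ∧ ∀ i ∈ S, z i ∉ F) := by
  induction n with
  | zero =>
    intro S hS ι A _
    rw [Finset.card_eq_zero] at hS
    subst hS
    refine ⟨fun _ _ => False, SAP.const False, fun x => by simp, fun x => ?_⟩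
    by_cases h : ∃ z, A x z
    · right
      obtain ⟨z, hz⟩ := h
      exact fun F _ => ⟨z, hz, by simp⟩
    · left
      exact fun z hz => absurd ⟨z, hz⟩ h
  | succ n ih =>
    intro S hS ι A hA
    obtain ⟨k0, hk0⟩ : S.Nonempty := Finset.card_pos.1 (by omega)
    have hcard : ∀ i ∈ S, (S.erase i).card = n := fun i hi => by
      rw [Finset.card_erase_of_mem hi]; omega
    obtain ⟨C', hC', hfin', hdich'⟩ := ih (S.erase k0) (hcard k0 hk0) (Option ι)
      (fun y z => A (fun i => y (some i)) z ∧ z k0 = y none)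
      (SAP.and (hA.subst (PV.co _) (PV.co _)) (SAP.eq (PF.coord _) (PF.coord _)))
    let B : (ι → ℝ) → ℝ → Prop := fun x t =>
      ¬ ∀ z, A x z → z k0 = t → ∃ i ∈ S.erase k0, C' (ext t x) (z i)
    have hB : SA1 B := by
      refine SAP.not (sap_allFin (SAP.imp (hA.subst (PV.co _) (PV.co _))
        (SAP.imp (SAP.eq (PF.coord _) (PF.coord _)) ?_)))
      exact SAP.exists_mem _ fun i _ => hC'.subst (PV.ext (PF.coord _) (PV.co _)) (PF.coord _)
    let D : (Option ι → ℝ) → ℝ → Prop := fun y s => C' (ext s (fun i => y (some i))) (y none)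
    have hD : SA1 D := hC'.subst (PV.ext (PF.coord _) (PV.co _)) (PF.coord _)
    let E : (ι → ℝ) → ℝ → Prop := fun x e => HasInt D (ext e x)
    have hE : SA1 E := SAP.preimage hD.hasInt (PV.ext (PF.coord _) (PV.co _))
    have hEfin : ∀ x, {e | E x e}.Finite := by
      intro x
      refine hE.finite_of_small (small_of_countable ?_)
      refine (countable_iUnion fun q : ℚ => (hfin' (ext (q : ℝ) x)).countable).mono ?_
      rintro e ⟨a, b, hab, hs⟩
      obtain ⟨q, h1, h2⟩ := exists_rat_btwn hab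
      exact mem_iUnion.2 ⟨q, hs q h1 h2⟩
    have hi : ∀ i : κ, ∃ C : (ι → ℝ) → ℝ → Prop, SA1 C ∧ (∀ x, {t | C x t}.Finite) ∧
        (i ∈ S → ∀ x, (∀ z, (A x z ∧ C' (ext (z k0) x) (z i) ∧ ¬ E x (z i)) →
          ∃ j ∈ S.erase i, C x (z j)) ∨
        (∀ F, Small F → ∃ z, (A x z ∧ C' (ext (z k0) x) (z i) ∧ ¬ E x (z i)) ∧
          ∀ j ∈ S.erase i, z j ∉ F)) := by
      intro i
      by_cases hiS : i ∈ S
      · obtain ⟨C, h1, h2, h3⟩ := ih (S.erase i) (hcard i hiS) ι
          (fun x z => A x z ∧ C' (ext (z k0) x) (z i) ∧ ¬ E x (z i))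
          (SAP.and (hA.subst (PV.co _) (PV.co _))
            (SAP.and (hC'.subst (PV.ext (PF.coord _) (PV.co _)) (PF.coord _))
              (SAP.not (hE.subst (PV.co _) (PF.coord _)))))
        exact ⟨C, h1, h2, fun _ => h3⟩
      · exact ⟨fun _ _ => False, SAP.const False, fun x => by simp, fun h => absurd h hiS⟩
    choose Ci hCi hCifin hCidich using hi
    refine ⟨fun x t => (B x t ∧ ¬ HasInt B x) ∨ E x t ∨ ∃ i ∈ S.erase k0, Ci i x t, ?_, ?_, ?_⟩
    · refine SAP.or (SAP.and hB (SAP.not (SAP.preimage hB.hasInt (PV.co _)))) (SAP.or hE ?_)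
      exact SAP.exists_mem _ fun i _ => hCi i
    · intro x
      have f1 : {t | B x t ∧ ¬ HasInt B x}.Finite := by
        by_cases h : HasInt B x
        · simp [h]
        · exact (hB.finite_of_not_hasInt h).subset fun t ht => ht.1
      have f3 : {t | ∃ i ∈ S.erase k0, Ci i x t}.Finite := by
        have := (S.erase k0).finite_toSet.biUnion (fun i _ => hCifin i x)
        refine this.subset fun t ht => ?_
        obtain ⟨i, h1, h2⟩ := ht
        exact mem_biUnion h1 h2
      exact (f1.union ((hEfin x).union f3)).subset fun t ht => ht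
    · intro x
      by_cases hI : HasInt B x
      · right
        intro F hF
        obtain ⟨t, ht, htF⟩ := hI.exists_notMem hF
        rcases hdich' (ext t x) with hcov | hbig
        · exact absurd (fun z h1 h2 => hcov z ⟨h1, h2⟩) ht
        · obtain ⟨z, ⟨h1, h2⟩, h3⟩ := hbig F hF
          refine ⟨z, h1, fun i hiS => ?_⟩
          by_cases hik : i = k0
          · rw [hik, h2]; exact htF
          · exact h3 i (Finset.mem_erase.2 ⟨hik, hiS⟩)
      · by_cases hall : ∀ i ∈ S.erase k0, ∀ z, (A x z ∧ C' (ext (z k0) x) (z i) ∧ ¬ E x (z i)) →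
            ∃ j ∈ S.erase i, Ci i x (z j)
        · left
          intro z hz
          by_cases hBz : B x (z k0)
          · exact ⟨k0, hk0, Or.inl ⟨hBz, hI⟩⟩
          · obtain ⟨i, hi, hc⟩ := (not_not.1 hBz) z hz rfl
            by_cases hEz : E x (z i)
            · exact ⟨i, Finset.mem_of_mem_erase hi, Or.inr (Or.inl hEz)⟩
            · obtain ⟨j, hj, hcj⟩ := hall i hi z ⟨hz, hc, hEz⟩
              exact ⟨j, Finset.mem_of_mem_erase hj, Or.inr (Or.inr ⟨i, hi, hcj⟩)⟩
        · right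
          push Not at hall
          obtain ⟨i, hi, z0, hz0, hnc⟩ := hall
          have hiS := Finset.mem_of_mem_erase hi
          have hik : i ≠ k0 := (Finset.mem_erase.1 hi).1
          rcases hCidich i hiS x with hcov | hbig
          · obtain ⟨j, hj, hcj⟩ := hcov z0 hz0
            exact absurd hcj (hnc j hj)
          · intro F hF
            have hF' : Small (⋃ e : F, {t | ¬ E x e ∧ C' (ext t x) e}) := by
              refine small_iUnion hF fun e => ?_
              by_cases he : E x e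
              · simp [he]
              · exact (hD.finite_of_not_hasInt he).subset fun t ht => ht.2
            obtain ⟨z, ⟨h1, h2, h3⟩, h4⟩ := hbig _ (hF.union hF')
            refine ⟨z, h1, fun j hj => ?_⟩
            by_cases hji : j = i
            · subst hji
              intro hzF
              refine h4 k0 (Finset.mem_erase.2 ⟨hik.symm, hk0⟩) (Or.inr ?_)
              exact mem_iUnion.2 ⟨⟨z j, hzF⟩, h3, h2⟩
            · exact fun h => h4 j (Finset.mem_erase.2 ⟨hji, hj⟩) (Or.inl h)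

/-- fibres of semialgebraic sets are Borel -/
lemma measurableSet_of_SAP {p : (ι → ℝ) → Prop} (hp : SAP p) {X : Type} [TopologicalSpace X]
    [MeasurableSpace X] [OpensMeasurableSpace X] {φ : X → ι → ℝ} (hφ : Continuous φ) :
    MeasurableSet {a | p (φ a)} := by
  classical
  obtain ⟨Q, hQ⟩ := hp
  let Φ : X → (Q → SignType) := fun a q => SignType.sign (MvPolynomial.aeval (φ a) q.1)
  have hm : ∀ σ : Q → SignType, MeasurableSet {a | Φ a = σ} := by
    intro σ
    have : {a | Φ a = σ} = ⋂ q : Q, {a | SignType.sign (MvPolynomial.aeval (φ a) q.1) = σ q} := by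
      ext a
      simp only [mem_ofPred_eq, mem_iInter, funext_iff, Φ]
    rw [this]
    refine MeasurableSet.iInter fun q => ?_
    have hc : Continuous (fun a => (MvPolynomial.aeval (φ a) q.1 : ℝ)) := by
      have : (fun a => (MvPolynomial.aeval (φ a) q.1 : ℝ)) =
          fun a => MvPolynomial.eval (φ a) (MvPolynomial.map (algebraMap ℚ ℝ) q.1) := by
        funext a
        rw [MvPolynomial.eval_map, MvPolynomial.aeval_def]
      rw [this]
      exact (MvPolynomial.continuous_eval _).comp hφ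
    rcases σ q with _ | _ | _
    · simp only [SignType.zero_eq_zero, sign_eq_zero_iff]
      exact (isClosed_eq hc continuous_const).measurableSet
    · simp only [SignType.neg_eq_neg_one, sign_eq_neg_one_iff]
      exact (isOpen_lt hc continuous_const).measurableSet
    · simp only [SignType.pos_eq_one, sign_eq_one_iff]
      exact (isOpen_lt continuous_const hc).measurableSet
  have : {a | p (φ a)} = ⋃ σ ∈ Φ '' {a | p (φ a)}, {a | Φ a = σ} := by
    ext a
    simp only [mem_ofPred_eq, mem_iUnion, mem_image, exists_prop]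
    constructor
    · intro h
      exact ⟨_, ⟨a, h, rfl⟩, rfl⟩
    · rintro ⟨σ, ⟨b, hb, rfl⟩, hab⟩
      exact hQ (φ b) (φ a) (fun q hq => (congrFun hab ⟨q, hq⟩).symm) hb
  rw [this]
  exact MeasurableSet.biUnion (Set.toFinite _).countable fun σ _ => hm σ

end Pool.Agent.H378Z.Gen
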