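import Pool.Agent.H378Z.GenA

/-!
# A generic function `ℝ → ℝ`
-/

set_option autoImplicit false

open Set Filter Topology Cardinal

namespace Pool.Agent.H378Z.Gen

open Pool.Agent.H581R2

/-- disjoint selection along a well-order of length at most the continuum -/
lemma exists_disjoint_choice {I : Type} (hI : #I ≤ 𝔠) {D : I → Type} (supp : ∀ i, D i → Set ℝ)
    (hfin : ∀ i d, (supp i d).Finite) (hbig : ∀ i F, Small F → ∃ d : D i, Disjoint (supp i d) F) :
    ∃ c : ∀ i, D i, ∀ i j, i ≠ j → Disjoint (supp i (c i)) (supp j (c j)) := by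
  classical
  obtain ⟨_, _, hord⟩ := exists_ord_eq_type_lt I
  choose pick hpick using hbig
  have hsm : ∀ (i : I) (r : ∀ j, j < i → D j), Small (⋃ j : Iio i, supp j (r j j.2)) :=
    fun i r => small_iUnion (lt_of_lt_of_le (mk_Iio_lt i hord) hI) (fun j => hfin _ _)
  let c : ∀ i, D i := WellFounded.fix (wellFounded_lt (α := I))
    (fun i r => pick i (⋃ j : Iio i, supp j (r j j.2)) (hsm i r))
  have hc : ∀ i, c i = pick i (⋃ j : Iio i, supp j (c j)) (hsm i (fun j _ => c j)) := by
    intro i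
    exact WellFounded.fix_eq _ _ i
  have key : ∀ i j, j < i → Disjoint (supp i (c i)) (supp j (c j)) := by
    intro i j hji
    have := hpick i (⋃ j : Iio i, supp j (c j)) (hsm i (fun j _ => c j))
    rw [← hc] at this
    exact this.mono_right (subset_iUnion (fun j : Iio i => supp j (c j)) ⟨j, hji⟩)
  refine ⟨c, fun i j hij => ?_⟩
  rcases lt_or_gt_of_ne hij with h | h
  · exact (key j i h).symm
  · exact key i j h

/-- a Borel requirement is big if it has injective solutions avoiding each small set -/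
def BigReq {m : ℕ} (A : Set ((Fin m → ℝ) × (Fin m → ℝ))) : Prop :=
  ∀ F, Small F → ∃ p ∈ A, Function.Injective p.1 ∧ ∀ i, p.1 i ∉ F

/-- generic functions: the graph meets every big Borel requirement -/
def Generic (f : ℝ → ℝ) : Prop :=
  ∀ (m : ℕ) (A : Set ((Fin m → ℝ) × (Fin m → ℝ))), MeasurableSet A → BigReq A →
    ∃ z : Fin m → ℝ, (z, fun i => f (z i)) ∈ A

lemma card_borel_le (X : Type) [TopologicalSpace X] [SecondCountableTopology X]
    [MeasurableSpace X] [BorelSpace X] : #{A : Set X | MeasurableSet A} ≤ 𝔠 := by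
  have h1 : ‹MeasurableSpace X› = MeasurableSpace.generateFrom (TopologicalSpace.countableBasis X) := by
    rw [BorelSpace.measurable_eq (α := X)]
    exact (TopologicalSpace.isBasis_countableBasis X).borel_eq_generateFrom
  have h2 := MeasurableSpace.cardinal_measurableSet_le_continuum
    (s := TopologicalSpace.countableBasis X)
    ((le_aleph0_iff_set_countable.2 (TopologicalSpace.countable_countableBasis X)).trans
      aleph0_le_continuum)
  rw [← h1] at h2
  exact h2

theorem exists_generic : ∃ f : ℝ → ℝ, Generic f := by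
  classical
  let I : Type := Σ m : ℕ, {A : Set ((Fin m → ℝ) × (Fin m → ℝ)) // MeasurableSet A ∧ BigReq A}
  have hI : #I ≤ 𝔠 := by
    rw [mk_sigma]
    refine (sum_le_sum _ (fun _ : ℕ => 𝔠) fun m => ?_).trans ?_
    · refine le_trans ?_ (card_borel_le ((Fin m → ℝ) × (Fin m → ℝ)))
      exact mk_subtype_mono fun A hA => hA.1
    · simp
  let D : I → Type := fun i => {p : (Fin i.1 → ℝ) × (Fin i.1 → ℝ) // p ∈ i.2.1 ∧
    Function.Injective p.1}
  obtain ⟨c, hc⟩ := exists_disjoint_choice hI (D := D) (fun i d => range d.1.1)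
    (fun i d => finite_range _) (by
      intro i F hF
      obtain ⟨p, hp, hinj, hF'⟩ := i.2.2.2 F hF
      refine ⟨⟨p, hp, hinj⟩, ?_⟩
      rw [Set.disjoint_left]
      rintro _ ⟨k, rfl⟩
      exact hF' k)
  let J : Type := Σ i : I, Fin i.1
  let a : J → ℝ := fun j => (c j.1).1.1 j.2
  let b : J → ℝ := fun j => (c j.1).1.2 j.2
  have ha : Function.Injective a := by
    rintro ⟨i, k⟩ ⟨i', k'⟩ h
    by_cases hii : i = i'
    · subst hii
      have : k = k' := (c i).2.2 h
      rw [this]
    · exfalso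
      exact Set.disjoint_left.1 (hc i i' hii) ⟨k, rfl⟩ ⟨k', h.symm⟩
  refine ⟨Function.extend a b (fun _ => 0), fun m A hA hbig => ?_⟩
  let i : I := ⟨m, A, hA, hbig⟩
  refine ⟨(c i).1.1, ?_⟩
  have : (fun k => Function.extend a b (fun _ => 0) ((c i).1.1 k)) = (c i).1.2 := by
    funext k
    exact ha.extend_apply b _ ⟨i, k⟩
  rw [this]
  exact (c i).2.1

variable {ι κ : Type}

/-- the form of genericity used for semialgebraic requirements -/
lemma Generic.solve {f : ℝ → ℝ} (hf : Generic f) [Finite κ] (S : Finset κ)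
    {θ : (ι → ℝ) → (κ → ℝ) → (κ → ℝ) → Prop} (hθ : SA3 θ) (x : ι → ℝ) {Z : Set ℝ}
    (hZ : Z.Countable)
    (hbig : ∀ F, Small F → ∃ z, (∃ w, θ x z w ∧ ∀ i ∈ S, ∀ j ∈ S, z i = z j → i = j) ∧
      ∀ i ∈ S, z i ∉ F) :
    ∃ z w, θ x z w ∧ (∀ i ∈ S, w i = f (z i)) ∧ ∀ i ∈ S, z i ∉ Z := by
  let e := S.equivFin.symm
  let P : (ι ⊕ Fin S.card ⊕ Fin S.card → ℝ) → Prop := fun v =>
    ∃ z w, θ (fun i => v (Sum.inl i)) z w ∧
      ∀ j, z (e j) = v (Sum.inr (Sum.inl j)) ∧ w (e j) = v (Sum.inr (Sum.inr j))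
  have hP : SAP P := by
    refine sap_exFin (sap_exFin (SAP.and (hθ.subst (PV.co _) (PV.co _) (PV.co _)) ?_))
    exact sap_forall_fin fun j => SAP.and (SAP.eq (PF.coord _) (PF.coord _))
      (SAP.eq (PF.coord _) (PF.coord _))
  have hm1 : MeasurableSet {p : (Fin S.card → ℝ) × (Fin S.card → ℝ) |
      P (Sum.elim x (Sum.elim p.1 p.2))} := by
    refine measurableSet_of_SAP hP ?_
    refine continuous_pi ?_
    rintro (i | j | j)
    · exact continuous_const
    · exact (continuous_apply j).comp continuous_fst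
    · exact (continuous_apply j).comp continuous_snd
  have hm2 : MeasurableSet {p : (Fin S.card → ℝ) × (Fin S.card → ℝ) | ∀ j, p.1 j ∉ Z} := by
    rw [ofPred_forall]
    refine MeasurableSet.iInter fun j => ?_
    exact (hZ.measurableSet.compl).preimage ((measurable_pi_apply j).comp measurable_fst)
  obtain ⟨a, ⟨z, w, h1, h2⟩, h3⟩ := hf _ _ (hm1.inter hm2) (by
    intro F hF
    obtain ⟨z, ⟨w, h1, h2⟩, h3⟩ := hbig (F ∪ Z) (hF.union (small_of_countable hZ))
    refine ⟨(fun j => z (e j), fun j => w (e j)), ⟨⟨z, w, h1, fun j => ⟨rfl, rfl⟩⟩, ?_⟩, ?_, ?_⟩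
    · exact fun j h => h3 _ (e j).2 (Or.inr h)
    · intro j j' h
      exact e.injective (Subtype.ext (h2 _ (e j).2 _ (e j').2 h))
    · exact fun j h => h3 _ (e j).2 (Or.inl h))
  refine ⟨z, w, h1, fun i hi => ?_, fun i hi => ?_⟩
  · obtain ⟨j, hj⟩ := e.surjective ⟨i, hi⟩
    have hj' : (e j : κ) = i := by rw [hj]
    have := h2 j
    simp only [Sum.elim_inr, Sum.elim_inl, hj'] at this
    rw [this.2, this.1]
  · obtain ⟨j, hj⟩ := e.surjective ⟨i, hi⟩
    have hj' : (e j : κ) = i := by rw [hj]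
    have := h2 j
    simp only [Sum.elim_inr, Sum.elim_inl, hj'] at this
    rw [this.1]
    exact h3 j

/-- the pair `(f x, f (x+1))` takes every value -/
lemma Generic.surj {f : ℝ → ℝ} (hf : Generic f) (a b : ℝ) : ∃ x, f x = a ∧ f (x + 1) = b := by
  obtain ⟨z, hz⟩ := hf 2 {p | p.1 1 = p.1 0 + 1 ∧ p.2 0 = a ∧ p.2 1 = b} (by
    refine IsClosed.measurableSet ?_
    refine (isClosed_eq (by fun_prop) (by fun_prop)).inter
      ((isClosed_eq (by fun_prop) (by fun_prop)).inter (isClosed_eq (by fun_prop) (by fun_prop))))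
    (by
      intro F hF
      have hF' : Small ((fun t => t - 1) '' F) := lt_of_le_of_lt mk_image_le hF
      have hU := hF.union hF'
      have : ∃ t, t ∉ F ∪ (fun t => t - 1) '' F := by
        by_contra hcon
        push Not at hcon
        have h2 := hU.mono (F := univ) (fun t _ => hcon t)
        unfold Small at h2
        rw [mk_univ, mk_real] at h2
        exact lt_irrefl _ h2
      obtain ⟨t, ht⟩ := this
      refine ⟨(![t, t + 1], ![a, b]), ⟨rfl, rfl, rfl⟩, ?_, ?_⟩
      · intro i j h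
        fin_cases i <;> fin_cases j <;> simp at h ⊢
      · intro i
        fin_cases i
        · exact fun h => ht (Or.inl h)
        · exact fun h => ht (Or.inr ⟨t + 1, h, by simp⟩))
  obtain ⟨h1, h2, h3⟩ := hz
  exact ⟨z 0, h2, by rw [← h1]; exact h3⟩

end Pool.Agent.H378Z.Gen
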