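import Pool.Agent.H378Z.GenB

/-!
# Existentially defined sets over a generic function: closure under complement
-/

set_option autoImplicit false

open Set Filter Topology Cardinal

namespace Pool.Agent.H378Z.Gen

open Pool.Agent.H581R2

variable {ι μ : Type} {f : ℝ → ℝ}

/-- predicates of the form `∃ z, θ(x, z, f z)` with `θ` semialgebraic -/
def EX (f : ℝ → ℝ) (p : (ι → ℝ) → Prop) : Prop :=
  ∃ (κ : Type) (_ : Finite κ) (θ : (ι → ℝ) → (κ → ℝ) → (κ → ℝ) → Prop), SA3 θ ∧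
    ∀ x, p x ↔ ∃ z, θ x z (fun k => f (z k))

lemma EX.congr {p q : (ι → ℝ) → Prop} (hp : EX f p) (h : ∀ v, q v ↔ p v) : EX f q := by
  have : q = p := funext fun v => propext (h v)
  rwa [this]

lemma EX.of_sap {p : (ι → ℝ) → Prop} (hp : SAP p) : EX f p :=
  ⟨Empty, inferInstance, fun x _ _ => p x, SAP.preimage hp (PV.co _), fun x => by simp⟩

lemma EX.subst {p : (ι → ℝ) → Prop} (hp : EX f p) {φ : (μ → ℝ) → ι → ℝ} (hφ : ∀ i, ∃ q :
    MvPolynomial μ ℚ, ∀ u, φ u i = MvPolynomial.aeval u q) : EX f (fun u => p (φ u)) := by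
  obtain ⟨κ, hκ, θ, hθ, h⟩ := hp
  refine ⟨κ, hκ, fun u z w => θ (φ u) z w, ?_, fun u => h _⟩
  refine hθ.subst (fun i => ?_) (PV.co _) (PV.co _)
  exact PF.comp (hφ i) (PV.co _)

lemma EX.and {p q : (ι → ℝ) → Prop} (hp : EX f p) (hq : EX f q) : EX f (fun v => p v ∧ q v) := by
  obtain ⟨κ, hκ, θ, hθ, h⟩ := hp
  obtain ⟨κ', hκ', θ', hθ', h'⟩ := hq
  refine ⟨κ ⊕ κ', inferInstance, fun x z w =>
    θ x (fun k => z (Sum.inl k)) (fun k => w (Sum.inl k)) ∧
      θ' x (fun k => z (Sum.inr k)) (fun k => w (Sum.inr k)), ?_, fun x => ?_⟩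
  · exact SAP.and (hθ.subst (PV.co _) (PV.co _) (PV.co _)) (hθ'.subst (PV.co _) (PV.co _) (PV.co _))
  · show p x ∧ q x ↔ _
    rw [h, h']
    constructor
    · rintro ⟨⟨z, hz⟩, ⟨z', hz'⟩⟩
      exact ⟨Sum.elim z z', hz, hz'⟩
    · rintro ⟨z, hz, hz'⟩
      exact ⟨⟨_, hz⟩, ⟨_, hz'⟩⟩

lemma EX.forall_mem {α : Type} (s : Finset α) {p : α → (ι → ℝ) → Prop}
    (h : ∀ a ∈ s, EX f (p a)) : EX f (fun v => ∀ a ∈ s, p a v) := by
  classical
  induction s using Finset.induction_on with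
  | empty => exact EX.congr (EX.of_sap (SAP.const True)) (by simp)
  | insert a s ha ih =>
    exact EX.congr ((h a (by simp)).and (ih fun b hb => h b (by simp [hb]))) (by simp)

lemma EX.forall_fin {α : Type} [Finite α] {p : α → (ι → ℝ) → Prop}
    (h : ∀ a, EX f (p a)) : EX f (fun v => ∀ a, p a v) := by
  have := Fintype.ofFinite α
  exact EX.congr (EX.forall_mem Finset.univ fun a _ => h a) (by simp)

lemma EX.exFin [Finite μ] {q : (ι → ℝ) → (μ → ℝ) → Prop}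
    (hq : EX f (fun v : ι ⊕ μ → ℝ => q (fun i => v (Sum.inl i)) (fun k => v (Sum.inr k)))) :
    EX f (fun x => ∃ c, q x c) := by
  obtain ⟨κ, hκ, θ, hθ, h⟩ := hq
  refine ⟨κ, hκ, fun x z w => ∃ c : μ → ℝ, θ (Sum.elim x c) z w, ?_, fun x => ?_⟩
  · exact sap_exFin (hθ.subst (PV.elim (PV.co _) (PV.co _)) (PV.co _) (PV.co _))
  · constructor
    · rintro ⟨c, hc⟩
      obtain ⟨z, hz⟩ := (h (Sum.elim x c)).1 hc
      exact ⟨z, c, hz⟩
    · rintro ⟨z, c, hz⟩
      exact ⟨c, (h (Sum.elim x c)).2 ⟨z, hz⟩⟩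

lemma EX.ex {q : (ι → ℝ) → ℝ → Prop}
    (hq : EX f (fun v : Option ι → ℝ => q (fun i => v (some i)) (v none))) :
    EX f (fun x => ∃ t, q x t) := by
  obtain ⟨κ, hκ, θ, hθ, h⟩ := hq
  refine ⟨κ, hκ, fun x z w => ∃ t : ℝ, θ (ext t x) z w, ?_, fun x => ?_⟩
  · exact sap_ex (hθ.subst (PV.ext (PF.coord _) (PV.co _)) (PV.co _) (PV.co _))
  · constructor
    · rintro ⟨c, hc⟩
      obtain ⟨z, hz⟩ := (h (ext c x)).1 hc
      exact ⟨z, c, hz⟩
    · rintro ⟨z, c, hz⟩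
      exact ⟨c, (h (ext c x)).2 ⟨z, hz⟩⟩

lemma EX.graph (i j : ι) : EX f (fun v : ι → ℝ => f (v i) = v j) := by
  refine ⟨Unit, inferInstance, fun x z w => z () = x i ∧ w () = x j, ?_, fun x => ?_⟩
  · exact SAP.and (SAP.eq (PF.coord _) (PF.coord _)) (SAP.eq (PF.coord _) (PF.coord _))
  · constructor
    · intro h
      exact ⟨fun _ => x i, rfl, h⟩
    · rintro ⟨z, h1, h2⟩
      rw [← h1]; exact h2

/-- enumeration of a finite set of bounded size -/
lemma exists_enum {N : ℕ} {Z : Finset ℝ} (hZ : Z.card ≤ N) :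
    ∃ c : Fin N → ℝ, ∀ t ∈ Z, ∃ j, c j = t := by
  classical
  let e := Z.equivFin.symm
  refine ⟨fun j => if h : j.1 < Z.card then (e ⟨j.1, h⟩ : ℝ) else 0, fun t ht => ?_⟩
  obtain ⟨k, hk⟩ := e.surjective ⟨t, ht⟩
  refine ⟨⟨k.1, lt_of_lt_of_le k.2 hZ⟩, ?_⟩
  simp only [k.2, dif_pos, Fin.eta, hk]

theorem EX.not_aux (hf : Generic f) {κ : Type} [Finite κ] [DecidableEq κ] (n : ℕ) :
    ∀ (S : Finset κ), S.card = n → ∀ (ι : Type) (θ : (ι → ℝ) → (κ → ℝ) → (κ → ℝ) → Prop), SA3 θ →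
    EX f (fun x => ¬ ∃ z w, θ x z w ∧ ∀ i ∈ S, w i = f (z i)) := by
  induction n with
  | zero =>
    intro S hS ι θ hθ
    rw [Finset.card_eq_zero] at hS
    subst hS
    refine EX.of_sap (SAP.congr (p := fun x => ¬ ∃ z w, θ x z w) ?_ (by simp))
    exact SAP.not (sap_exFin (sap_exFin (hθ.subst (PV.co _) (PV.co _) (PV.co _))))
  | succ n ih =>
    intro S hS ι θ hθ
    have hcard : ∀ i ∈ S, (S.erase i).card = n := fun i hi => by
      rw [Finset.card_erase_of_mem hi]; omega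
    let A : (ι → ℝ) → (κ → ℝ) → Prop := fun x z =>
      ∃ w, θ x z w ∧ ∀ i ∈ S, ∀ j ∈ S, z i = z j → i = j
    have hA : SA2 A := by
      refine sap_exFin (SAP.and (hθ.subst (PV.co _) (PV.co _) (PV.co _)) ?_)
      exact SAP.forall_mem _ fun i _ => SAP.forall_mem _ fun j _ =>
        SAP.imp (SAP.eq (PF.coord _) (PF.coord _)) (SAP.const _)
    obtain ⟨C, hC, hfin, hdich⟩ := cover _ S hS ι A hA
    obtain ⟨N, hN⟩ := hC.dichotomy
    -- the three ingredients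
    have e1 : EX f (fun v : ι ⊕ Fin N → ℝ => ∀ z, A (fun i => v (Sum.inl i)) z →
        ∃ i ∈ S, ∃ j, z i = v (Sum.inr j)) := by
      refine EX.of_sap (sap_allFin (SAP.imp (hA.subst (PV.co _) (PV.co _)) ?_))
      exact SAP.exists_mem _ fun i _ => SAP.exists_fin fun j => SAP.eq (PF.coord _) (PF.coord _)
    have e2 : EX f (fun v : ι ⊕ Fin N → ℝ => ∀ i ∈ S, ∀ j, ¬ ∃ z w,
        (θ (fun i => v (Sum.inl i)) z w ∧ z i = v (Sum.inr j)) ∧ ∀ k ∈ S, w k = f (z k)) := by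
      refine EX.forall_mem _ fun i hi => EX.forall_fin fun j => ?_
      have h1 := ih (S.erase i) (hcard i hi) (Option (ι ⊕ Fin N))
        (fun y z w => θ (fun i => y (some (Sum.inl i))) z w ∧ z i = y (some (Sum.inr j)) ∧
          w i = y none)
        (SAP.and (hθ.subst (PV.co _) (PV.co _) (PV.co _))
          (SAP.and (SAP.eq (PF.coord _) (PF.coord _)) (SAP.eq (PF.coord _) (PF.coord _))))
      have h2 := EX.ex (f := f) (q := fun (v : ι ⊕ Fin N → ℝ) u => f (v (Sum.inr j)) = u ∧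
        ¬ ∃ z w, (θ (fun i => v (Sum.inl i)) z w ∧ z i = v (Sum.inr j) ∧ w i = u) ∧
          ∀ k ∈ S.erase i, w k = f (z k)) ((EX.graph _ _).and h1)
      refine h2.congr fun v => ⟨fun h => ⟨_, rfl, ?_⟩, ?_⟩
      · rintro ⟨z, w, ⟨a1, a2, a3⟩, a4⟩
        refine h ⟨z, w, ⟨a1, a2⟩, fun k hk => ?_⟩
        by_cases hki : k = i
        · rw [hki, a3, a2]
        · exact a4 k (Finset.mem_erase.2 ⟨hki, hk⟩)
      · rintro ⟨u, rfl, h⟩ ⟨z, w, ⟨a1, a2⟩, a4⟩
        exact h ⟨z, w, ⟨a1, a2, by rw [a4 i hi, a2]⟩, fun k hk => a4 k (Finset.mem_of_mem_erase hk)⟩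
    have e3 : EX f (fun x : ι → ℝ => ∀ i ∈ S, ∀ j ∈ S.erase i, ¬ ∃ z w,
        (θ x z w ∧ z i = z j) ∧ ∀ k ∈ S, w k = f (z k)) := by
      refine EX.forall_mem _ fun i hi => EX.forall_mem _ fun j hj => ?_
      have h1 := ih (S.erase i) (hcard i hi) ι
        (fun x z w => θ x z w ∧ z i = z j ∧ w i = w j)
        (SAP.and hθ
          (SAP.and (SAP.eq (PF.coord _) (PF.coord _)) (SAP.eq (PF.coord _) (PF.coord _))))
      refine h1.congr fun x => not_congr ⟨?_, ?_⟩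
      · rintro ⟨z, w, ⟨a1, a2⟩, a4⟩
        refine ⟨z, w, ⟨a1, a2, ?_⟩, fun k hk => a4 k (Finset.mem_of_mem_erase hk)⟩
        rw [a4 i hi, a4 j (Finset.mem_of_mem_erase hj), a2]
      · rintro ⟨z, w, ⟨a1, a2, a3⟩, a4⟩
        refine ⟨z, w, ⟨a1, a2⟩, fun k hk => ?_⟩
        by_cases hki : k = i
        · rw [hki, a3, a2, a4 j hj]
        · exact a4 k (Finset.mem_erase.2 ⟨hki, hk⟩)
    have e4 := (EX.exFin (f := f) (q := fun (x : ι → ℝ) (c : Fin N → ℝ) =>
      (∀ z, A x z → ∃ i ∈ S, ∃ j, z i = c j) ∧ ∀ i ∈ S, ∀ j, ¬ ∃ z w,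
        (θ x z w ∧ z i = c j) ∧ ∀ k ∈ S, w k = f (z k)) (e1.and e2)).and e3
    refine e4.congr fun x => ⟨fun h => ⟨?_, ?_⟩, ?_⟩
    · rcases hdich x with hcov | hbig
      · rcases hN x with ⟨Z, hZ, hZC⟩ | hI
        · obtain ⟨c, hc⟩ := exists_enum hZ
          refine ⟨c, fun z hz => ?_, ?_⟩
          · obtain ⟨i, hi, hci⟩ := hcov z hz
            obtain ⟨j, hj⟩ := hc _ (hZC _ hci)
            exact ⟨i, hi, j, hj.symm⟩
          · rintro i _ j ⟨z, w, ⟨a1, -⟩, a4⟩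
            exact h ⟨z, w, a1, a4⟩
        · obtain ⟨t, h1, h2⟩ := hI.exists_notMem (small_of_countable (hfin x).countable)
          exact absurd h1 h2
      · obtain ⟨z, w, a1, a2, -⟩ := hf.solve S hθ x countable_empty hbig
        exact absurd ⟨z, w, a1, a2⟩ h
    · rintro i _ j _ ⟨z, w, ⟨a1, -⟩, a4⟩
      exact h ⟨z, w, a1, a4⟩
    · rintro ⟨⟨c, h1, h2⟩, h3⟩ ⟨z, w, a1, a4⟩
      by_cases hinj : ∀ i ∈ S, ∀ j ∈ S, z i = z j → i = j
      · obtain ⟨i, hi, j, hij⟩ := h1 z ⟨w, a1, hinj⟩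
        exact h2 i hi j ⟨z, w, ⟨a1, hij⟩, a4⟩
      · push Not at hinj
        obtain ⟨i, hi, j, hj, hz, hij⟩ := hinj
        exact h3 i hi j (Finset.mem_erase.2 ⟨hij.symm, hj⟩) ⟨z, w, ⟨a1, hz⟩, a4⟩

theorem EX.not (hf : Generic f) {p : (ι → ℝ) → Prop} (hp : EX f p) : EX f (fun x => ¬ p x) := by
  classical
  obtain ⟨κ, hκ, θ, hθ, h⟩ := hp
  have := Fintype.ofFinite κ
  refine (EX.not_aux hf _ Finset.univ rfl ι θ hθ).congr fun x => not_congr ?_
  rw [h]
  constructor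
  · rintro ⟨z, hz⟩
    exact ⟨z, _, hz, fun _ _ => rfl⟩
  · rintro ⟨z, w, h1, h2⟩
    refine ⟨z, ?_⟩
    have : w = fun k => f (z k) := funext fun k => h2 k (Finset.mem_univ k)
    rwa [this] at h1

lemma EX.imp (hf : Generic f) {p q : (ι → ℝ) → Prop} (hp : EX f p) (hq : EX f q) :
    EX f (fun v => p v → q v) :=
  ((hp.and (hq.not hf)).not hf).congr fun v => by tauto

lemma EX.all (hf : Generic f) {q : (ι → ℝ) → ℝ → Prop}
    (hq : EX f (fun v : Option ι → ℝ => q (fun i => v (some i)) (v none))) :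
    EX f (fun x => ∀ t, q x t) :=
  ((EX.ex (q := fun x t => ¬ q x t) (hq.not hf)).not hf).congr fun v => by simp

theorem finite_aux (hf : Generic f) {κ : Type} [Finite κ] [DecidableEq κ] (k0 : κ) (n : ℕ) :
    ∀ (S : Finset κ), S.card = n → k0 ∈ S →
    ∀ (ι : Type) (θ : (ι → ℝ) → (κ → ℝ) → (κ → ℝ) → Prop), SA3 θ → ∀ x : ι → ℝ,
    {t | ∃ z w, (θ x z w ∧ ∀ i ∈ S, w i = f (z i)) ∧ z k0 = t}.Countable →
    {t | ∃ z w, (θ x z w ∧ ∀ i ∈ S, w i = f (z i)) ∧ z k0 = t}.Finite := by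
  induction n with
  | zero =>
    intro S hS hk
    rw [Finset.card_eq_zero] at hS
    subst hS
    simp at hk
  | succ n ih =>
    intro S hS hk0 ι θ hθ x hT
    have hcard : ∀ i ∈ S, (S.erase i).card = n := fun i hi => by
      rw [Finset.card_erase_of_mem hi]; omega
    let A : (ι → ℝ) → (κ → ℝ) → Prop := fun x z =>
      ∃ w, θ x z w ∧ ∀ i ∈ S, ∀ j ∈ S, z i = z j → i = j
    have hA : SA2 A := by
      refine sap_exFin (SAP.and (hθ.subst (PV.co _) (PV.co _) (PV.co _)) ?_)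
      exact SAP.forall_mem _ fun i _ => SAP.forall_mem _ fun j _ =>
        SAP.imp (SAP.eq (PF.coord _) (PF.coord _)) (SAP.const _)
    obtain ⟨C, hC, hfin, hdich⟩ := cover _ S hS ι A hA
    rcases hdich x with hcov | hbig
    · have f2 : ∀ i ∈ S.erase k0, ∀ c : ℝ, {t | ∃ z w, ((θ x z w ∧ z i = c ∧ w i = f c) ∧
          ∀ k ∈ S.erase i, w k = f (z k)) ∧ z k0 = t}.Finite := by
        intro i hi c
        have hiS := Finset.mem_of_mem_erase hi
        refine ih (S.erase i) (hcard i hiS)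
          (Finset.mem_erase.2 ⟨(Finset.mem_erase.1 hi).1.symm, hk0⟩) (Option (Option ι))
          (fun y z w => θ (fun i => y (some (some i))) z w ∧ z i = y (some none) ∧ w i = y none)
          (SAP.and (hθ.subst (PV.co _) (PV.co _) (PV.co _))
            (SAP.and (SAP.eq (PF.coord _) (PF.coord _)) (SAP.eq (PF.coord _) (PF.coord _))))
          (ext (f c) (ext c x)) (hT.mono ?_)
        rintro t ⟨z, w, ⟨⟨a1, a2, a3⟩, a4⟩, a5⟩
        refine ⟨z, w, ⟨a1, fun k hk => ?_⟩, a5⟩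
        by_cases hki : k = i
        · rw [hki, a3, a2]; rfl
        · exact a4 k (Finset.mem_erase.2 ⟨hki, hk⟩)
      have f3 : ∀ i ∈ S.erase k0, ∀ j ∈ S.erase i, {t | ∃ z w, ((θ x z w ∧ z i = z j ∧ w i = w j) ∧
          ∀ k ∈ S.erase i, w k = f (z k)) ∧ z k0 = t}.Finite := by
        intro i hi j hj
        have hiS := Finset.mem_of_mem_erase hi
        refine ih (S.erase i) (hcard i hiS)
          (Finset.mem_erase.2 ⟨(Finset.mem_erase.1 hi).1.symm, hk0⟩) ι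
          (fun x z w => θ x z w ∧ z i = z j ∧ w i = w j)
          (SAP.and hθ
            (SAP.and (SAP.eq (PF.coord _) (PF.coord _)) (SAP.eq (PF.coord _) (PF.coord _))))
          x (hT.mono ?_)
        rintro t ⟨z, w, ⟨⟨a1, a2, a3⟩, a4⟩, a5⟩
        refine ⟨z, w, ⟨a1, fun k hk => ?_⟩, a5⟩
        by_cases hki : k = i
        · rw [hki, a3, a2, a4 j hj]
        · exact a4 k (Finset.mem_erase.2 ⟨hki, hk⟩)
      have g2 := (S.erase k0).finite_toSet.biUnion fun i hi => (hfin x).biUnion fun c _ => f2 i hi c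
      have g3 := (S.erase k0).finite_toSet.biUnion fun i hi =>
        (S.erase i).finite_toSet.biUnion fun j hj => f3 i hi j hj
      refine ((hfin x).union (g2.union g3)).subset ?_
      rintro t ⟨z, w, ⟨a1, a4⟩, rfl⟩
      by_cases hinj : ∀ i ∈ S, ∀ j ∈ S, z i = z j → i = j
      · obtain ⟨i, hi, hci⟩ := hcov z ⟨w, a1, hinj⟩
        by_cases hik : i = k0
        · left; rw [← hik]; exact hci
        · right; left
          refine mem_biUnion (Finset.mem_erase.2 ⟨hik, hi⟩) (mem_biUnion hci ?_)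
          exact ⟨z, w, ⟨⟨a1, rfl, a4 i hi⟩, fun k hk => a4 k (Finset.mem_of_mem_erase hk)⟩, rfl⟩
      · right; right
        push Not at hinj
        obtain ⟨i, hi, j, hj, hz, hij⟩ := hinj
        have hw : w i = w j := by rw [a4 i hi, a4 j hj, hz]
        by_cases hik : i = k0
        · have hjk : j ≠ k0 := fun h => hij (hik.trans h.symm)
          refine mem_biUnion (Finset.mem_erase.2 ⟨hjk, hj⟩)
            (mem_biUnion (Finset.mem_erase.2 ⟨hij, hi⟩) ?_)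
          exact ⟨z, w, ⟨⟨a1, hz.symm, hw.symm⟩,
            fun k hk => a4 k (Finset.mem_of_mem_erase hk)⟩, rfl⟩
        · refine mem_biUnion (Finset.mem_erase.2 ⟨hik, hi⟩)
            (mem_biUnion (Finset.mem_erase.2 ⟨hij.symm, hj⟩) ?_)
          exact ⟨z, w, ⟨⟨a1, hz, hw⟩, fun k hk => a4 k (Finset.mem_of_mem_erase hk)⟩, rfl⟩
    · obtain ⟨z, w, a1, a2, a3⟩ := hf.solve S hθ x hT hbig
      exact absurd ⟨z, w, ⟨a1, a2⟩, rfl⟩ (a3 k0 hk0)

/-- a countable existentially defined subset of the line is finite -/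
theorem EX.finite_of_countable (hf : Generic f) {q : (ι → ℝ) → ℝ → Prop}
    (hq : EX f (fun v : Option ι → ℝ => q (fun i => v (some i)) (v none))) (x : ι → ℝ)
    (hc : {t | q x t}.Countable) : {t | q x t}.Finite := by
  classical
  obtain ⟨κ, hκ, θ, hθ, h⟩ := hq
  have := Fintype.ofFinite κ
  have e : {t | q x t} = {t | ∃ z w : Option κ → ℝ,
      (θ (ext (z none) x) (fun k => z (some k)) (fun k => w (some k)) ∧
        ∀ i ∈ (Finset.univ : Finset (Option κ)), w i = f (z i)) ∧ z none = t} := by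
    ext t
    refine (h (ext t x)).trans ⟨?_, ?_⟩
    · rintro ⟨z, hz⟩
      exact ⟨ext t z, fun o => f (ext t z o), ⟨hz, fun _ _ => rfl⟩, rfl⟩
    · rintro ⟨z, w, ⟨h1, h2⟩, rfl⟩
      refine ⟨fun k => z (some k), ?_⟩
      have : (fun k => w (some k)) = fun k => f (z (some k)) :=
        funext fun k => h2 _ (Finset.mem_univ _)
      rwa [this] at h1
  rw [e] at hc ⊢
  exact finite_aux hf none _ Finset.univ rfl (Finset.mem_univ _) ι
    (fun x z w => θ (ext (z none) x) (fun k => z (some k)) (fun k => w (some k)))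
    (hθ.subst (PV.ext (PF.coord _) (PV.co _)) (PV.co _) (PV.co _)) x hc

end Pool.Agent.H378Z.Gen
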