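import Pool.Agent.H378Z.GenC

/-!
# The real field with a generic function as a first-order structure
-/

set_option autoImplicit false

open Set Filter Topology Cardinal FirstOrder

namespace Pool.Agent.H378Z.Gen

open Pool.Agent.H581R2

/-- relation symbols: graphs of addition and multiplication, the order, the graph of `f` -/
inductive Rel : ℕ → Type
  | add : Rel 3
  | mul : Rel 3
  | lt : Rel 2
  | gr : Rel 2

/-- the relational language of ordered fields with one more binary relation symbol -/
def lang : FirstOrder.Language.{0, 0} := ⟨fun _ => Empty, Rel⟩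

/-- interpretation of the symbols -/
def relMap (f : ℝ → ℝ) : ∀ {n : ℕ}, Rel n → (Fin n → ℝ) → Prop
  | _, Rel.add, v => v 0 + v 1 = v 2
  | _, Rel.mul, v => v 0 * v 1 = v 2
  | _, Rel.lt, v => v 0 < v 1
  | _, Rel.gr, v => f (v 0) = v 1

/-- the structure `(ℝ, +, *, <, f)` -/
@[reducible] def str (f : ℝ → ℝ) : lang.Structure ℝ where
  funMap := fun g _ => Empty.elim g
  RelMap := fun R v => relMap f R v

variable {f : ℝ → ℝ}

lemma term_var {β : Type} (t : lang.Term β) : ∃ b, t = Language.Term.var b := by
  cases t with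
  | var b => exact ⟨b, rfl⟩
  | func g _ => exact Empty.elim g

lemma sum_eta {α : Type} {n : ℕ} (v : α ⊕ Fin n → ℝ) :
    Sum.elim (fun a => v (Sum.inl a)) (fun k => v (Sum.inr k)) = v := by
  funext i
  cases i <;> rfl

lemma ex_of_formula (hf : Generic f) {α : Type} {n : ℕ} (φ : lang.BoundedFormula α n) :
    EX f (fun v : α ⊕ Fin n → ℝ => @Language.BoundedFormula.Realize lang ℝ (str f) α n φ
      (fun a => v (Sum.inl a)) (fun k => v (Sum.inr k))) := by
  let _ := str f
  induction φ with
  | falsum => exact EX.of_sap (SAP.const False)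
  | equal t₁ t₂ =>
    obtain ⟨a, rfl⟩ := term_var t₁
    obtain ⟨b, rfl⟩ := term_var t₂
    refine (EX.of_sap (SAP.eq (PF.coord a) (PF.coord b))).congr fun v => ?_
    simp only [Language.BoundedFormula.Realize, sum_eta, Language.Term.realize]
  | rel R ts =>
    choose b hb using fun i => term_var (ts i)
    have hts : ts = fun i => Language.Term.var (b i) := funext hb
    subst hts
    simp only [Language.BoundedFormula.Realize, sum_eta, Language.Term.realize]
    cases R with
    | add => exact EX.of_sap (SAP.eq ((PF.coord (b 0)).add (PF.coord (b 1))) (PF.coord (b 2)))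
    | mul => exact EX.of_sap (SAP.eq ((PF.coord (b 0)).mul (PF.coord (b 1))) (PF.coord (b 2)))
    | lt => exact EX.of_sap (SAP.lt (PF.coord (b 0)) (PF.coord (b 1)))
    | gr => exact EX.graph (b 0) (b 1)
  | imp φ₁ φ₂ ih₁ ih₂ => exact EX.imp hf ih₁ ih₂
  | @all n φ ih =>
    refine EX.all hf (q := fun (v : α ⊕ Fin n → ℝ) t => φ.Realize (fun a => v (Sum.inl a))
      (Fin.snoc (fun k => v (Sum.inr k)) t)) ?_
    refine ih.subst (φ := fun (u : Option (α ⊕ Fin n) → ℝ) =>
      Sum.elim (fun a => u (some (Sum.inl a)))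
        (Fin.snoc (α := fun _ => ℝ) (fun k => u (some (Sum.inr k))) (u none))) ?_
    refine PV.elim (PV.co _) (fun k => ?_)
    refine Fin.lastCases ?_ (fun j => ?_) k
    · simpa only [Fin.snoc_last] using PF.coord (ι := Option (α ⊕ Fin n)) none
    · simpa only [Fin.snoc_castSucc] using PF.coord (ι := Option (α ⊕ Fin n)) (some (Sum.inr j))

lemma ex_of_definable (hf : Generic f) {β : Type} {s : Set (β → ℝ)}
    (hs : @Set.Definable ℝ univ lang (str f) β s) :
    ∃ (ι : Type) (x : ι → ℝ) (p : (ι ⊕ β → ℝ) → Prop), EX f p ∧ ∀ v, v ∈ s ↔ p (Sum.elim x v) := by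
  let _ := str f
  obtain ⟨φ, rfl⟩ := Set.definable_iff_exists_formula_sum.1 hs
  refine ⟨(univ : Set ℝ), (↑), fun u => φ.Realize u, ?_, fun v => Iff.rfl⟩
  have := (ex_of_formula hf φ).subst (φ := fun (u : (univ : Set ℝ) ⊕ β → ℝ) =>
    Sum.elim u (fun k : Fin 0 => k.elim0)) (PV.elim PV.id (fun k => k.elim0))
  refine this.congr fun u => ?_
  exact iff_of_eq (congrArg (fun xs : Fin 0 → ℝ => Language.BoundedFormula.Realize φ u xs)
    (Subsingleton.elim _ _))

/-- every countable definable set is finite -/
theorem finite_of_countable (hf : Generic f) {n : ℕ} {D : Set (Fin n → ℝ)}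
    (hD : @Set.Definable ℝ univ lang (str f) (Fin n) D) (hc : D.Countable) : D.Finite := by
  obtain ⟨ι, x, p, hp, h⟩ := ex_of_definable hf hD
  have key : ∀ j : Fin n, ((fun v : Fin n → ℝ => v j) '' D).Finite := by
    intro j
    have e : (fun v : Fin n → ℝ => v j) '' D = {t | ∃ v : Fin n → ℝ, p (Sum.elim x v) ∧ v j = t} := by
      ext t
      simp only [mem_image, h, mem_ofPred_eq]
    have hc' := hc.image (fun v : Fin n → ℝ => v j)
    rw [e] at hc' ⊢
    refine EX.finite_of_countable hf
      (q := fun (x : ι → ℝ) t => ∃ v : Fin n → ℝ, p (Sum.elim x v) ∧ v j = t) ?_ x hc'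
    refine EX.exFin (q := fun (y : Option ι → ℝ) (v : Fin n → ℝ) =>
      p (Sum.elim (fun i => y (some i)) v) ∧ v j = y none) ?_
    exact (hp.subst (PV.elim (PV.co _) (PV.co _))).and
      (EX.of_sap (SAP.eq (PF.coord _) (PF.coord _)))
  exact (Set.Finite.pi' key).subset fun v hv j => ⟨v, hv, rfl⟩

/-- every discrete definable set is finite -/
theorem finite_of_discrete (hf : Generic f) {n : ℕ} {D : Set (Fin n → ℝ)}
    (hD : @Set.Definable ℝ univ lang (str f) (Fin n) D) (hd : DiscreteTopology D) : D.Finite := by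
  refine finite_of_countable hf hD ?_
  have : Countable D := TopologicalSpace.separableSpace_iff_countable.1 inferInstance
  exact Set.countable_coe_iff.1 this

lemma nowhereDense_of_finite {s : Set ℝ} (hs : s.Finite) : IsNowhereDense s := by
  rw [hs.isClosed.isNowhereDense_iff]
  by_contra h
  obtain ⟨x, hx⟩ := Set.nonempty_iff_ne_empty.2 h
  exact (infinite_of_mem_nhds x (mem_interior_iff_mem_nhds.1 hx)) hs

lemma definable_rel (f : ℝ → ℝ) {n : ℕ} (R : Rel n) (A : Set ℝ) :
    @Set.Definable ℝ A lang (str f) (Fin n) {v | relMap f R v} := by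
  let _ := str f
  refine Set.Definable.mono ?_ (empty_subset A)
  rw [Set.empty_definable_iff]
  exact ⟨Language.Relations.formula (L := lang) R (fun i => Language.Term.var i), by
    ext v
    rfl⟩

lemma definableFun_f (f : ℝ → ℝ) (A : Set ℝ) {α : Type} {h : (α → ℝ) → ℝ}
    (hh : @Set.DefinableFun ℝ lang (str f) α A h) :
    @Set.DefinableFun ℝ lang (str f) α A (fun v => f (h v)) := by
  let _ := str f
  have h1 : A.DefinableFun lang (fun v : Fin 1 → ℝ => f (v 0)) := by
    have := (definable_rel f Rel.gr A).preimage_comp (β := Option (Fin 1)) ![some 0, none]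
    exact this
  exact Set.DefinableFun.comp (g := fun v (_ : Fin 1) => h v) (fun _ => hh) h1

lemma definableFun_add (f : ℝ → ℝ) (A : Set ℝ) {α : Type} {h k : (α → ℝ) → ℝ}
    (hh : @Set.DefinableFun ℝ lang (str f) α A h) (hk : @Set.DefinableFun ℝ lang (str f) α A k) :
    @Set.DefinableFun ℝ lang (str f) α A (fun v => h v + k v) := by
  let _ := str f
  have h1 : A.DefinableFun lang (fun v : Fin 2 → ℝ => v 0 + v 1) := by
    have := (definable_rel f Rel.add A).preimage_comp (β := Option (Fin 2)) ![some 0, some 1, none]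
    exact this
  refine Set.DefinableFun.comp (g := fun v => ![h v, k v]) ?_ h1
  intro i
  fin_cases i
  · exact hh
  · exact hk

end Pool.Agent.H378Z.Gen
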