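import Mathlib

/-!
# No dimension function in the presence of a definable surjection from the line onto the plane
-/

set_option autoImplicit false

open Set FirstOrder

namespace Pool.Agent.H378Z.Gen

variable {K : Type} {L : FirstOrder.Language.{0, 0}} [L.Structure K]

/-- the fibre of `C` over `x` -/
def fib {n : ℕ} (C : Set (Fin (n + 1) → K)) (x : Fin n → K) : Set (Fin 1 → K) :=
  {w : Fin 1 → K | ∃ z ∈ C, (fun j : Fin n => z (Fin.castSucc j)) = x ∧ z (Fin.last n) = w 0}

lemma mem_fib {n : ℕ} (C : Set (Fin (n + 1) → K)) (x : Fin n → K) (w : Fin 1 → K) :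
    w ∈ fib C x ↔ (Fin.snoc x (w 0) : Fin (n + 1) → K) ∈ C := by
  constructor
  · rintro ⟨z, hz, rfl, h⟩
    rw [← h]
    have : (Fin.snoc (fun j : Fin n => z (Fin.castSucc j)) (z (Fin.last n)) : Fin (n + 1) → K) = z :=
      Fin.snoc_init_self z
    rwa [this]
  · intro h
    exact ⟨_, h, by funext j; simp, by simp⟩

lemma definable_fib {n : ℕ} {C : Set (Fin (n + 1) → K)} (hC : (univ : Set K).Definable L C)
    (x : Fin n → K) : (univ : Set K).Definable L (fib C x) := by
  have h : (univ : Set K).DefinableMap L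
      (fun w : Fin 1 → K => (Fin.snoc x (w 0) : Fin (n + 1) → K)) := by
    intro k
    refine Fin.lastCases ?_ (fun j => ?_) k
    · simpa only [Fin.snoc_last] using DefinableFun.proj L
    · simpa only [Fin.snoc_castSucc] using L.definableFun_const _ (mem_univ (x j))
  have := hC.preimage_map h
  convert this using 1
  ext w
  exact mem_fib C x w

theorem no_dimension [Nonempty K] (g₁ g₂ : K → K)
    (h₁ : (univ : Set K).DefinableFun L (fun v : Fin 1 → K => g₁ (v 0)))
    (h₂ : (univ : Set K).DefinableFun L (fun v : Fin 1 → K => g₂ (v 0)))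
    (hsurj : ∀ a b, ∃ x, g₁ x = a ∧ g₂ x = b)
    (d : (n : ℕ) → Set (Fin n → K) → WithBot ℕ)
    (d1 : ∀ (n : ℕ) (A : Set (Fin n → K)), (Set.univ : Set K).Definable L A →
            (d n A = ⊥ ↔ A = ∅))
    (d2 : ∀ a : K, d 1 ({fun _ => a} : Set (Fin 1 → K)) = 0)
    (d3 : d 1 (Set.univ : Set (Fin 1 → K)) = 1)
    (d4 : ∀ (n : ℕ) (A B : Set (Fin n → K)), (Set.univ : Set K).Definable L A →
            (Set.univ : Set K).Definable L B → d n (A ∪ B) = max (d n A) (d n B))
    (d5 : ∀ (n : ℕ) (σ : Equiv.Perm (Fin n)) (A : Set (Fin n → K)),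
            (Set.univ : Set K).Definable L A →
            d n ((fun x : Fin n → K => x ∘ σ) ⁻¹' A) = d n A)
    (d6 : ∀ (n : ℕ) (C : Set (Fin (n + 1) → K)), (Set.univ : Set K).Definable L C →
          ∀ i : ℕ, i ≤ 1 →
            (Set.univ : Set K).Definable L {x : Fin n → K | d 1 (fib C x) = (i : WithBot ℕ)} ∧
            d (n + 1) (C ∩ {z : Fin (n + 1) → K |
                d 1 (fib C (fun j : Fin n => z (Fin.castSucc j))) = (i : WithBot ℕ)})
              = d n {x : Fin n → K | d 1 (fib C x) = (i : WithBot ℕ)} + (i : WithBot ℕ)) :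
    False := by
  have hmono : ∀ (n : ℕ) (A B : Set (Fin n → K)), (Set.univ : Set K).Definable L A →
      (Set.univ : Set K).Definable L B → A ⊆ B → d n A ≤ d n B := by
    intro n A B hA hB hAB
    have := d4 n A B hA hB
    rw [union_eq_self_of_subset_left hAB] at this
    rw [this]
    exact le_max_left _ _
  -- graphs of definable functions
  have hgraph : ∀ (n : ℕ) (B : Set (Fin n → K)) (h : (Fin n → K) → K) (C : Set (Fin (n + 1) → K)),
      (Set.univ : Set K).Definable L C →
      (∀ x t, (Fin.snoc x t : Fin (n + 1) → K) ∈ C ↔ x ∈ B ∧ t = h x) → d (n + 1) C = d n B := by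
    intro n B h C hC hiff
    have hf : ∀ x, d 1 (fib C x) = ((0 : ℕ) : WithBot ℕ) ↔ x ∈ B := by
      intro x
      constructor
      · intro h0
        by_contra hx
        have : fib C x = ∅ := by
          ext w
          simp [mem_fib, hiff, hx]
        rw [this, (d1 1 ∅ definable_empty).2 rfl] at h0
        exact absurd h0 (by simp)
      · intro hx
        have : fib C x = {fun _ => h x} := by
          ext w
          simp only [mem_fib, hiff, hx, true_and, mem_singleton_iff]
          constructor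
          · intro hw
            funext i
            rw [Subsingleton.elim i 0, hw]
          · intro hw
            rw [hw]
        rw [this, d2]
        rfl
    have := (d6 n C hC 0 zero_le_one).2
    simp only [hf] at this
    rw [inter_eq_self_of_subset_left] at this
    · simpa using this
    · intro z hz
      rw [← Fin.snoc_init_self z] at hz
      exact ((hiff _ _).1 hz).1
  have p1 : ∀ {n : ℕ} (i : Fin n), (univ : Set K).DefinableFun L (fun v : Fin n → K => g₁ (v i)) :=
    fun i => DefinableFun.comp (g := fun v (_ : Fin 1) => v i) (fun _ => DefinableFun.proj L) h₁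
  have p2 : ∀ {n : ℕ} (i : Fin n), (univ : Set K).DefinableFun L (fun v : Fin n → K => g₂ (v i)) :=
    fun i => DefinableFun.comp (g := fun v (_ : Fin 1) => v i) (fun _ => DefinableFun.proj L) h₂
  let G : Set (Fin 2 → K) := {v | v 1 = g₁ (v 0)}
  have hG : (univ : Set K).Definable L G := (DefinableFun.proj L).ofPred_eq (p1 0)
  let Γ : Set (Fin 3 → K) := {v | v 1 = g₁ (v 0)} ∩ {v | v 2 = g₂ (v 0)}
  have hΓ : (univ : Set K).Definable L Γ :=
    ((DefinableFun.proj L).ofPred_eq (p1 0)).inter ((DefinableFun.proj L).ofPred_eq (p2 0))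
  have e1 : d 2 G = 1 := by
    rw [← d3]
    refine hgraph 1 univ (fun x => g₁ (x 0)) G hG fun x t => ?_
    simp only [mem_univ, true_and]
    rfl
  have e2 : d 3 Γ = 1 := by
    rw [← e1]
    exact hgraph 2 G (fun x => g₂ (x 0)) Γ hΓ fun x t => Iff.rfl
  let σ : Equiv.Perm (Fin 3) := Equiv.swap 0 2
  let Γ' : Set (Fin 3 → K) := (fun x : Fin 3 → K => x ∘ σ) ⁻¹' Γ
  have hΓ' : (univ : Set K).Definable L Γ' := hΓ.preimage_comp σ
  have e3 : d 3 Γ' = 1 := by rw [← e2]; exact d5 3 σ Γ hΓ
  have e4 : d 2 univ = 2 := by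
    have := (d6 1 univ definable_univ 1 le_rfl).2
    have hf : ∀ x : Fin 1 → K, fib (univ : Set (Fin (1 + 1) → K)) x = univ := by
      intro x
      ext w
      simp [mem_fib]
    simp only [hf, d3, Nat.cast_one, ofPred_true, inter_self] at this
    rw [this]
    rfl
  have hle : ∀ i : ℕ, i ≤ 1 → d 2 {x : Fin 2 → K | d 1 (fib Γ' x) = (i : WithBot ℕ)} ≤ 1 := by
    intro i hi
    obtain ⟨a, b⟩ := d6 2 Γ' hΓ' i hi
    have h1 := hmono 3 _ Γ' (hΓ'.inter (a.preimage_comp Fin.castSucc)) hΓ' inter_subset_left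
    have h2 : d 2 {x : Fin 2 → K | d 1 (fib Γ' x) = (i : WithBot ℕ)} + (i : WithBot ℕ) ≤ 1 := by
      rw [← b, ← e3]
      exact h1
    refine le_trans ?_ h2
    exact WithBot.le_self_add (by simp) _
  have hunion : (univ : Set (Fin 2 → K)) =
      {x : Fin 2 → K | d 1 (fib Γ' x) = ((0 : ℕ) : WithBot ℕ)} ∪
        {x : Fin 2 → K | d 1 (fib Γ' x) = ((1 : ℕ) : WithBot ℕ)} := by
    symm
    rw [eq_univ_iff_forall]
    intro x
    have hdef := definable_fib hΓ' x
    have hne : fib Γ' x ≠ ∅ := by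
      obtain ⟨t, a1, a2⟩ := hsurj (x 1) (x 0)
      refine Set.Nonempty.ne_empty ⟨fun _ => t, (mem_fib _ _ _).2 ⟨a1.symm, a2.symm⟩⟩
    have hb : d 1 (fib Γ' x) ≠ ⊥ := fun h => hne ((d1 1 _ hdef).1 h)
    have hl : d 1 (fib Γ' x) ≤ 1 := by
      rw [← d3]
      exact hmono 1 _ _ hdef definable_univ (subset_univ _)
    obtain ⟨m, hm⟩ := WithBot.ne_bot_iff_exists.1 hb
    simp only [mem_union, mem_ofPred_eq]
    rw [← hm] at hl ⊢
    have : m ≤ 1 := WithBot.coe_le_coe.1 hl
    interval_cases m
    · left; rfl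
    · right; rfl
  have := d4 2 _ _ (d6 2 Γ' hΓ' 0 zero_le_one).1 (d6 2 Γ' hΓ' 1 le_rfl).1
  rw [← hunion, e4] at this
  have h5 : (2 : WithBot ℕ) ≤ 1 := by
    rw [this]
    exact max_le (hle 0 zero_le_one) (hle 1 le_rfl)
  exact absurd h5 (by decide)

end Pool.Agent.H378Z.Gen
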