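import Mathlib

/-!
# Steiner symmetrisation: description, convexity, compactness and the basic integral inequality
-/

set_option autoImplicit false

open MeasureTheory Set Metric
open scoped RealInnerProductSpace

namespace Pool.Agent.H378Z.Steiner

variable {E : Type} [NormedAddCommGroup E] [InnerProductSpace ℝ E]

/-- The Steiner symmetral of `K` in direction `u`. -/
def st (u : E) (K : Set E) : Set E :=
  {y : E | ∃ x : E, ∃ t : ℝ, y = x + t • u ∧ inner ℝ x u = 0 ∧ (∃ s : ℝ, x + s • u ∈ K) ∧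
    2 * |t| ≤ (volume {s : ℝ | x + s • u ∈ K}).toReal}

lemma chord_eq {u : E} (hu : ‖u‖ = 1) {K : Set E} (hK : IsCompact K) (hc : Convex ℝ K) (x : E)
    (hne : ∃ s : ℝ, x + s • u ∈ K) :
    ∃ p q : ℝ, p ≤ q ∧ {s : ℝ | x + s • u ∈ K} = Icc p q := by
  set C : Set ℝ := {s : ℝ | x + s • u ∈ K} with hC
  have hcont : Continuous (fun s : ℝ => x + s • u) := by fun_prop
  have hcl : IsClosed C := hK.isClosed.preimage hcont
  obtain ⟨ρ, hρ⟩ := hK.isBounded.subset_closedBall 0
  have hbd : Bornology.IsBounded C := by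
    refine (Metric.isBounded_closedBall (x := (0 : ℝ)) (r := ρ + ‖x‖)).subset ?_
    intro s hs
    have h1 : ‖x + s • u‖ ≤ ρ := by simpa using hρ hs
    have h2 : ‖s • u‖ ≤ ‖x + s • u‖ + ‖x‖ := by
      have : s • u = (x + s • u) - x := by abel
      conv_lhs => rw [this]
      exact norm_sub_le _ _
    rw [norm_smul, hu, mul_one] at h2
    simp only [mem_closedBall, dist_zero_right]
    linarith
  have hcomp : IsCompact C := Metric.isCompact_of_isClosed_isBounded hcl hbd
  have hconv : Convex ℝ C := by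
    intro a ha b hb α β hα hβ hαβ
    have := hc ha hb hα hβ hαβ
    show x + (α • a + β • b) • u ∈ K
    have e : x + (α • a + β • b) • u = α • (x + a • u) + β • (x + b • u) := by
      have : x = (α + β) • x := by rw [hαβ, one_smul]
      conv_lhs => rw [this]
      simp only [smul_eq_mul, add_smul, smul_add, mul_smul]
      abel
    rw [e]; exact this
  have hcn : IsConnected C := ⟨hne, hconv.isPreconnected⟩
  refine ⟨sInf C, sSup C, ?_, eq_Icc_of_connected_compact hcn hcomp⟩
  obtain ⟨s, hs⟩ := hne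
  exact (csInf_le hcomp.bddBelow hs).trans (le_csSup hcomp.bddAbove hs)

lemma mem_st_iff {u : E} (hu : ‖u‖ = 1) {K : Set E} (hK : IsCompact K) (hc : Convex ℝ K) (y : E) :
    y ∈ st u K ↔ ∃ x : E, inner ℝ x u = 0 ∧ ∃ a b : ℝ, x + a • u ∈ K ∧ x + b • u ∈ K ∧
      y = x + ((a - b) / 2) • u := by
  constructor
  · rintro ⟨x, t, rfl, hx, hne, ht⟩
    obtain ⟨p, q, hpq, hC⟩ := chord_eq hu hK hc x hne
    rw [hC, Real.volume_Icc, ENNReal.toReal_ofReal (by linarith)] at ht
    have h1 := abs_le.mp (show |t| ≤ (q - p) / 2 by linarith)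
    refine ⟨x, hx, (p + q) / 2 + t, (p + q) / 2 - t, ?_, ?_, ?_⟩
    · have : (p + q) / 2 + t ∈ {s : ℝ | x + s • u ∈ K} := by
        rw [hC]; constructor <;> linarith [h1.1, h1.2]
      exact this
    · have : (p + q) / 2 - t ∈ {s : ℝ | x + s • u ∈ K} := by
        rw [hC]; constructor <;> linarith [h1.1, h1.2]
      exact this
    · congr 2; ring
  · rintro ⟨x, hx, a, b, ha, hb, rfl⟩
    obtain ⟨p, q, hpq, hC⟩ := chord_eq hu hK hc x ⟨a, ha⟩
    refine ⟨x, (a - b) / 2, rfl, hx, ⟨a, ha⟩, ?_⟩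
    rw [hC, Real.volume_Icc, ENNReal.toReal_ofReal (by linarith)]
    have h1 : a ∈ Icc p q := by rw [← hC]; exact ha
    have h2 : b ∈ Icc p q := by rw [← hC]; exact hb
    have : |(a - b) / 2| ≤ (q - p) / 2 := abs_le.mpr ⟨by linarith [h1.1, h2.2], by linarith [h1.2, h2.1]⟩
    linarith

lemma inner_line {u : E} (hu : ‖u‖ = 1) {x : E} (hx : inner ℝ x u = 0) (a : ℝ) :
    inner ℝ (x + a • u) u = a := by
  rw [inner_add_left, hx, real_inner_smul_left, real_inner_self_eq_norm_sq, hu]; ring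

lemma st_eq_image {u : E} (hu : ‖u‖ = 1) {K : Set E} (hK : IsCompact K) (hc : Convex ℝ K) :
    st u K = (fun z : E × E => z.1 - ((inner ℝ z.1 u + inner ℝ z.2 u) / 2) • u) ''
      ((K ×ˢ K) ∩ {z : E × E | z.1 - (inner ℝ z.1 u) • u = z.2 - (inner ℝ z.2 u) • u}) := by
  ext y
  rw [mem_st_iff hu hK hc]
  constructor
  · rintro ⟨x, hx, a, b, ha, hb, rfl⟩
    refine ⟨(x + a • u, x + b • u), ⟨⟨ha, hb⟩, ?_⟩, ?_⟩
    · simp only [mem_ofPred_eq, inner_line hu hx]; abel
    · simp only [inner_line hu hx]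
      rw [add_sub_assoc, ← sub_smul]; congr 2; ring
  · rintro ⟨⟨p, q⟩, ⟨⟨hp, hq⟩, h⟩, rfl⟩
    simp only [mem_ofPred_eq] at h
    refine ⟨p - (inner ℝ p u) • u, ?_, inner ℝ p u, inner ℝ q u, ?_, ?_, ?_⟩
    · rw [inner_sub_left, real_inner_smul_left, real_inner_self_eq_norm_sq, hu]; ring
    · simpa using hp
    · rw [h]; simpa using hq
    · simp only
      rw [sub_add, ← sub_smul]; congr 2; ring

lemma st_isCompact {u : E} (hu : ‖u‖ = 1) {K : Set E} (hK : IsCompact K) (hc : Convex ℝ K) :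
    IsCompact (st u K) := by
  rw [st_eq_image hu hK hc]
  refine IsCompact.image ?_ (by fun_prop)
  refine (hK.prod hK).inter_right ?_
  exact isClosed_eq (by fun_prop) (by fun_prop)

lemma st_convex {u : E} (hu : ‖u‖ = 1) {K : Set E} (hK : IsCompact K) (hc : Convex ℝ K) :
    Convex ℝ (st u K) := by
  intro y hy y' hy' α β hα hβ hαβ
  rw [mem_st_iff hu hK hc] at hy hy' ⊢
  obtain ⟨x, hx, a, b, ha, hb, rfl⟩ := hy
  obtain ⟨x', hx', a', b', ha', hb', rfl⟩ := hy'
  refine ⟨α • x + β • x', ?_, α * a + β * a', α * b + β * b', ?_, ?_, ?_⟩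
  · rw [inner_add_left, real_inner_smul_left, real_inner_smul_left, hx, hx']; ring
  · have := hc ha ha' hα hβ hαβ
    convert this using 1
    simp only [smul_add, add_smul, mul_smul]; abel
  · have := hc hb hb' hα hβ hαβ
    convert this using 1
    simp only [smul_add, add_smul, mul_smul]; abel
  · have e : (α * a + β * a' - (α * b + β * b')) / 2 = α * ((a - b) / 2) + β * ((a' - b') / 2) := by
      ring
    rw [e]
    simp only [smul_add, add_smul, mul_smul]; abel

lemma norm_sq_line {u : E} (hu : ‖u‖ = 1) {x : E} (hx : inner ℝ x u = 0) (a : ℝ) :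
    ‖x + a • u‖ ^ 2 = ‖x‖ ^ 2 + a ^ 2 := by
  rw [norm_add_sq_real, real_inner_smul_right, hx, norm_smul, hu]
  simp

lemma st_subset_ball {u : E} (hu : ‖u‖ = 1) {K : Set E} (hK : IsCompact K) (hc : Convex ℝ K)
    {ρ : ℝ} (h : K ⊆ closedBall 0 ρ) : st u K ⊆ closedBall 0 ρ := by
  intro y hy
  rw [mem_st_iff hu hK hc] at hy
  obtain ⟨x, hx, a, b, ha, hb, rfl⟩ := hy
  have h1 : ‖x + a • u‖ ≤ ρ := by simpa using h ha
  have h2 : ‖x + b • u‖ ≤ ρ := by simpa using h hb
  have hρ : 0 ≤ ρ := (norm_nonneg _).trans h1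
  have h1' : ‖x + a • u‖ ^ 2 ≤ ρ ^ 2 := pow_le_pow_left₀ (norm_nonneg _) h1 2
  have h2' : ‖x + b • u‖ ^ 2 ≤ ρ ^ 2 := pow_le_pow_left₀ (norm_nonneg _) h2 2
  rw [norm_sq_line hu hx] at h1' h2'
  simp only [mem_closedBall, dist_zero_right]
  refine le_of_sq_le_sq_of_nonneg_aux _ _ hρ ?_
  rw [norm_sq_line hu hx]
  nlinarith [sq_nonneg (a + b)]
where
  le_of_sq_le_sq_of_nonneg_aux (a b : ℝ) (hb : 0 ≤ b) (h : a ^ 2 ≤ b ^ 2) : a ≤ b :=
    (abs_le_of_sq_le_sq' h hb).2

lemma st_nonempty {u : E} (hu : ‖u‖ = 1) {K : Set E} (hK : IsCompact K) (hc : Convex ℝ K)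
    (hne : K.Nonempty) : (st u K).Nonempty := by
  obtain ⟨p, hp⟩ := hne
  rw [st_eq_image hu hK hc]
  exact ⟨_, (p, p), ⟨⟨hp, hp⟩, rfl⟩, rfl⟩

/-- chords of the symmetral -/
lemma chord_st {u : E} (hu : ‖u‖ = 1) {K : Set E} {x : E} (hx : inner ℝ x u = 0) (t : ℝ) :
    x + t • u ∈ st u K ↔ (∃ s : ℝ, x + s • u ∈ K) ∧
      2 * |t| ≤ (volume {s : ℝ | x + s • u ∈ K}).toReal := by
  constructor
  · rintro ⟨x', t', h, hx', hne, ht⟩
    have h1 : t = t' := by
      have := congrArg (fun z => inner ℝ z u) h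
      simpa only [inner_line hu hx, inner_line hu hx'] using this
    subst h1
    have h2 : x = x' := add_right_cancel h
    subst h2
    exact ⟨hne, ht⟩
  · rintro ⟨hne, ht⟩
    exact ⟨x, t, rfl, hx, hne, ht⟩

lemma integral_Icc_le {g : ℝ → ℝ} (hg : Continuous g) (hconv : ConvexOn ℝ univ g)
    (heven : ∀ t, g (-t) = g t) {p q : ℝ} (hpq : p ≤ q) :
    ∫ t in Icc (-((q - p) / 2)) ((q - p) / 2), g t ≤ ∫ t in Icc p q, g t := by
  set l := (q - p) / 2 with hl
  set c := (p + q) / 2 with hc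
  have hl0 : -l ≤ l := by linarith
  rw [integral_Icc_eq_integral_Ioc, integral_Icc_eq_integral_Ioc,
    ← intervalIntegral.integral_of_le hl0, ← intervalIntegral.integral_of_le hpq]
  have e1 : ∫ t in p..q, g t = ∫ t in (-l)..l, g (t + c) := by
    rw [intervalIntegral.integral_comp_add_right]
    congr 1 <;> simp only [hl, hc] <;> ring
  have e2 : ∫ t in p..q, g t = ∫ t in (-l)..l, g (t - c) := by
    rw [e1]
    have := intervalIntegral.integral_comp_neg (a := -l) (b := l) (fun t => g (t + c))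
    simp only [neg_neg] at this
    rw [← this]
    congr 1
    funext t
    rw [← heven]; congr 1; ring
  have i1 : IntervalIntegrable (fun t => g (t + c)) volume (-l) l :=
    (hg.comp (by fun_prop)).intervalIntegrable _ _
  have i2 : IntervalIntegrable (fun t => g (t - c)) volume (-l) l :=
    (hg.comp (by fun_prop)).intervalIntegrable _ _
  have e3 : ∫ t in p..q, g t = ∫ t in (-l)..l, (g (t + c) + g (t - c)) / 2 := by
    rw [intervalIntegral.integral_div, intervalIntegral.integral_add i1 i2, ← e1, ← e2]; ring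
  rw [e3]
  refine intervalIntegral.integral_mono_on hl0 (hg.intervalIntegrable _ _)
    ((i1.add i2).div_const 2) ?_
  intro t _
  have := hconv.2 (mem_univ (t + c)) (mem_univ (t - c)) (show (0 : ℝ) ≤ 1 / 2 by norm_num)
    (show (0 : ℝ) ≤ 1 / 2 by norm_num) (by norm_num)
  simp only [smul_eq_mul] at this
  have e : 1 / 2 * (t + c) + 1 / 2 * (t - c) = t := by ring
  rw [e] at this
  linarith

/-- the one-dimensional inequality on a line -/
lemma line_le {u : E} (hu : ‖u‖ = 1) {K : Set E} (hK : IsCompact K) (hc : Convex ℝ K)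
    {ψ : E → ℝ} (hψ : Continuous ψ) (hconv : ConvexOn ℝ univ ψ)
    (heven : ∀ x : E, inner ℝ x u = 0 → ∀ t : ℝ, ψ (x + (-t) • u) = ψ (x + t • u))
    {x : E} (hx : inner ℝ x u = 0) :
    ∫ t : ℝ, (st u K).indicator ψ (x + t • u) ≤ ∫ t : ℝ, K.indicator ψ (x + t • u) := by
  by_cases hne : ∃ s : ℝ, x + s • u ∈ K
  · obtain ⟨p, q, hpq, hC⟩ := chord_eq hu hK hc x hne
    have e1 : (fun t : ℝ => K.indicator ψ (x + t • u)) =
        (Icc p q).indicator (fun t : ℝ => ψ (x + t • u)) := by
      funext t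
      have : x + t • u ∈ K ↔ t ∈ Icc p q := by rw [← hC]; rfl
      by_cases h : x + t • u ∈ K
      · rw [indicator_of_mem h, indicator_of_mem (this.1 h)]
      · rw [indicator_of_notMem h, indicator_of_notMem (fun h' => h (this.2 h'))]
    have e2 : (fun t : ℝ => (st u K).indicator ψ (x + t • u)) =
        (Icc (-((q - p) / 2)) ((q - p) / 2)).indicator (fun t : ℝ => ψ (x + t • u)) := by
      funext t
      have : x + t • u ∈ st u K ↔ t ∈ Icc (-((q - p) / 2)) ((q - p) / 2) := by
        rw [chord_st hu hx, hC, Real.volume_Icc, ENNReal.toReal_ofReal (by linarith), mem_Icc,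
          ← abs_le]
        constructor
        · rintro ⟨-, h⟩; linarith
        · intro h; exact ⟨hne, by linarith⟩
      by_cases h : x + t • u ∈ st u K
      · rw [indicator_of_mem h, indicator_of_mem (this.1 h)]
      · rw [indicator_of_notMem h, indicator_of_notMem (fun h' => h (this.2 h'))]
    rw [e1, e2, integral_indicator measurableSet_Icc, integral_indicator measurableSet_Icc]
    refine integral_Icc_le (g := fun t : ℝ => ψ (x + t • u)) (hψ.comp (by fun_prop)) ?_
      (heven x hx) hpq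
    refine ⟨convex_univ, fun a _ b _ α β hα hβ hαβ => ?_⟩
    have := hconv.2 (mem_univ (x + a • u)) (mem_univ (x + b • u)) hα hβ hαβ
    have e : x + (α • a + β • b) • u = α • (x + a • u) + β • (x + b • u) := by
      have : x = (α + β) • x := by rw [hαβ, one_smul]
      conv_lhs => rw [this]
      simp only [smul_eq_mul, add_smul, smul_add, mul_smul]
      abel
    simp only
    rw [e]; exact this
  · have e1 : (fun t : ℝ => K.indicator ψ (x + t • u)) = fun _ => 0 := by
      funext t
      exact indicator_of_notMem (fun h => hne ⟨t, h⟩) _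
    have e2 : (fun t : ℝ => (st u K).indicator ψ (x + t • u)) = fun _ => 0 := by
      funext t
      exact indicator_of_notMem (fun h => hne ((chord_st hu hx t).1 h).1) _
    rw [e1, e2]

/-- the coordinates adapted to the direction `u` -/
noncomputable def coord [FiniteDimensional ℝ E] {u : E} (hu : ‖u‖ = 1) :
    ((ℝ ∙ u)ᗮ × ℝ) ≃L[ℝ] E :=
  LinearEquiv.toContinuousLinearEquiv
  { toFun := fun z => (z.1 : E) + z.2 • u
    map_add' := by
      intro z w
      simp only [Prod.fst_add, Submodule.coe_add, Prod.snd_add, add_smul]; abel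
    map_smul' := by
      intro c z
      simp only [Prod.smul_fst, Submodule.coe_smul, Prod.smul_snd, smul_eq_mul, RingHom.id_apply,
        smul_add, mul_smul]
    invFun := fun y => (⟨y - (inner ℝ y u) • u, by
      rw [Submodule.mem_orthogonal_singleton_iff_inner_left, inner_sub_left, real_inner_smul_left,
        real_inner_self_eq_norm_sq, hu]; ring⟩, inner ℝ y u)
    left_inv := by
      rintro ⟨⟨x, hx⟩, t⟩
      have hx' : inner ℝ x u = 0 := Submodule.mem_orthogonal_singleton_iff_inner_left.1 hx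
      simp only [inner_line hu hx', Prod.mk.injEq, Subtype.mk.injEq, and_true]
      abel
    right_inv := by
      intro y
      simp }

lemma coord_apply [FiniteDimensional ℝ E] {u : E} (hu : ‖u‖ = 1) (z : (ℝ ∙ u)ᗮ × ℝ) :
    coord hu z = (z.1 : E) + z.2 • u := rfl

/-- Steiner symmetrisation does not increase the integral of an even convex function -/
theorem integral_st_le [FiniteDimensional ℝ E] [MeasurableSpace E] [BorelSpace E]
    (μ : Measure E) [μ.IsAddHaarMeasure]
    {u : E} (hu : ‖u‖ = 1) {K : Set E} (hK : IsCompact K) (hc : Convex ℝ K)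
    {ψ : E → ℝ} (hψ : Continuous ψ) (hconv : ConvexOn ℝ univ ψ)
    (heven : ∀ x : E, inner ℝ x u = 0 → ∀ t : ℝ, ψ (x + (-t) • u) = ψ (x + t • u)) :
    ∫ y in st u K, ψ y ∂μ ≤ ∫ y in K, ψ y ∂μ := by
  let F := (ℝ ∙ u)ᗮ
  let _ : MeasurableSpace F := borel F
  have : BorelSpace F := ⟨rfl⟩
  let ν : Measure F := Measure.addHaar
  let e := coord hu
  let μ' : Measure E := (ν.prod (volume : Measure ℝ)).map e
  have : μ'.IsAddHaarMeasure := e.isAddHaarMeasure_map _
  have hμ : μ = Measure.addHaarScalarFactor μ μ' • μ' := Measure.isAddLeftInvariant_eq_smul μ μ'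
  have key : ∀ S : Set E, IsCompact S →
      Integrable (fun z : F × ℝ => S.indicator ψ (e z)) (ν.prod volume) ∧
      ∫ y in S, ψ y ∂μ' = ∫ x : F, ∫ t : ℝ, S.indicator ψ ((x : E) + t • u) ∂volume ∂ν := by
    intro S hS
    have hi : Integrable (S.indicator ψ) μ' :=
      (integrable_indicator_iff hS.measurableSet).2 (hψ.continuousOn.integrableOn_compact hS)
    have hi' : Integrable (fun z : F × ℝ => S.indicator ψ (e z)) (ν.prod volume) :=
      (integrable_map_equiv e.toHomeomorph.toMeasurableEquiv (S.indicator ψ)).1 hi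
    refine ⟨hi', ?_⟩
    rw [← integral_indicator hS.measurableSet]
    have := integral_map_equiv (μ := ν.prod (volume : Measure ℝ))
      e.toHomeomorph.toMeasurableEquiv (S.indicator ψ)
    refine this.trans ?_
    exact integral_prod _ hi'
  have h' : ∫ y in st u K, ψ y ∂μ' ≤ ∫ y in K, ψ y ∂μ' := by
    obtain ⟨i1, e1⟩ := key _ (st_isCompact hu hK hc)
    obtain ⟨i2, e2⟩ := key _ hK
    rw [e1, e2]
    refine integral_mono i1.integral_prod_left i2.integral_prod_left ?_
    intro x
    exact line_le hu hK hc hψ hconv heven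
      (Submodule.mem_orthogonal_singleton_iff_inner_left.1 x.2)
  rw [hμ, Measure.restrict_smul, Measure.restrict_smul, integral_smul_nnreal_measure,
    integral_smul_nnreal_measure]
  exact smul_le_smul_of_nonneg_left h' zero_le

end Pool.Agent.H378Z.Steiner
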