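import Mathlib

/-!
# Hausdorff limits of convex sets
-/

set_option autoImplicit false

open MeasureTheory Set Metric Filter Topology TopologicalSpace

namespace Pool.Agent.H378Z.Steiner

variable {E : Type} [NormedAddCommGroup E] [InnerProductSpace ℝ E] [FiniteDimensional ℝ E]

omit [InnerProductSpace ℝ E] [FiniteDimensional ℝ E] in
lemma exists_near {A B : NonemptyCompacts E} {r : ℝ} (h : dist A B < r) {x : E} (hx : x ∈ (A : Set E)) :
    ∃ y ∈ (B : Set E), dist x y < r :=
  exists_dist_lt_of_hausdorffDist_lt hx h (edist_ne_top A B)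

lemma limit_convex {M : ℕ → NonemptyCompacts E} {L : NonemptyCompacts E}
    (hM : ∀ k, Convex ℝ (M k : Set E)) (h : Tendsto M atTop (𝓝 L)) : Convex ℝ (L : Set E) := by
  intro x hx y hy α β hα hβ hαβ
  rw [← L.isCompact.isClosed.closure_eq, Metric.mem_closure_iff]
  intro ε hε
  have hε2 : 0 < ε / 2 := by linarith
  obtain ⟨k, hk⟩ := (Metric.tendsto_atTop.1 h (ε / 2) hε2)
  have hk' := hk k le_rfl
  obtain ⟨x', hx', hxx⟩ := exists_near (by rwa [dist_comm] at hk') hx
  obtain ⟨y', hy', hyy⟩ := exists_near (by rwa [dist_comm] at hk') hy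
  have hz := hM k hx' hy' hα hβ hαβ
  obtain ⟨w, hw, hzw⟩ := exists_near hk' hz
  refine ⟨w, hw, ?_⟩
  have h1 : dist (α • x + β • y) (α • x' + β • y') ≤ α * dist x x' + β * dist y y' := by
    rw [dist_eq_norm, dist_eq_norm, dist_eq_norm]
    have : α • x + β • y - (α • x' + β • y') = α • (x - x') + β • (y - y') := by
      simp only [smul_sub]; abel
    rw [this]
    refine (norm_add_le _ _).trans ?_
    rw [norm_smul, norm_smul, Real.norm_of_nonneg hα, Real.norm_of_nonneg hβ]
  have h2 : α * dist x x' + β * dist y y' ≤ ε / 2 := by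
    have a1 : α * dist x x' ≤ α * (ε / 2) := mul_le_mul_of_nonneg_left hxx.le hα
    have a2 : β * dist y y' ≤ β * (ε / 2) := mul_le_mul_of_nonneg_left hyy.le hβ
    have : α * (ε / 2) + β * (ε / 2) = ε / 2 := by rw [← add_mul, hαβ, one_mul]
    linarith
  have := dist_triangle (α • x + β • y) (α • x' + β • y') w
  linarith

/-- a point whose `r`-ball lies in `L` belongs to each convex set at Hausdorff distance `< r` -/
lemma mem_of_ball_subset {A L : NonemptyCompacts E} (hA : Convex ℝ (A : Set E)) {r : ℝ}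
    (h : dist A L < r) {x : E} (hx : closedBall x r ⊆ L) : x ∈ (A : Set E) := by
  have hr : 0 < r := lt_of_le_of_lt dist_nonneg h
  by_contra hxA
  obtain ⟨p, hp, hmin⟩ := exists_norm_eq_iInf_of_complete_convex A.nonempty
    A.isCompact.isComplete hA x
  have hin := (norm_eq_iInf_iff_real_inner_le_zero hA hp).1 hmin
  have hxp : x - p ≠ 0 := fun h0 => hxA (by rw [sub_eq_zero.1 h0]; exact hp)
  have hn : 0 < ‖x - p‖ := norm_pos_iff.2 hxp
  set v : E := (‖x - p‖)⁻¹ • (x - p) with hv
  have hv1 : ‖v‖ = 1 := by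
    rw [hv, norm_smul, norm_inv, norm_norm, inv_mul_cancel₀ hn.ne']
  have hx' : x + r • v ∈ (L : Set E) := by
    apply hx
    simp [norm_smul, hv1, abs_of_pos hr]
  obtain ⟨y, hy, hxy⟩ := exists_near (by rwa [dist_comm] at h) hx'
  have h1 : inner ℝ v (y - p) ≤ 0 := by
    rw [hv, real_inner_smul_left]
    exact mul_nonpos_of_nonneg_of_nonpos (inv_nonneg.2 hn.le) (hin y hy)
  have h2 : inner ℝ v (x - p) = ‖x - p‖ := by
    rw [hv, real_inner_smul_left, real_inner_self_eq_norm_sq]; field_simp
  have h3 : inner ℝ v (r • v) = r := by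
    rw [real_inner_smul_right, real_inner_self_eq_norm_sq, hv1]; ring
  have h4 : inner ℝ v (x + r • v - y) = ‖x - p‖ + r - inner ℝ v (y - p) := by
    have : x + r • v - y = (x - p) + r • v - (y - p) := by abel
    rw [this, inner_sub_right, inner_add_right, h2, h3]
  have h5 : inner ℝ v (x + r • v - y) ≤ ‖x + r • v - y‖ := by
    have := real_inner_le_norm v (x + r • v - y)
    rwa [hv1, one_mul] at this
  rw [dist_eq_norm] at hxy
  linarith

variable [MeasurableSpace E] [BorelSpace E] (μ : Measure E) [μ.IsAddHaarMeasure]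

lemma measure_eq_interior {S : Set E} (hS : Convex ℝ S) : μ S = μ (interior S) := by
  refine le_antisymm ?_ (measure_mono interior_subset)
  have h0 := hS.addHaar_frontier μ
  have : S ⊆ interior S ∪ frontier S := by
    intro x hx
    by_cases h : x ∈ interior S
    · exact Or.inl h
    · exact Or.inr ⟨subset_closure hx, h⟩
  refine (measure_mono this).trans ((measure_union_le _ _).trans ?_)
  rw [h0, add_zero]

lemma le_measure_limit {M : ℕ → NonemptyCompacts E} {L : NonemptyCompacts E} {V : ENNReal}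
    (hV : ∀ k, μ (M k) = V) (h : Tendsto M atTop (𝓝 L)) : V ≤ μ L := by
  have h1 := tendsto_measure_cthickening_of_isCompact (μ := μ) L.isCompact
  have h2 : Tendsto (fun r => μ (cthickening r (L : Set E))) (𝓝[>] 0) (𝓝 (μ L)) :=
    h1.mono_left nhdsWithin_le_nhds
  refine ge_of_tendsto h2 ?_
  filter_upwards [self_mem_nhdsWithin] with r hr
  obtain ⟨k, hk⟩ := (Metric.tendsto_atTop.1 h r hr)
  rw [← hV k]
  refine measure_mono fun x hx => ?_
  obtain ⟨y, hy, hxy⟩ := exists_near (hk k le_rfl) hx
  exact mem_cthickening_of_dist_le x y r _ hy hxy.le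

lemma measure_limit_le {M : ℕ → NonemptyCompacts E} {L : NonemptyCompacts E} {V : ENNReal}
    (hM : ∀ k, Convex ℝ (M k : Set E))
    (hV : ∀ k, μ (M k) = V) (h : Tendsto M atTop (𝓝 L)) : μ L ≤ V := by
  rw [measure_eq_interior μ (limit_convex hM h)]
  let A : ℕ → Set E := fun j => {x | closedBall x (1 / ((j : ℝ) + 1)) ⊆ L}
  have hmono : Monotone A := by
    intro i j hij x hx
    refine Subset.trans (closedBall_subset_closedBall ?_) hx
    exact Nat.one_div_le_one_div hij
  have hsub : interior (L : Set E) ⊆ ⋃ j, A j := by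
    intro x hx
    obtain ⟨ε, hε, hb⟩ := Metric.isOpen_iff.1 isOpen_interior x hx
    obtain ⟨j, hj⟩ := exists_nat_one_div_lt hε
    exact mem_iUnion.2 ⟨j, (closedBall_subset_ball hj).trans (hb.trans interior_subset)⟩
  refine (measure_mono hsub).trans ?_
  rw [hmono.measure_iUnion]
  refine iSup_le fun j => ?_
  obtain ⟨k, hk⟩ := (Metric.tendsto_atTop.1 h (1 / ((j : ℝ) + 1)) Nat.one_div_pos_of_nat)
  rw [← hV k]
  exact measure_mono fun x hx => mem_of_ball_subset (hM k) (hk k le_rfl) hx

lemma zero_on_interior {M : ℕ → NonemptyCompacts E} {L : NonemptyCompacts E}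
    (hM : ∀ k, Convex ℝ (M k : Set E)) (h : Tendsto M atTop (𝓝 L))
    {f : E → ℝ} (hf : Continuous f) (hf0 : ∀ x, 0 ≤ f x)
    (hI : Tendsto (fun k => ∫ y in (M k : Set E), f y ∂μ) atTop (𝓝 0))
    {x : E} (hx : x ∈ interior (L : Set E)) : f x = 0 := by
  by_contra hne
  have hpos : 0 < f x := lt_of_le_of_ne (hf0 x) (Ne.symm hne)
  obtain ⟨ε, hε, hb⟩ := Metric.isOpen_iff.1 isOpen_interior x hx
  have hr : 0 < ε / 3 := by linarith
  have hI0 : 0 < ∫ y in closedBall x (ε / 3), f y ∂μ := by
    rw [setIntegral_pos_iff_support_of_nonneg_ae (Eventually.of_forall hf0)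
      (hf.continuousOn.integrableOn_compact (isCompact_closedBall _ _))]
    have ho : IsOpen (Function.support f ∩ ball x (ε / 3)) :=
      hf.isOpen_support.inter isOpen_ball
    have : 0 < μ (Function.support f ∩ ball x (ε / 3)) :=
      ho.measure_pos μ ⟨x, hne, mem_ball_self hr⟩
    exact lt_of_lt_of_le this (measure_mono (inter_subset_inter_right _ ball_subset_closedBall))
  have hev : ∀ᶠ k in atTop, ∫ y in closedBall x (ε / 3), f y ∂μ ≤ ∫ y in (M k : Set E), f y ∂μ := by
    obtain ⟨k, hk⟩ := (Metric.tendsto_atTop.1 h (ε / 3) hr)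
    filter_upwards [eventually_ge_atTop k] with j hj
    refine setIntegral_mono_set (hf.continuousOn.integrableOn_compact (M j).isCompact)
      (Eventually.of_forall hf0) (LE.le.eventuallyLE ?_)
    intro y hy
    refine mem_of_ball_subset (hM j) (hk j hj) ?_
    refine Subset.trans ?_ (hb.trans interior_subset)
    intro z hz
    rw [mem_closedBall] at hy hz
    rw [mem_ball]
    have := dist_triangle z y x
    linarith
  have := ge_of_tendsto hI hev
  linarith

/-- identification of the limit -/
lemma limit_eq {M : ℕ → NonemptyCompacts E} {L L' : NonemptyCompacts E} {V : ENNReal}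
    (hV0 : 0 < V) (hM : ∀ k, Convex ℝ (M k : Set E)) (hV : ∀ k, μ (M k) = V)
    (hL : Convex ℝ (L : Set E)) (hLV : μ L = V)
    (hI : Tendsto (fun k => ∫ y in (M k : Set E), (infDist y (L : Set E)) ^ 2 ∂μ) atTop (𝓝 0))
    (h : Tendsto M atTop (𝓝 L')) : L' = L := by
  have hL' := limit_convex hM h
  have hV' : V ≤ μ L' := le_measure_limit μ hV h
  have hint' : (interior (L' : Set E)).Nonempty := by
    rw [measure_eq_interior μ hL'] at hV'
    exact nonempty_of_measure_ne_zero (lt_of_lt_of_le hV0 hV').ne'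
  have hint : (interior (L : Set E)).Nonempty := by
    rw [measure_eq_interior μ hL] at hLV
    exact nonempty_of_measure_ne_zero (hLV ▸ hV0).ne'
  have h1 : interior (L' : Set E) ⊆ L := by
    intro x hx
    have := zero_on_interior μ hM h (f := fun y => (infDist y (L : Set E)) ^ 2)
      ((continuous_infDist_pt _).pow 2) (fun y => sq_nonneg _) hI hx
    exact (L.isCompact.isClosed.mem_iff_infDist_zero L.nonempty).2 (pow_eq_zero_iff (by norm_num) |>.1 this)
  have h2 : (L' : Set E) ⊆ L := by
    have := closure_mono h1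
    rw [hL'.closure_interior_eq_closure_of_nonempty_interior hint', L.isCompact.isClosed.closure_eq]
      at this
    exact subset_closure.trans this
  have h3 : μ ((L : Set E) \ L') = 0 := by
    rw [measure_sdiff h2 L'.isCompact.measurableSet.nullMeasurableSet L'.isCompact.measure_lt_top.ne,
      hLV]
    exact tsub_eq_zero_of_le hV'
  have h4 : interior (L : Set E) ⊆ L' := by
    by_contra hcon
    rw [not_subset] at hcon
    obtain ⟨x, hx, hx'⟩ := hcon
    have ho : IsOpen (interior (L : Set E) \ L') := isOpen_interior.sdiff L'.isCompact.isClosed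
    have := ho.measure_pos μ ⟨x, hx, hx'⟩
    have h5 : μ (interior (L : Set E) \ L') ≤ μ ((L : Set E) \ L') :=
      measure_mono (sdiff_subset_sdiff_left interior_subset)
    rw [h3] at h5
    exact absurd (lt_of_lt_of_le this h5) (lt_irrefl _)
  have h5 : (L : Set E) ⊆ L' := by
    have := closure_mono h4
    rw [hL.closure_interior_eq_closure_of_nonempty_interior hint, L'.isCompact.isClosed.closure_eq]
      at this
    exact subset_closure.trans this
  exact NonemptyCompacts.ext (Subset.antisymm h2 h5)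

/-- convergence criterion -/
theorem tendsto_of_integral {M : ℕ → NonemptyCompacts E} {L : NonemptyCompacts E} {V : ENNReal}
    {ρ : ℝ} (hρ : ∀ k, (M k : Set E) ⊆ closedBall 0 ρ)
    (hV0 : 0 < V) (hM : ∀ k, Convex ℝ (M k : Set E)) (hV : ∀ k, μ (M k) = V)
    (hL : Convex ℝ (L : Set E)) (hLV : μ L = V)
    (hI : Tendsto (fun k => ∫ y in (M k : Set E), (infDist y (L : Set E)) ^ 2 ∂μ) atTop (𝓝 0)) :
    Tendsto M atTop (𝓝 L) := by
  refine tendsto_of_subseq_tendsto fun ns hns => ?_
  have hc := NonemptyCompacts.isCompact_subsets_of_isCompact (isCompact_closedBall (0 : E) ρ)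
  obtain ⟨L', -, φ, hφ, hlim⟩ := hc.tendsto_subseq (x := fun k => M (ns k)) (fun k => hρ _)
  refine ⟨φ, ?_⟩
  have := limit_eq μ (M := fun k => M (ns (φ k))) hV0 (fun k => hM _) (fun k => hV _) hL hLV
    (hI.comp (hns.comp hφ.tendsto_atTop)) hlim
  rw [← this]
  exact hlim

end Pool.Agent.H378Z.Steiner
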