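import Pool.Agent.H378Z.SteinerA
import Pool.Agent.H378Z.SteinerB

/-!
# Iterated Steiner symmetrals converge in shape

For a convex function `h` the quantity `sup_R ∫_K h ∘ R` (`R` orthogonal) does not increase under
Steiner symmetrisation.  Apply this to `‖x‖²` and to `‖x‖² - d(x, L)²`, `L` a limit point.
-/

set_option autoImplicit false

open MeasureTheory Set Metric Filter Topology TopologicalSpace

namespace Pool.Agent.H378Z.Steiner

variable {E : Type} [NormedAddCommGroup E] [InnerProductSpace ℝ E] [FiniteDimensional ℝ E]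

lemma refl_line {u x : E} (hx : inner ℝ x u = 0) (t : ℝ) :
    (ℝ ∙ u)ᗮ.reflection (x + t • u) = x + (-t) • u := by
  rw [map_add, map_smul, Submodule.reflection_orthogonalComplement_singleton_eq_neg,
    Submodule.reflection_mem_subspace_eq_self
      (Submodule.mem_orthogonal_singleton_iff_inner_left.2 hx)]
  simp

lemma refl_mem_st {u : E} {K : Set E} {y : E} (hy : y ∈ st u K) :
    (ℝ ∙ u)ᗮ.reflection y ∈ st u K := by
  obtain ⟨x, t, rfl, hx, hne, ht⟩ := hy
  exact ⟨x, -t, refl_line hx t, hx, hne, by rwa [abs_neg]⟩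

lemma refl_preimage_st (u : E) (K : Set E) : (ℝ ∙ u)ᗮ.reflection ⁻¹' (st u K) = st u K := by
  ext y
  constructor
  · intro h
    have := refl_mem_st h
    rwa [Submodule.reflection_reflection] at this
  · exact refl_mem_st

omit [FiniteDimensional ℝ E] in
lemma convexOn_comp {h : E → ℝ} (hc : ConvexOn ℝ univ h) (R : E ≃ₗᵢ[ℝ] E) :
    ConvexOn ℝ univ (fun y => h (R y)) := by
  refine ⟨convex_univ, fun x _ y _ α β hα hβ hαβ => ?_⟩
  simp only [map_add, map_smul]
  exact hc.2 (mem_univ _) (mem_univ _) hα hβ hαβ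

omit [FiniteDimensional ℝ E] in
lemma convexOn_sub_infDist {L : Set E} (hL : IsCompact L) (hne : L.Nonempty) :
    ConvexOn ℝ univ (fun y : E => ‖y‖ ^ 2 - (infDist y L) ^ 2) := by
  refine ⟨convex_univ, fun x _ x' _ α β hα hβ hαβ => ?_⟩
  obtain ⟨y, hy, hd⟩ := hL.exists_infDist_eq_dist hne (α • x + β • x')
  have key : ∀ z : E, 2 * inner ℝ z y - ‖y‖ ^ 2 ≤ ‖z‖ ^ 2 - (infDist z L) ^ 2 := by
    intro z
    have h1 : infDist z L ≤ dist z y := infDist_le_dist_of_mem hy
    have h2 : (infDist z L) ^ 2 ≤ (dist z y) ^ 2 := pow_le_pow_left₀ infDist_nonneg h1 2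
    rw [dist_eq_norm, norm_sub_sq_real] at h2
    linarith
  simp only [smul_eq_mul]
  rw [hd, dist_eq_norm, norm_sub_sq_real, inner_add_left, real_inner_smul_left,
    real_inner_smul_left]
  have a1 := mul_le_mul_of_nonneg_left (key x) hα
  have a2 := mul_le_mul_of_nonneg_left (key x') hβ
  have : ‖y‖ ^ 2 = α * ‖y‖ ^ 2 + β * ‖y‖ ^ 2 := by rw [← add_mul, hαβ, one_mul]
  nlinarith

variable [MeasurableSpace E] [BorelSpace E]

lemma step_le {u : E} (hu : ‖u‖ = 1) {K : Set E} (hK : IsCompact K) (hc : Convex ℝ K)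
    {h : E → ℝ} (hh : Continuous h) (hconv : ConvexOn ℝ univ h) (R : E ≃ₗᵢ[ℝ] E) :
    ∃ R' : E ≃ₗᵢ[ℝ] E, ∫ y in st u K, h (R y) ≤ ∫ y in K, h (R' y) := by
  set σ : E ≃ₗᵢ[ℝ] E := (ℝ ∙ u)ᗮ.reflection with hσ
  have c1 : Continuous (fun y => h (R y)) := hh.comp R.continuous
  have c2 : Continuous (fun y => h (R (σ y))) := hh.comp (R.continuous.comp σ.continuous)
  have hS := st_isCompact hu hK hc
  have e1 : ∫ y in st u K, h (R (σ y)) = ∫ y in st u K, h (R y) := by
    have := σ.measurePreserving.setIntegral_preimage_emb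
      σ.toHomeomorph.measurableEmbedding (fun y => h (R y)) (st u K)
    rw [refl_preimage_st] at this
    exact this
  have hle := integral_st_le (volume : Measure E) hu hK hc
    (ψ := fun y => h (R y) + h (R (σ y))) (c1.add c2)
    ((convexOn_comp hconv R).add (convexOn_comp hconv (σ.trans R)))
    (by
      intro x hx t
      simp only [hσ, refl_line hx, neg_neg]
      ring)
  rw [integral_add (c1.continuousOn.integrableOn_compact hS) (c2.continuousOn.integrableOn_compact hS),
    integral_add (c1.continuousOn.integrableOn_compact hK) (c2.continuousOn.integrableOn_compact hK),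
    e1] at hle
  by_cases hcase : ∫ y in K, h (R (σ y)) ≤ ∫ y in K, h (R y)
  · exact ⟨R, by linarith⟩
  · refine ⟨σ.trans R, ?_⟩
    simp only [LinearIsometryEquiv.trans_apply]
    linarith

lemma measure_st {u : E} (hu : ‖u‖ = 1) {K : Set E} (hK : IsCompact K) (hc : Convex ℝ K) :
    volume (st u K) = volume K := by
  have h1 := integral_st_le (volume : Measure E) hu hK hc (ψ := fun _ => 1) continuous_const
    (convexOn_const _ convex_univ) (fun _ _ _ => rfl)
  have h2 := integral_st_le (volume : Measure E) hu hK hc (ψ := fun _ => -1) continuous_const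
    (convexOn_const _ convex_univ) (fun _ _ _ => rfl)
  simp only [integral_const, MeasurableSet.univ, measureReal_restrict_apply, univ_inter,
    smul_eq_mul, mul_one, mul_neg, neg_le_neg_iff] at h1 h2
  have := le_antisymm h1 h2
  exact (measureReal_eq_measureReal_iff (st_isCompact hu hK hc).measure_lt_top.ne
    hK.measure_lt_top.ne).1 this

theorem converge_in_shape (K₀ : Set E) (hK₀ : IsCompact K₀) (hc₀ : Convex ℝ K₀)
    (hint : (interior K₀).Nonempty) (u : ℕ → E) (hu : ∀ i, ‖u i‖ = 1)
    (K : ℕ → Set E) (h0 : K 0 = K₀) (hs : ∀ i, K (i + 1) = st (u i) (K i)) :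
    ∃ (ψ : ℕ → E ≃ₗᵢ[ℝ] E) (L : Set E), IsCompact L ∧ L.Nonempty ∧
      Tendsto (fun i => hausdorffDist (ψ i '' K i) L) atTop (𝓝 0) := by
  obtain ⟨ρ, hρ⟩ := hK₀.isBounded.subset_closedBall 0
  have hall : ∀ i, IsCompact (K i) ∧ Convex ℝ (K i) ∧ (K i).Nonempty ∧ K i ⊆ closedBall 0 ρ ∧
      volume (K i) = volume K₀ := by
    intro i
    induction i with
    | zero => rw [h0]; exact ⟨hK₀, hc₀, hint.mono interior_subset, hρ, rfl⟩
    | succ i ih =>
      obtain ⟨a, b, c, d, e⟩ := ih
      rw [hs]
      exact ⟨st_isCompact (hu i) a b, st_convex (hu i) a b, st_nonempty (hu i) a b c,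
        st_subset_ball (hu i) a b d, (measure_st (hu i) a b).trans e⟩
  have hV0 : 0 < volume K₀ :=
    lt_of_lt_of_le (isOpen_interior.measure_pos volume hint) (measure_mono interior_subset)
  let N : ℕ → NonemptyCompacts E := fun i => ⟨⟨K i, (hall i).1⟩, (hall i).2.2.1⟩
  have hcomp := NonemptyCompacts.isCompact_subsets_of_isCompact (isCompact_closedBall (0 : E) ρ)
  obtain ⟨L, -, φ, hφ, hlim⟩ := hcomp.tendsto_subseq (x := N) (fun k => (hall k).2.2.2.1)
  have hLc : Convex ℝ (L : Set E) := limit_convex (M := N ∘ φ) (fun k => (hall _).2.1) hlim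
  have hLV : volume (L : Set E) = volume K₀ :=
    le_antisymm (measure_limit_le volume (M := N ∘ φ) (fun k => (hall _).2.1)
      (fun k => (hall _).2.2.2.2) hlim)
      (le_measure_limit volume (M := N ∘ φ) (fun k => (hall _).2.2.2.2) hlim)
  -- monotonicity
  have hmono : ∀ {h : E → ℝ}, Continuous h → ConvexOn ℝ univ h → ∀ i j, i ≤ j →
      ∀ R : E ≃ₗᵢ[ℝ] E, ∃ R' : E ≃ₗᵢ[ℝ] E, ∫ y in K j, h (R y) ≤ ∫ y in K i, h (R' y) := by
    intro h hh hconv i j hij
    induction j, hij using Nat.le_induction with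
    | base => intro R; exact ⟨R, le_rfl⟩
    | succ j _ ih =>
      intro R
      obtain ⟨R1, h1⟩ := step_le (hu j) (hall j).1 (hall j).2.1 hh hconv R
      obtain ⟨R2, h2⟩ := ih R1
      rw [hs]
      exact ⟨R2, h1.trans h2⟩
  let I : ℕ → ℝ := fun i => ∫ y in K i, ‖y‖ ^ 2
  have cn : Continuous (fun y : E => ‖y‖ ^ 2) := by fun_prop
  have hnc : ConvexOn ℝ univ (fun y : E => ‖y‖ ^ 2) :=
    (convexOn_univ_norm (E := E)).pow (fun y _ => norm_nonneg y) 2
  have hIanti : Antitone I := by
    intro i j hij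
    obtain ⟨R', h⟩ := hmono cn hnc i j hij (LinearIsometryEquiv.refl ℝ E)
    simpa [I] using h
  have hIbdd : BddBelow (range I) := by
    refine ⟨0, ?_⟩
    rintro _ ⟨i, rfl⟩
    exact integral_nonneg fun y => sq_nonneg _
  have hIlim : Tendsto I atTop (𝓝 (⨅ i, I i)) := tendsto_atTop_ciInf hIanti hIbdd
  have cd : Continuous (fun y : E => (infDist y (L : Set E)) ^ 2) := (continuous_infDist_pt _).pow 2
  -- along the subsequence the distance integral tends to zero
  let D : ℕ → ℝ := fun j => ∫ y in K j, (infDist y (L : Set E)) ^ 2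
  have hD : Tendsto (fun k => D (φ k)) atTop (𝓝 0) := by
    have h1 : Tendsto (fun k => (dist (N (φ k)) L) ^ 2 * volume.real K₀) atTop (𝓝 0) := by
      have := (tendsto_iff_dist_tendsto_zero.1 hlim).pow 2
      simpa using this.mul_const (volume.real K₀)
    refine squeeze_zero (fun k => integral_nonneg fun y => sq_nonneg _) (fun k => ?_) h1
    have hle : ∀ y ∈ K (φ k), (infDist y (L : Set E)) ^ 2 ≤ (dist (N (φ k)) L) ^ 2 := by
      intro y hy
      exact pow_le_pow_left₀ infDist_nonneg
        (infDist_le_hausdorffDist_of_mem (s := (N (φ k) : Set E)) hy (edist_ne_top (N (φ k)) L)) 2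
    have := setIntegral_mono_on (μ := volume) (cd.continuousOn.integrableOn_compact (hall (φ k)).1)
      (continuous_const.continuousOn.integrableOn_compact (hall (φ k)).1)
      (hall (φ k)).1.measurableSet hle
    refine this.trans (le_of_eq ?_)
    rw [setIntegral_const, smul_eq_mul, mul_comm, Measure.real, Measure.real, (hall _).2.2.2.2]
  have hgood : ∀ i : ℕ, ∃ R : E ≃ₗᵢ[ℝ] E,
      ∫ y in K i, (infDist (R y) (L : Set E)) ^ 2 ≤ (I i - ⨅ i, I i) + D (φ i) := by
    intro i
    obtain ⟨R, hR⟩ := hmono (h := fun y : E => ‖y‖ ^ 2 - (infDist y (L : Set E)) ^ 2) (cn.sub cd)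
      (convexOn_sub_infDist L.isCompact L.nonempty) i (φ i)
      hφ.le_apply (LinearIsometryEquiv.refl ℝ E)
    refine ⟨R, ?_⟩
    have cR : Continuous (fun y : E => (infDist (R y) (L : Set E)) ^ 2) := cd.comp R.continuous
    simp only [LinearIsometryEquiv.coe_refl, id_eq, LinearIsometryEquiv.norm_map] at hR
    rw [integral_sub (cn.continuousOn.integrableOn_compact (hall _).1)
        (cd.continuousOn.integrableOn_compact (hall _).1),
      integral_sub (cn.continuousOn.integrableOn_compact (hall _).1)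
        (cR.continuousOn.integrableOn_compact (hall _).1)] at hR
    have := ciInf_le hIbdd (φ i)
    simp only [I, D] at this ⊢
    linarith
  choose R hR using hgood
  let M : ℕ → NonemptyCompacts E := fun i =>
    ⟨⟨R i '' K i, (hall i).1.image (R i).continuous⟩, (hall i).2.2.1.image _⟩
  have hMlim : Tendsto M atTop (𝓝 L) := by
    refine tendsto_of_integral volume (ρ := ρ) (V := volume K₀) ?_ hV0 ?_ ?_ hLc hLV ?_
    · rintro k _ ⟨y, hy, rfl⟩
      have := (hall k).2.2.2.1 hy
      simpa using this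
    · intro k
      exact (hall k).2.1.is_linear_image (R k).toLinearEquiv.toLinearMap.isLinear
    · intro k
      show volume (R k '' K k) = _
      rw [← (hall k).2.2.2.2, LinearIsometryEquiv.image_eq_preimage_symm]
      exact (R k).symm.measurePreserving.measure_preimage (hall k).1.measurableSet.nullMeasurableSet
    · have h1 : Tendsto (fun i => (I i - ⨅ i, I i) + D (φ i)) atTop (𝓝 0) := by
        have := (hIlim.sub_const (⨅ i, I i)).add hD
        simpa using this
      refine squeeze_zero (fun k => integral_nonneg fun y => sq_nonneg _) (fun k => ?_) h1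
      refine le_trans (le_of_eq ?_) (hR k)
      exact (R k).measurePreserving.setIntegral_image_emb
        (R k).toHomeomorph.measurableEmbedding _ _
  exact ⟨R, L, L.isCompact, L.nonempty, tendsto_iff_dist_tendsto_zero.1 hMlim⟩

end Pool.Agent.H378Z.Steiner
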