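import Mathlib

set_option autoImplicit false

namespace Pool.Agent.H378Z.Turan

open Finset

lemma greedy (N k r : ℕ) (hrk : r ≤ k) (hkN : k ≤ N) (M : ℕ) :
    ∃ B : Finset (Finset (Fin N)), (∀ b ∈ B, #b = r) ∧ #B ≤ M ∧
      (#((powersetCard k (univ : Finset (Fin N))).filter fun K => ∀ b ∈ B, ¬ b ⊆ K) : ℝ) ≤
        N.choose k * (1 - (k.choose r : ℝ) / N.choose r) ^ M := by
  have hpos : (0 : ℝ) < N.choose r := by exact_mod_cast Nat.choose_pos (hrk.trans hkN)
  have hq : (0 : ℝ) ≤ 1 - (k.choose r : ℝ) / N.choose r := by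
    rw [sub_nonneg, div_le_one hpos]
    exact_mod_cast Nat.choose_le_choose r hkN
  induction M with
  | zero => exact ⟨∅, by simp, by simp, by simp⟩
  | succ M ih =>
    obtain ⟨B, hB, hM, hc⟩ := ih
    set F := (powersetCard k (univ : Finset (Fin N))).filter fun K => ∀ b ∈ B, ¬ b ⊆ K with hF
    have hsum : ∑ e ∈ powersetCard r (univ : Finset (Fin N)), #(F.filter fun K => e ⊆ K) =
        #F * k.choose r := by
      simp only [card_filter]
      rw [sum_comm, ← smul_eq_mul, ← sum_const]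
      refine sum_congr rfl fun K hK => ?_
      rw [← card_filter]
      have hK' : #K = k := (mem_powersetCard.1 (mem_filter.1 hK).1).2
      rw [← hK', ← card_powersetCard]
      congr 1
      ext e
      simp [mem_powersetCard, and_comm]
    have hne : (powersetCard r (univ : Finset (Fin N))).Nonempty := by
      rw [powersetCard_nonempty]; simpa using hrk.trans hkN
    have hex : ∃ e ∈ powersetCard r (univ : Finset (Fin N)),
        (#F : ℝ) * ((k.choose r : ℝ) / N.choose r) ≤ (#(F.filter fun K => e ⊆ K) : ℝ) := by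
      apply exists_le_of_sum_le hne
      rw [← Nat.cast_sum, hsum, sum_const, card_powersetCard, card_univ, Fintype.card_fin,
        nsmul_eq_mul]
      push_cast
      apply le_of_eq
      field_simp
    obtain ⟨e, he, hle⟩ := hex
    refine ⟨insert e B, ?_, (card_insert_le _ _).trans (by omega), ?_⟩
    · intro b hb
      rcases mem_insert.1 hb with rfl | hb
      · exact (mem_powersetCard.1 he).2
      · exact hB b hb
    · have h1 : ((powersetCard k (univ : Finset (Fin N))).filter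
          fun K => ∀ b ∈ insert e B, ¬ b ⊆ K) = F.filter fun K => ¬ e ⊆ K := by
        ext K
        simp only [hF, mem_filter, mem_insert, forall_eq_or_imp]
        tauto
      have h2 : (#(F.filter fun K => e ⊆ K) : ℝ) + #(F.filter fun K => ¬ e ⊆ K) = #F := by
        exact_mod_cast card_filter_add_card_filter_not _
      rw [h1, pow_succ]
      have h3 := mul_le_mul_of_nonneg_right hc hq
      nlinarith

lemma exists_system (N k r : ℕ) (hrk : r ≤ k) (hkN : k ≤ N) (hN : 1 ≤ N) :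
    ∃ B : Finset (Finset (Fin N)), (∀ b ∈ B, #b = r) ∧
      (#B : ℝ) ≤ (k * Real.log N + 1) * N.choose r / k.choose r ∧
      ∀ K : Finset (Fin N), k ≤ #K → ∃ b ∈ B, b ⊆ K := by
  have hpos : (0 : ℝ) < N.choose r := by exact_mod_cast Nat.choose_pos (hrk.trans hkN)
  have hpos' : (0 : ℝ) < k.choose r := by exact_mod_cast Nat.choose_pos hrk
  have hN' : (1 : ℝ) ≤ N := by exact_mod_cast hN
  have hlog : 0 ≤ Real.log N := Real.log_nonneg hN'
  have hle : (k.choose r : ℝ) ≤ N.choose r := by exact_mod_cast Nat.choose_le_choose r hkN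
  set q : ℝ := (k.choose r : ℝ) / N.choose r with hq
  have hq0 : 0 < q := by positivity
  have hq1 : q ≤ 1 := by rw [hq, div_le_one hpos]; exact hle
  obtain ⟨B, hB, hM, hc⟩ := greedy N k r hrk hkN (⌊k * Real.log N / q⌋₊ + 1)
  refine ⟨B, hB, ?_, fun K hK => ?_⟩
  · have h1 : (#B : ℝ) ≤ k * Real.log N / q + 1 := by
      have h2 := Nat.floor_le (a := k * Real.log N / q) (by positivity)
      have h3 : (#B : ℝ) ≤ ((⌊k * Real.log N / q⌋₊ + 1 : ℕ) : ℝ) := by exact_mod_cast hM
      push_cast at h3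
      linarith
    have h4 : (k * Real.log N + 1) * N.choose r / k.choose r = k * Real.log N / q + 1 / q := by
      rw [hq]; field_simp
    have h5 : 1 ≤ 1 / q := by rw [le_div_iff₀ hq0]; linarith
    linarith
  · obtain ⟨K', hK', hc'⟩ := exists_subset_card_eq hK
    by_contra hcon
    push Not at hcon
    have hmem : K' ∈ (powersetCard k (univ : Finset (Fin N))).filter
        fun K => ∀ b ∈ B, ¬ b ⊆ K :=
      mem_filter.2 ⟨mem_powersetCard.2 ⟨subset_univ _, hc'⟩,
        fun b hb h => hcon b hb (h.trans hK')⟩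
    have h1 : (1 : ℝ) ≤ #((powersetCard k (univ : Finset (Fin N))).filter
        fun K => ∀ b ∈ B, ¬ b ⊆ K) := by exact_mod_cast card_pos.2 ⟨_, hmem⟩
    set M := ⌊k * Real.log N / q⌋₊ + 1 with hMdef
    have h2 : (1 - q) ^ M ≤ Real.exp (-(q * M)) := by
      have h3 : 1 - q ≤ Real.exp (-q) := by have := Real.add_one_le_exp (-q); linarith
      refine (pow_le_pow_left₀ (by linarith) h3 M).trans ?_
      rw [← Real.exp_nat_mul]
      apply le_of_eq; congr 1; ring
    have h4 : (N.choose k : ℝ) ≤ Real.exp (k * Real.log N) := by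
      rw [Real.exp_nat_mul, Real.exp_log (by linarith)]
      exact_mod_cast Nat.choose_le_pow N k
    have h5 : k * Real.log N < q * M := by
      have := Nat.lt_floor_add_one (k * Real.log N / q)
      rw [div_lt_iff₀ hq0] at this
      rw [hMdef]; push_cast; linarith
    have h6 : (N.choose k : ℝ) * (1 - q) ^ M ≤ Real.exp (k * Real.log N) * Real.exp (-(q * M)) :=
      mul_le_mul h4 h2 (pow_nonneg (by linarith) _) (Real.exp_pos _).le
    rw [← Real.exp_add] at h6
    have h7 : Real.exp (k * Real.log N + -(q * M)) < 1 := Real.exp_lt_one_iff.2 (by linarith)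
    linarith

lemma card_pi {n N : ℕ} (e : Finset (Fin n)) (T : Fin n → Finset (Fin N)) (s : ℕ)
    (h1 : ∀ i ∈ e, #(T i) = s) (h2 : ∀ i ∉ e, T i = univ) :
    #(Fintype.piFinset T) = s ^ #e * N ^ (n - #e) := by
  have h3 : ∏ i ∈ eᶜ, #(T i) = ∏ _i ∈ eᶜ, N :=
    prod_congr rfl (fun i hi => by rw [h2 i (mem_compl.1 hi)]; simp)
  rw [Fintype.card_piFinset, ← prod_mul_prod_compl e, prod_congr rfl h1, h3]
  simp [card_compl]

lemma countA {n N m : ℕ} (hm : m ≤ N) (e : Finset (Fin n)) :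
    #((univ : Finset (Fin n → Fin N)).filter fun φ => #(e.image φ) ≤ m) ≤
      N.choose m * (m ^ #e * N ^ (n - #e)) := by
  have hsub : ((univ : Finset (Fin n → Fin N)).filter fun φ => #(e.image φ) ≤ m) ⊆
      (powersetCard m (univ : Finset (Fin N))).biUnion
        fun S => Fintype.piFinset fun i => if i ∈ e then S else univ := by
    intro φ hφ
    obtain ⟨S, hS, -, hc⟩ := exists_subsuperset_card_eq (subset_univ (e.image φ))
      (mem_filter.1 hφ).2 (by simpa using hm)
    refine mem_biUnion.2 ⟨S, mem_powersetCard.2 ⟨subset_univ _, hc⟩, ?_⟩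
    rw [Fintype.mem_piFinset]
    intro i
    split_ifs with hi
    · exact hS (mem_image_of_mem _ hi)
    · exact mem_univ _
  refine (card_le_card hsub).trans (card_biUnion_le.trans ?_)
  rw [sum_congr rfl (g := fun _ => m ^ #e * N ^ (n - #e)) (fun S hS =>
    card_pi e _ m (fun i hi => by rw [if_pos hi]; exact (mem_powersetCard.1 hS).2)
      (fun i hi => if_neg hi))]
  simp

lemma countB {n N : ℕ} (e : Finset (Fin n)) (b : Finset (Fin N)) (hb : #b = #e) :
    #((univ : Finset (Fin n → Fin N)).filter fun φ => e.image φ = b) ≤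
      (#e).factorial * N ^ (n - #e) := by
  classical
  have hsub : ((univ : Finset (Fin n → Fin N)).filter fun φ => e.image φ = b) ⊆
      (univ : Finset (e ↪ b)).biUnion
        fun g => Fintype.piFinset fun i => if h : i ∈ e then {(g ⟨i, h⟩ : Fin N)} else univ := by
    intro φ hφ
    have h1 := (mem_filter.1 hφ).2
    have hinj : Set.InjOn φ e := card_image_iff.1 (by rw [h1, hb])
    refine mem_biUnion.2 ⟨⟨fun i => ⟨φ i, h1 ▸ mem_image_of_mem _ i.2⟩, fun i j hij => ?_⟩,
      mem_univ _, ?_⟩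
    · exact Subtype.ext (hinj i.2 j.2 (congrArg Subtype.val hij))
    · rw [Fintype.mem_piFinset]
      intro i
      split_ifs with hi
      · exact mem_singleton.2 rfl
      · exact mem_univ _
  refine (card_le_card hsub).trans (card_biUnion_le.trans ?_)
  rw [sum_congr rfl (g := fun _ => 1 ^ #e * N ^ (n - #e)) (fun g _ =>
    card_pi e _ 1 (fun i hi => by rw [dif_pos hi]; simp) (fun i hi => dif_neg hi))]
  simp [hb, Nat.descFactorial_self]

lemma collide {n N r h : ℕ} (φ : Fin n → Fin N) (K : Finset (Fin n)) (h2 : 2 * h ≤ r)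
    (hr : r ≤ #K) (hK : #(K.image φ) + h ≤ #K) :
    ∃ e ⊆ K, #e = r ∧ #(e.image φ) ≤ r - h := by
  obtain ⟨R, hRK, hRinj, hRim⟩ : ∃ R ⊆ K, Set.InjOn φ R ∧ R.image φ = K.image φ := by
    obtain ⟨R, h1, h2, h3⟩ := exists_subset_injOn_image_eq_of_surjOn (f := φ) (K : Set (Fin n))
      (K.image φ) (by intro y hy; simpa using hy)
    exact ⟨R, h1, h2, h3⟩
  have hR : #R = #(K.image φ) := by rw [← hRim, card_image_of_injOn hRinj]
  obtain ⟨D, hD, hDc⟩ := exists_subset_card_eq (s := K \ R) (n := h) (by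
    rw [card_sdiff_of_subset hRK]; omega)
  set R' := R.filter fun x => φ x ∈ D.image φ with hR'
  have hR'c : #R' ≤ #(D.image φ) :=
    card_le_card_of_injOn φ (fun x hx => (mem_filter.1 hx).2)
      (hRinj.mono (fun x hx => (mem_filter.1 hx).1))
  have hR'c2 : #(D.image φ) ≤ #R' := by
    refine le_trans (card_le_card ?_) (card_image_le (s := R') (f := φ))
    intro y hy
    obtain ⟨x, hx, rfl⟩ := mem_image.1 hy
    have : φ x ∈ R.image φ := hRim ▸ mem_image_of_mem _ (mem_sdiff.1 (hD hx)).1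
    obtain ⟨z, hz, hz'⟩ := mem_image.1 this
    exact mem_image.2 ⟨z, mem_filter.2 ⟨hz, hz' ▸ hy⟩, hz'⟩
  have hDi : #(D.image φ) ≤ h := hDc ▸ card_image_le
  have hdisj : Disjoint D R' := disjoint_left.2 fun x hx hx' =>
    (mem_sdiff.1 (hD hx)).2 (mem_filter.1 hx').1
  have hc0 : #(D ∪ R') = h + #R' := by rw [card_union_of_disjoint hdisj, hDc]
  have hsub : D ∪ R' ⊆ K := union_subset (hD.trans sdiff_subset) ((filter_subset _ _).trans hRK)
  obtain ⟨e, he1, he2, he3⟩ := exists_subsuperset_card_eq hsub (n := r) (by omega) hr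
  refine ⟨e, he2, he3, ?_⟩
  have him : e.image φ ⊆ D.image φ ∪ (e \ (D ∪ R')).image φ := by
    intro y hy
    obtain ⟨x, hx, rfl⟩ := mem_image.1 hy
    by_cases hx' : x ∈ D ∪ R'
    · rcases mem_union.1 hx' with h' | h'
      · exact mem_union_left _ (mem_image_of_mem _ h')
      · exact mem_union_left _ (mem_filter.1 h').2
    · exact mem_union_right _ (mem_image_of_mem _ (mem_sdiff.2 ⟨hx, hx'⟩))
  have h3 := (card_le_card him).trans (card_union_le _ _)
  have h4 : #((e \ (D ∪ R')).image φ) ≤ #(e \ (D ∪ R')) := card_image_le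
  rw [card_sdiff_of_subset he1] at h4
  omega

lemma blowup {N k r h : ℕ} (hN : 1 ≤ N) (hrN : r ≤ N) (h2 : 2 * h ≤ r) (hrk : r ≤ k)
    (B : Finset (Finset (Fin N))) (hB : ∀ b ∈ B, #b = r)
    (hcov : ∀ K : Finset (Fin N), k ≤ #K → ∃ b ∈ B, b ⊆ K) (n : ℕ) :
    ∃ E : Finset (Finset (Fin n)), (∀ e ∈ E, #e = r) ∧
      (∀ S : Finset (Fin n), k + h ≤ #S → ∃ e ∈ E, e ⊆ S) ∧
      #E * N ^ r ≤ n.choose r * (N.choose (r - h) * (r - h) ^ r + #B * r.factorial) := by
  set X := N.choose (r - h) * (r - h) ^ r + #B * r.factorial with hX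
  set E : (Fin n → Fin N) → Finset (Finset (Fin n)) := fun φ =>
    (powersetCard r univ).filter fun e => #(e.image φ) ≤ r - h ∨ e.image φ ∈ B with hE
  have hsum : ∑ φ : Fin n → Fin N, #(E φ) * N ^ r ≤ ∑ _φ : Fin n → Fin N, n.choose r * X := by
    rw [← sum_mul]
    simp only [hE, card_filter]
    rw [sum_comm, sum_mul, sum_const, card_univ, Fintype.card_fun, Fintype.card_fin,
      Fintype.card_fin, smul_eq_mul]
    refine (sum_le_card_nsmul _ _ (X * N ^ n) fun e he => ?_).trans ?_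
    · have hec : #e = r := (mem_powersetCard.1 he).2
      have hrn : r ≤ n := by
        have := card_le_univ e
        rw [Fintype.card_fin] at this
        omega
      rw [← card_filter, filter_or]
      have hA := countA (m := r - h) (N := N) (by omega) e
      have hB' : #((univ : Finset (Fin n → Fin N)).filter fun φ => e.image φ ∈ B) ≤
          #B * (r.factorial * N ^ (n - r)) := by
        have hsub : ((univ : Finset (Fin n → Fin N)).filter fun φ => e.image φ ∈ B) ⊆
            B.biUnion fun b => univ.filter fun φ => e.image φ = b := by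
          intro φ hφ
          exact mem_biUnion.2 ⟨_, (mem_filter.1 hφ).2, mem_filter.2 ⟨mem_univ _, rfl⟩⟩
        refine (card_le_card hsub).trans (card_biUnion_le.trans ?_)
        refine (sum_le_card_nsmul _ _ (r.factorial * N ^ (n - r)) fun b hb => ?_).trans (by simp)
        have := countB e b (by rw [hB b hb, hec])
        rwa [hec] at this
      rw [hec] at hA
      have h3 : N ^ n = N ^ (n - r) * N ^ r := by rw [← pow_add]; congr 1; omega
      calc _ ≤ (N.choose (r - h) * ((r - h) ^ r * N ^ (n - r)) +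
            #B * (r.factorial * N ^ (n - r))) * N ^ r :=
            Nat.mul_le_mul_right _ ((card_union_le _ _).trans (add_le_add hA hB'))
        _ = X * N ^ n := by rw [h3, hX]; ring
    · rw [card_powersetCard, card_univ, Fintype.card_fin, smul_eq_mul]
      apply le_of_eq; ring
  haveI : Nonempty (Fin N) := ⟨⟨0, hN⟩⟩
  obtain ⟨φ, -, hφ⟩ := exists_le_of_sum_le univ_nonempty hsum
  refine ⟨E φ, fun e he => (mem_powersetCard.1 (mem_filter.1 he).1).2, fun S hS => ?_, hφ⟩
  by_cases hk : k ≤ #(S.image φ)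
  · obtain ⟨b, hb, hbS⟩ := hcov _ hk
    obtain ⟨e, h1, h3, h4⟩ := exists_subset_injOn_image_eq_of_surjOn (f := φ) (S : Set (Fin n)) b
      (by intro y hy; simpa using hbS hy)
    refine ⟨e, mem_filter.2 ⟨mem_powersetCard.2 ⟨subset_univ _, ?_⟩, Or.inr (h4 ▸ hb)⟩, h1⟩
    rw [← card_image_of_injOn h3, h4, hB b hb]
  · obtain ⟨e, h1, h3, h4⟩ := collide φ S h2 (by omega) (by omega)
    exact ⟨e, mem_filter.2 ⟨mem_powersetCard.2 ⟨subset_univ _, h3⟩, Or.inl h4⟩, h1⟩

theorem main (r : ℕ) (hr : 2 ≤ r) (n : ℕ) :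
    ∃ E : Finset (Finset (Fin n)), (∀ e ∈ E, #e = r) ∧
      (∀ S : Finset (Fin n), r ^ 2 + r / 2 ≤ #S → ∃ e ∈ E, e ⊆ S) ∧
      ((r ^ 2 + r / 2 - 1 : ℕ) : ℝ) ^ (r - 1) / r.factorial * #E ≤
        300 * Real.log r * n.choose r := by
  set N := (2 * r ^ 3) ^ 3 with hN
  set h := r / 2 with hh
  have hr3 : r ^ 2 ≤ 2 * r ^ 3 := by
    have : r ^ 2 ≤ r ^ 3 := Nat.pow_le_pow_right (by omega) (by omega)
    omega
  have hrk : r ≤ r ^ 2 := Nat.le_self_pow (by omega) r
  have hkN : r ^ 2 ≤ N := hr3.trans (Nat.le_self_pow (by omega) _)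
  have hN1 : 1 ≤ N := by omega
  obtain ⟨B, hB, hBc, hcov⟩ := exists_system N (r ^ 2) r hrk hkN hN1
  obtain ⟨E, hE, hEc, hcard⟩ := blowup (h := h) hN1 (by omega) (by omega) hrk B hB hcov n
  refine ⟨E, hE, hEc, ?_⟩
  set a : ℕ := r ^ 2 + h - 1 with ha
  have hr' : (2 : ℝ) ≤ r := by exact_mod_cast hr
  have hN' : (0 : ℝ) < N := by exact_mod_cast hN1
  have hfac : (0 : ℝ) < r.factorial := by exact_mod_cast r.factorial_pos
  have hfac1 : (1 : ℝ) ≤ r.factorial := by exact_mod_cast r.factorial_pos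
  have ha1 : r ^ 2 ≤ a := by omega
  have ha0 : (1 : ℝ) ≤ a := by exact_mod_cast (by omega : 1 ≤ a)
  have hl2 := Real.log_two_gt_d9
  have hlr : Real.log 2 ≤ Real.log r := Real.log_le_log (by norm_num) hr'
  have hlN : Real.log N ≤ 12 * Real.log r := by
    rw [hN]; push_cast
    rw [Real.log_pow, Real.log_mul (by norm_num) (by positivity), Real.log_pow]
    push_cast
    linarith
  have hlN0 : 0 ≤ Real.log N := Real.log_natCast_nonneg _
  -- first term
  have T1 : a ^ (r - 1) * (N.choose (r - h) * (r - h) ^ r) ≤ N ^ r := by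
    have h1 : a ^ (r - 1) ≤ (2 * r ^ 2) ^ r :=
      (Nat.pow_le_pow_left (by omega) _).trans (Nat.pow_le_pow_right (by omega) (by omega))
    have h2 : N.choose (r - h) ≤ N ^ (r - h) := Nat.choose_le_pow _ _
    have h3 : (r - h) ^ r ≤ r ^ r := Nat.pow_le_pow_left (by omega) _
    have h4 : (2 * r ^ 3) ^ r ≤ N ^ h := by
      rw [hN, ← pow_mul]
      exact Nat.pow_le_pow_right (by omega) (by omega)
    calc a ^ (r - 1) * (N.choose (r - h) * (r - h) ^ r)
        ≤ (2 * r ^ 2) ^ r * (N ^ (r - h) * r ^ r) := by gcongr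
      _ = (2 * r ^ 3) ^ r * N ^ (r - h) := by
          rw [show 2 * r ^ 3 = 2 * r ^ 2 * r by ring, mul_pow (2 * r ^ 2) r]; ring
      _ ≤ N ^ h * N ^ (r - h) := by gcongr
      _ = N ^ r := by rw [← pow_add]; congr 1; omega
  have T1' : (a : ℝ) ^ (r - 1) * (N.choose (r - h) * ((r - h : ℕ) : ℝ) ^ r) ≤ (N : ℝ) ^ r := by
    exact_mod_cast T1
  -- second term
  set c : ℕ := r ^ 2 + 1 - r with hc
  have hc0 : (0 : ℝ) < c := by exact_mod_cast (by omega : 0 < c)
  have hcR : (c : ℝ) = (r : ℝ) ^ 2 + 1 - r := by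
    rw [hc, Nat.cast_sub (by omega)]; push_cast; ring
  have haR : (a : ℝ) ≤ (r : ℝ) ^ 2 + r / 2 - 1 := by
    rw [ha, Nat.cast_sub (by omega)]; push_cast
    have : (h : ℝ) ≤ r / 2 := by rw [hh]; exact Nat.cast_div_le
    linarith
  have hac : (a : ℝ) ^ r ≤ 21 * (c : ℝ) ^ r := by
    have h1 : (a : ℝ) ≤ Real.exp (3 / r) * c := by
      have h2 := Real.add_one_le_exp (3 / (r : ℝ))
      have h3 : (a : ℝ) ≤ (3 / r + 1) * c := by
        rw [hcR]
        have : (3 / (r : ℝ) + 1) * ((r : ℝ) ^ 2 + 1 - r) = r ^ 2 + 2 * r - 2 + 3 / r := by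
          field_simp; ring
        rw [this]
        have : 0 ≤ 3 / (r : ℝ) := by positivity
        linarith
      exact h3.trans (mul_le_mul_of_nonneg_right h2 hc0.le)
    have h4 : Real.exp (3 / (r : ℝ)) ^ r ≤ 21 := by
      rw [← Real.exp_nat_mul, show (r : ℝ) * (3 / r) = (3 : ℕ) * 1 by field_simp; norm_num,
        Real.exp_nat_mul]
      have := Real.exp_one_lt_d9
      calc Real.exp 1 ^ 3 ≤ (2.72 : ℝ) ^ 3 := by gcongr; linarith
        _ ≤ 21 := by norm_num
    calc (a : ℝ) ^ r ≤ (Real.exp (3 / r) * c) ^ r := by gcongr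
      _ = Real.exp (3 / r) ^ r * (c : ℝ) ^ r := mul_pow _ _ _
      _ ≤ _ := by gcongr
  have T2 : (a : ℝ) ^ (r - 1) * #B ≤ 21 * (Real.log N + 1) * (N : ℝ) ^ r := by
    have h1 : (N.choose r : ℝ) ≤ (N : ℝ) ^ r / r.factorial := Nat.choose_le_pow_div r N
    have h2 : (c : ℝ) ^ r / r.factorial ≤ (r ^ 2).choose r := Nat.pow_le_choose r (r ^ 2)
    have h3 : ((r ^ 2 : ℕ) : ℝ) * Real.log N + 1 ≤ a * (Real.log N + 1) := by
      have : ((r ^ 2 : ℕ) : ℝ) ≤ a := by exact_mod_cast ha1
      nlinarith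
    have h4 : (#B : ℝ) ≤ a * (Real.log N + 1) * (N : ℝ) ^ r / (c : ℝ) ^ r := by
      refine hBc.trans ?_
      calc (((r ^ 2 : ℕ) : ℝ) * Real.log N + 1) * N.choose r / (r ^ 2).choose r
          ≤ (a * (Real.log N + 1)) * ((N : ℝ) ^ r / r.factorial) / ((c : ℝ) ^ r / r.factorial) := by
            gcongr
        _ = _ := by field_simp
    have h5 : (a : ℝ) ^ (r - 1) * a = (a : ℝ) ^ r := by
      rw [← pow_succ]; congr 1; omega
    calc (a : ℝ) ^ (r - 1) * #B
        ≤ (a : ℝ) ^ (r - 1) * (a * (Real.log N + 1) * (N : ℝ) ^ r / (c : ℝ) ^ r) := by gcongr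
      _ = (a : ℝ) ^ r * ((Real.log N + 1) * (N : ℝ) ^ r / (c : ℝ) ^ r) := by rw [← h5]; ring
      _ ≤ (21 * (c : ℝ) ^ r) * ((Real.log N + 1) * (N : ℝ) ^ r / (c : ℝ) ^ r) := by gcongr
      _ = _ := by field_simp
  have hcard' : (#E : ℝ) * (N : ℝ) ^ r ≤ n.choose r *
      (N.choose (r - h) * ((r - h : ℕ) : ℝ) ^ r + #B * r.factorial) := by exact_mod_cast hcard
  have hNr : (0 : ℝ) < (N : ℝ) ^ r := by positivity
  have hfin : 1 + 21 * (Real.log N + 1) ≤ 300 * Real.log r := by linarith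
  refine le_of_mul_le_mul_right ?_ hNr
  calc (a : ℝ) ^ (r - 1) / r.factorial * #E * (N : ℝ) ^ r
      = (a : ℝ) ^ (r - 1) / r.factorial * (#E * (N : ℝ) ^ r) := by ring
    _ ≤ (a : ℝ) ^ (r - 1) / r.factorial * (n.choose r *
      (N.choose (r - h) * ((r - h : ℕ) : ℝ) ^ r + #B * r.factorial)) := by gcongr
    _ = n.choose r * ((a : ℝ) ^ (r - 1) * (N.choose (r - h) * ((r - h : ℕ) : ℝ) ^ r) /
        r.factorial + (a : ℝ) ^ (r - 1) * #B) := by field_simp
    _ ≤ n.choose r * ((N : ℝ) ^ r / 1 + 21 * (Real.log N + 1) * (N : ℝ) ^ r) := by gcongr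
    _ = n.choose r * (1 + 21 * (Real.log N + 1)) * (N : ℝ) ^ r := by ring
    _ ≤ n.choose r * (300 * Real.log r) * (N : ℝ) ^ r := by gcongr
    _ = _ := by ring

end Pool.Agent.H378Z.Turan
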