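import Mathlib

set_option autoImplicit false

namespace Pool.Agent.H378Z.Turan

open Finset Filter

/-- `T(n, k, r)`: the least number of edges of an `r`-graph on `n` vertices all of whose
independent sets have fewer than `k` vertices. -/
noncomputable def turanNumber (n k r : ℕ) : ℕ :=
  sInf {m | ∃ E : Finset (Finset (Fin n)), (∀ e ∈ E, #e = r) ∧
    (∀ S : Finset (Fin n), (∀ e ∈ E, ¬ e ⊆ S) → #S < k) ∧ #E = m}

/-- the Turan density `t(k, r)` -/
noncomputable def density (k r : ℕ) : ℝ :=
  limsup (fun n : ℕ => (turanNumber n k r : ℝ) / n.choose r) atTop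

/-- the rescaled density `t_*(α + 1, r)` -/
noncomputable def rescaled (α r : ℕ) : ℝ :=
  (α : ℝ) ^ (r - 1) / r.factorial * density (α + 1) r

/-- `t_*(r)`, the infimum of `t_*(α + 1, r)` over `α ≥ r` -/
noncomputable def tStar (r : ℕ) : ℝ :=
  ⨅ α : {α : ℕ // r ≤ α}, rescaled α r

end Pool.Agent.H378Z.Turan
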