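import Pool.Agent.H378Z.Turan
import Pool.Agent.H378Z.TuranDefs

set_option autoImplicit false

namespace Pool.Agent.H378Z.Turan

open Finset Filter

lemma density_nonneg (k r : ℕ) : 0 ≤ density k r := by
  rw [density, limsup_eq]
  refine Real.sInf_nonneg fun a ha => ?_
  obtain ⟨n, hn⟩ := Eventually.exists ha
  exact le_trans (by positivity) hn

theorem rescaled_le (r : ℕ) (hr : 2 ≤ r) :
    rescaled (r ^ 2 + r / 2 - 1) r ≤ 300 * Real.log r := by
  have hrk : r ≤ r ^ 2 := Nat.le_self_pow (by omega) r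
  set a : ℕ := r ^ 2 + r / 2 - 1 with ha
  have ha0 : (0 : ℝ) < a := by exact_mod_cast (by omega : 0 < a)
  have hfac : (0 : ℝ) < r.factorial := by exact_mod_cast r.factorial_pos
  have hw : (0 : ℝ) < (a : ℝ) ^ (r - 1) / r.factorial := by positivity
  rw [rescaled, ← le_div_iff₀' hw, density]
  refine limsup_le_of_le (isCoboundedUnder_le_of_le atTop (x := 0) fun n => by positivity) ?_
  filter_upwards [eventually_ge_atTop r] with n hn
  obtain ⟨E, hE, hcov, hc⟩ := main r hr n
  have h1 : turanNumber n (a + 1) r ≤ #E := by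
    refine Nat.sInf_le ⟨E, hE, fun S hS => ?_, rfl⟩
    by_contra hcon
    obtain ⟨e, he, heS⟩ := hcov S (by omega)
    exact hS e he heS
  have h2 : (turanNumber n (a + 1) r : ℝ) ≤ #E := by exact_mod_cast h1
  have h3 : (0 : ℝ) < n.choose r := by exact_mod_cast Nat.choose_pos hn
  rw [le_div_iff₀' hw, ← mul_div_assoc, div_le_iff₀ h3]
  exact (mul_le_mul_of_nonneg_left h2 hw.le).trans hc

theorem tStar_le (r : ℕ) (hr : 2 ≤ r) : tStar r ≤ 300 * Real.log r := by
  have hrk : r ≤ r ^ 2 := Nat.le_self_pow (by omega) r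
  refine ciInf_le_of_le ⟨0, ?_⟩ ⟨r ^ 2 + r / 2 - 1, by omega⟩ (rescaled_le r hr)
  rintro _ ⟨α, rfl⟩
  have := density_nonneg (α + 1) r
  exact mul_nonneg (by positivity) this

end Pool.Agent.H378Z.Turan
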